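import Mathlib
import Pool.Agent.Results.MP_be4214_an.ArealCircleDerivative

/-!
Morera type theorem with one circle of radius `α (1 - |z|)` about each centre `z` of the unit disc.

Outline of the proof.

1. Fourier components.  The condition is invariant under rotations, so it passes to the components
   `fk F k` of `F` with respect to rotations; these satisfy `g (e ψ * z) = e ψ ^ k * g z`.
2. Energy.  For a smooth equivariant `f` with `G` its Cauchy-Riemann derivative, the circle means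
   `q0, q1` of `G` (with weights `1` and `e t`) about a centre `1 - y` with radius `r` satisfy a
   first order symmetric hyperbolic system in `(y, r)`.  Its energy on `0 < r < L y`, with the cone
   `L y = α y` (where the circle integrals are known to vanish) followed by a backward light cone,
   satisfies a Gronwall inequality whose boundary term is the square of the derivative along the
   cone of the given circle integrals.
3. Regularisation.  The circle of centre `1 - y` and radius `α y` is parametrised so that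
   `1 - |ζ| = y (1 - α cos β)`; the circle integral then becomes an integral of the radial profile
   against a smooth kernel, compatible with multiplicative mollification of the profile.  Together
   with a cut-off near the unit circle this gives smooth approximations of arbitrarily small energy,
   so the circle integrals of the component vanish for all small radii (`equi_small`).
4. The components are therefore holomorphic, hence all circle integrals of `F` over circles bounding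
   discs inside the unit disc have vanishing Fourier coefficients in the rotation angle, so they
   vanish and `F` is holomorphic.
-/

open Complex Filter Metric Real Set Topology MeasureTheory

namespace Pool.Agent.Results.MP_9de1de_an.OneRadius


/-- Derivative of a parametric integral over a compact interval, `C^1` integrand. -/
lemma hasDerivAt_param {E : Type*} [NormedAddCommGroup E] [NormedSpace ℝ E] (a b : ℝ)
    (φ φ' : ℝ → ℝ → E) (hφ : ∀ y, Continuous (φ y)) (hφ' : Continuous (Function.uncurry φ'))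
    (hd : ∀ y t, HasDerivAt (fun y => φ y t) (φ' y t) y) (y0 : ℝ) :
    HasDerivAt (fun y => ∫ t in a..b, φ y t) (∫ t in a..b, φ' y0 t) y0 := by
  obtain ⟨C, hC⟩ := ((isCompact_closedBall y0 1).prod (isCompact_uIcc (a := a) (b := b))).exists_bound_of_continuousOn
    hφ'.continuousOn
  have h := intervalIntegral.hasDerivAt_integral_of_dominated_loc_of_deriv_le (μ := volume)
    (F := φ) (F' := φ') (x₀ := y0) (s := ball y0 1) (a := a) (b := b) (bound := fun _ => C)
    (ball_mem_nhds y0 one_pos)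
    (Eventually.of_forall fun y => (hφ y).aestronglyMeasurable)
    ((hφ y0).intervalIntegrable _ _)
    ((hφ'.comp (by fun_prop : Continuous fun t => (y0, t))).aestronglyMeasurable)
    (Eventually.of_forall fun t ht y hy => hC (y, t)
      ⟨ball_subset_closedBall hy, uIoc_subset_uIcc ht⟩)
    intervalIntegrable_const
    (Eventually.of_forall fun t _ y _ => hd y t)
  exact h.2

/-- the unimodular exponential -/
noncomputable def e (t : ℝ) : ℂ := Complex.exp (t * I)

lemma continuous_e : Continuous e := by unfold e; fun_prop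

lemma hasDerivAt_e (t : ℝ) : HasDerivAt e (I * e t) t := by
  unfold e
  have h1 : HasDerivAt (fun t : ℝ => (t : ℂ) * I) I t := by
    simpa using (Complex.ofRealCLM.hasDerivAt (x := t)).mul_const I
  have h2 := h1.cexp
  rw [mul_comm] at h2
  exact h2

lemma norm_e (t : ℝ) : ‖e t‖ = 1 := Complex.norm_exp_ofReal_mul_I t

lemma e_two_pi : e (2 * π) = 1 := by
  unfold e; push_cast; exact Complex.exp_two_pi_mul_I

lemma e_zero : e 0 = 1 := by simp [e]

/-- points of the circle of centre `1 - y` and radius `(l0 + l1 * y) * θ` -/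
noncomputable def Z (l0 l1 y θ t : ℝ) : ℂ := 1 - y + (l0 + l1 * y) * θ * e t

lemma continuous_Z (l0 l1 : ℝ) : Continuous fun p : (ℝ × ℝ) × ℝ => Z l0 l1 p.1.1 p.1.2 p.2 := by
  unfold Z
  have := continuous_e
  fun_prop

/-- weighted circle integral -/
noncomputable def Q (G : ℂ → ℂ) (l0 l1 : ℝ) (c : ℝ → ℂ) (y θ : ℝ) : ℂ :=
  ∫ t in (0 : ℝ)..2 * π, G (Z l0 l1 y θ t) * c t

/-- weighted circle integral of a directional derivative -/
noncomputable def R (G : ℂ → ℂ) (l0 l1 : ℝ) (c v : ℝ → ℂ) (y θ : ℝ) : ℂ :=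
  ∫ t in (0 : ℝ)..2 * π, fderiv ℝ G (Z l0 l1 y θ t) (v t) * c t

section

variable {G : ℂ → ℂ} {l0 l1 : ℝ} {c v : ℝ → ℂ}

lemma continuous_Q (hG : Continuous G) (hc : Continuous c) :
    Continuous fun p : ℝ × ℝ => Q G l0 l1 c p.1 p.2 := by
  unfold Q
  apply intervalIntegral.continuous_parametric_intervalIntegral_of_continuous'
  exact (hG.comp (continuous_Z l0 l1)).mul (hc.comp continuous_snd)

lemma continuous_R_integrand (hG : ContDiff ℝ 1 G) (hc : Continuous c) {v : (ℝ × ℝ) × ℝ → ℂ}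
    (hv : Continuous v) : Continuous fun p : (ℝ × ℝ) × ℝ =>
      fderiv ℝ G (Z l0 l1 p.1.1 p.1.2 p.2) (v p) * c p.2 := by
  have h1 : Continuous (fderiv ℝ G) := hG.continuous_fderiv (by norm_num)
  exact ((h1.comp (continuous_Z l0 l1)).clm_apply hv).mul (hc.comp continuous_snd)

lemma continuous_R (hG : ContDiff ℝ 1 G) (hc : Continuous c) (hv : Continuous v) :
    Continuous fun p : ℝ × ℝ => R G l0 l1 c v p.1 p.2 := by
  unfold R
  apply intervalIntegral.continuous_parametric_intervalIntegral_of_continuous'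
  exact continuous_R_integrand hG hc (v := fun p => v p.2) (hv.comp continuous_snd)

lemma R_integrable (hG : ContDiff ℝ 1 G) (hc : Continuous c) (hv : Continuous v) (y θ : ℝ) :
    IntervalIntegrable (fun t => fderiv ℝ G (Z l0 l1 y θ t) (v t) * c t) volume 0 (2 * π) := by
  apply Continuous.intervalIntegrable
  exact (continuous_R_integrand (l0 := l0) (l1 := l1) hG hc (v := fun p => v p.2)
    (hv.comp continuous_snd)).comp (by fun_prop : Continuous fun t : ℝ => ((y, θ), t))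

lemma R_add (hG : ContDiff ℝ 1 G) (hc : Continuous c) {v w : ℝ → ℂ} (hv : Continuous v)
    (hw : Continuous w) (y θ : ℝ) :
    R G l0 l1 c (fun t => v t + w t) y θ = R G l0 l1 c v y θ + R G l0 l1 c w y θ := by
  unfold R
  rw [← intervalIntegral.integral_add (R_integrable hG hc hv y θ) (R_integrable hG hc hw y θ)]
  congr 1
  funext t
  rw [map_add, add_mul]

lemma R_smul (s : ℝ) (y θ : ℝ) :
    R G l0 l1 c (fun t => (s : ℂ) * v t) y θ = s * R G l0 l1 c v y θ := by
  unfold R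
  rw [← intervalIntegral.integral_const_mul]
  congr 1
  funext t
  have h : fderiv ℝ G (Z l0 l1 y θ t) ((s : ℂ) * v t) = s * fderiv ℝ G (Z l0 l1 y θ t) (v t) := by
    rw [← Complex.real_smul, map_smul, Complex.real_smul]
  show fderiv ℝ G (Z l0 l1 y θ t) ((s : ℂ) * v t) * c t = _
  rw [h]; ring

lemma hasDerivAt_Q_y (hG : ContDiff ℝ 1 G) (hc : Continuous c) (y θ : ℝ) :
    HasDerivAt (fun y => Q G l0 l1 c y θ)
      (-R G l0 l1 c (fun _ => 1) y θ + l1 * θ * R G l0 l1 c e y θ) y := by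
  have h1 : HasDerivAt (fun y => Q G l0 l1 c y θ)
      (R G l0 l1 c (fun t => ((-1 : ℝ) : ℂ) * 1 + ((l1 * θ : ℝ) : ℂ) * e t) y θ) y := by
    unfold Q R
    apply hasDerivAt_param 0 (2 * π) (fun y t => G (Z l0 l1 y θ t) * c t)
      (fun y t => fderiv ℝ G (Z l0 l1 y θ t) (((-1 : ℝ) : ℂ) * 1 + ((l1 * θ : ℝ) : ℂ) * e t) * c t)
    · intro y
      exact (hG.continuous.comp ((continuous_Z l0 l1).comp
        (by fun_prop : Continuous fun t : ℝ => ((y, θ), t)))).mul hc
    · have := continuous_R_integrand (l0 := l0) (l1 := l1) hG hc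
        (v := fun p => ((-1 : ℝ) : ℂ) * 1 + ((l1 * p.1.2 : ℝ) : ℂ) * e p.2)
        (by have := continuous_e; fun_prop)
      exact this.comp (by fun_prop : Continuous fun p : ℝ × ℝ => ((p.1, θ), p.2))
    · intro y t
      apply HasDerivAt.mul_const
      have hZ : HasDerivAt (fun y => Z l0 l1 y θ t)
          (((-1 : ℝ) : ℂ) * 1 + ((l1 * θ : ℝ) : ℂ) * e t) y := by
        unfold Z
        have h0 : HasDerivAt (fun y : ℝ => (y : ℂ)) 1 y := Complex.ofRealCLM.hasDerivAt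
        have h2 := ((h0.const_sub 1).add ((((h0.const_mul (l1 : ℂ)).const_add (l0 : ℂ)).mul_const
          (θ : ℂ)).mul_const (e t)))
        convert! h2 using 1
        push_cast; ring
      exact ((hG.differentiable (by norm_num) _).hasFDerivAt).comp_hasDerivAt y hZ
  rw [R_add hG hc (by fun_prop) (by have := continuous_e; fun_prop), R_smul, R_smul] at h1
  convert! h1 using 1
  push_cast; ring

lemma hasDerivAt_Q_θ (hG : ContDiff ℝ 1 G) (hc : Continuous c) (y θ : ℝ) :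
    HasDerivAt (fun θ => Q G l0 l1 c y θ)
      ((l0 + l1 * y) * R G l0 l1 c e y θ) θ := by
  have h1 : HasDerivAt (fun θ => Q G l0 l1 c y θ)
      (R G l0 l1 c (fun t => ((l0 + l1 * y : ℝ) : ℂ) * e t) y θ) θ := by
    unfold Q R
    apply hasDerivAt_param 0 (2 * π) (fun θ t => G (Z l0 l1 y θ t) * c t)
      (fun θ t => fderiv ℝ G (Z l0 l1 y θ t) (((l0 + l1 * y : ℝ) : ℂ) * e t) * c t)
    · intro θ
      exact (hG.continuous.comp ((continuous_Z l0 l1).comp
        (by fun_prop : Continuous fun t : ℝ => ((y, θ), t)))).mul hc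
    · have := continuous_R_integrand (l0 := l0) (l1 := l1) hG hc
        (v := fun p => ((l0 + l1 * p.1.1 : ℝ) : ℂ) * e p.2)
        (by have := continuous_e; fun_prop)
      exact this.comp (by fun_prop : Continuous fun p : ℝ × ℝ => ((y, p.1), p.2))
    · intro θ t
      apply HasDerivAt.mul_const
      have hZ : HasDerivAt (fun θ => Z l0 l1 y θ t)
          (((l0 + l1 * y : ℝ) : ℂ) * e t) θ := by
        unfold Z
        have h0 : HasDerivAt (fun θ : ℝ => (θ : ℂ)) 1 θ := Complex.ofRealCLM.hasDerivAt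
        have h2 := (((h0.const_mul ((l0 : ℂ) + l1 * y)).mul_const (e t)).const_add (1 - (y : ℂ)))
        convert! h2 using 1
        push_cast; ring
      exact ((hG.differentiable (by norm_num) _).hasFDerivAt).comp_hasDerivAt θ hZ
  rw [R_smul] at h1
  convert! h1 using 1
  push_cast; ring

/-- the integral of a derivative over a period -/
lemma period_zero (hG : ContDiff ℝ 1 G) (y θ : ℝ) :
    (((l0 + l1 * y) * θ : ℝ) : ℂ) * R G l0 l1 (fun _ => 1) (fun t => I * e t) y θ = 0 := by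
  rw [← R_smul]
  unfold R
  have hd : ∀ t : ℝ, HasDerivAt (fun t => G (Z l0 l1 y θ t))
      (fderiv ℝ G (Z l0 l1 y θ t) ((((l0 + l1 * y) * θ : ℝ) : ℂ) * (I * e t)) * 1) t := by
    intro t
    rw [mul_one]
    have hZ : HasDerivAt (fun t => Z l0 l1 y θ t)
        ((((l0 + l1 * y) * θ : ℝ) : ℂ) * (I * e t)) t := by
      unfold Z
      have h2 := ((hasDerivAt_e t).const_mul (((l0 : ℂ) + l1 * y) * θ)).const_add (1 - (y : ℂ))
      convert! h2 using 1
      push_cast; ring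
    exact ((hG.differentiable (by norm_num) _).hasFDerivAt).comp_hasDerivAt t hZ
  rw [intervalIntegral.integral_eq_sub_of_hasDerivAt (fun t _ => hd t)]
  · simp only [Z, e_two_pi, e_zero, sub_self]
  · have := continuous_e
    exact R_integrable (l0 := l0) (l1 := l1) hG (c := fun _ => 1)
      (v := fun t => (((l0 + l1 * y) * θ : ℝ) : ℂ) * (I * e t)) (by fun_prop) (by fun_prop) y θ

lemma period_one (hG : ContDiff ℝ 1 G) (y θ : ℝ) :
    (((l0 + l1 * y) * θ : ℝ) : ℂ) * R G l0 l1 e (fun t => I * e t) y θ = - I * Q G l0 l1 e y θ := by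
  rw [← R_smul]
  have hce := continuous_e
  have hd : ∀ t : ℝ, HasDerivAt (fun t => G (Z l0 l1 y θ t) * e t)
      (fderiv ℝ G (Z l0 l1 y θ t) ((((l0 + l1 * y) * θ : ℝ) : ℂ) * (I * e t)) * e t +
        G (Z l0 l1 y θ t) * (I * e t)) t := by
    intro t
    have hZ : HasDerivAt (fun t => Z l0 l1 y θ t)
        ((((l0 + l1 * y) * θ : ℝ) : ℂ) * (I * e t)) t := by
      unfold Z
      have h2 := ((hasDerivAt_e t).const_mul (((l0 : ℂ) + l1 * y) * θ)).const_add (1 - (y : ℂ))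
      convert! h2 using 1
      push_cast; ring
    exact (((hG.differentiable (by norm_num) _).hasFDerivAt).comp_hasDerivAt t hZ).mul
      (hasDerivAt_e t)
  have hint1 := R_integrable (l0 := l0) (l1 := l1) hG (c := e)
      (v := fun t => (((l0 + l1 * y) * θ : ℝ) : ℂ) * (I * e t)) (by fun_prop) (by fun_prop) y θ
  have hint2 : IntervalIntegrable (fun t => G (Z l0 l1 y θ t) * (I * e t)) volume 0 (2 * π) := by
    apply Continuous.intervalIntegrable
    exact (hG.continuous.comp ((continuous_Z l0 l1).comp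
      (by fun_prop : Continuous fun t : ℝ => ((y, θ), t)))).mul (by fun_prop)
  have h0 := intervalIntegral.integral_eq_sub_of_hasDerivAt (fun t _ => hd t) (hint1.add hint2)
  rw [intervalIntegral.integral_add hint1 hint2] at h0
  have h3 : (∫ t in (0 : ℝ)..2 * π, G (Z l0 l1 y θ t) * (I * e t)) = I * Q G l0 l1 e y θ := by
    unfold Q
    rw [← intervalIntegral.integral_const_mul]
    congr 1
    funext t
    ring
  rw [h3] at h0
  simp only [Z, e_two_pi, e_zero, sub_self] at h0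
  unfold R
  simp only [Z] at h0 ⊢
  linear_combination h0

lemma clm_decomp (g : ℂ →L[ℝ] ℂ) (u : ℂ) : g u = u.re * g 1 + u.im * g I := by
  conv_lhs => rw [← Complex.re_add_im u]
  rw [show ((u.re : ℂ) + u.im * I) = u.re • (1 : ℂ) + u.im • I by
    simp [Complex.real_smul], map_add, map_smul, map_smul]
  simp only [Complex.real_smul]

lemma clm_beta (g : ℂ →L[ℝ] ℂ) (u : ℂ) (hu : ‖u‖ = 1) :
    g 1 + I * g I = (g u + I * g (I * u)) * u := by
  rw [clm_decomp g u, clm_decomp g (I * u)]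
  have h1 : (I * u).re = -u.im := by simp
  have h2 : (I * u).im = u.re := by simp
  have h3 : (u.re : ℂ) ^ 2 + (u.im : ℂ) ^ 2 = 1 := by
    have : u.re ^ 2 + u.im ^ 2 = 1 := by
      have := Complex.normSq_apply u
      rw [Complex.normSq_eq_norm_sq, hu] at this
      nlinarith
    exact_mod_cast this
  rw [h1, h2]
  have hu' : u = (u.re : ℂ) + (u.im : ℂ) * I := (Complex.re_add_im u).symm
  have hI : I * I = -1 := Complex.I_mul_I
  generalize u.re = x at *
  generalize u.im = y at *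
  rw [hu']
  push_cast
  linear_combination (-(g 1 + I * g I)) * h3 + (g 1 * (y : ℂ) ^ 2 - g I * x * y) * hI

lemma clm_alpha (g : ℂ →L[ℝ] ℂ) (u : ℂ) :
    (g 1 - I * g I) * u = g u - I * g (I * u) := by
  rw [clm_decomp g u, clm_decomp g (I * u)]
  have h1 : (I * u).re = -u.im := by simp
  have h2 : (I * u).im = u.re := by simp
  rw [h1, h2]
  have hu' : u = (u.re : ℂ) + (u.im : ℂ) * I := (Complex.re_add_im u).symm
  have hI : I * I = -1 := Complex.I_mul_I
  generalize u.re = x at *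
  generalize u.im = y at *
  rw [hu']
  push_cast
  linear_combination (-(g I * (y : ℂ))) * hI

variable {m : ℝ}

lemma R_beta (hG : ContDiff ℝ 1 G) (y θ : ℝ) :
    R G l0 l1 (fun _ => 1) (fun _ => 1) y θ + I * R G l0 l1 (fun _ => 1) (fun _ => I) y θ =
      R G l0 l1 e e y θ + I * R G l0 l1 e (fun t => I * e t) y θ := by
  have hce := continuous_e
  have hi1 := R_integrable (l0 := l0) (l1 := l1) hG (c := fun _ => 1) (v := fun _ => 1)
    (by fun_prop) (by fun_prop) y θ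
  have hi2 := R_integrable (l0 := l0) (l1 := l1) hG (c := fun _ => 1) (v := fun _ => I)
    (by fun_prop) (by fun_prop) y θ
  have hi3 := R_integrable (l0 := l0) (l1 := l1) hG (c := e) (v := e)
    (by fun_prop) (by fun_prop) y θ
  have hi4 := R_integrable (l0 := l0) (l1 := l1) hG (c := e) (v := fun t => I * e t)
    (by fun_prop) (by fun_prop) y θ
  unfold R
  rw [← intervalIntegral.integral_const_mul, ← intervalIntegral.integral_const_mul,
    ← intervalIntegral.integral_add hi1 (hi2.const_mul I),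
    ← intervalIntegral.integral_add hi3 (hi4.const_mul I)]
  congr 1
  funext t
  have := clm_beta (fderiv ℝ G (Z l0 l1 y θ t)) (e t) (norm_e t)
  linear_combination this

lemma R_alpha (hG : ContDiff ℝ 1 G) (y θ : ℝ) :
    R G l0 l1 e (fun _ => 1) y θ - I * R G l0 l1 e (fun _ => I) y θ =
      R G l0 l1 (fun _ => 1) e y θ - I * R G l0 l1 (fun _ => 1) (fun t => I * e t) y θ := by
  have hce := continuous_e
  have hi1 := R_integrable (l0 := l0) (l1 := l1) hG (c := e) (v := fun _ => 1)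
    (by fun_prop) (by fun_prop) y θ
  have hi2 := R_integrable (l0 := l0) (l1 := l1) hG (c := e) (v := fun _ => I)
    (by fun_prop) (by fun_prop) y θ
  have hi3 := R_integrable (l0 := l0) (l1 := l1) hG (c := fun _ => 1) (v := e)
    (by fun_prop) (by fun_prop) y θ
  have hi4 := R_integrable (l0 := l0) (l1 := l1) hG (c := fun _ => 1) (v := fun t => I * e t)
    (by fun_prop) (by fun_prop) y θ
  unfold R
  rw [← intervalIntegral.integral_const_mul, ← intervalIntegral.integral_const_mul,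
    ← intervalIntegral.integral_sub hi1 (hi2.const_mul I),
    ← intervalIntegral.integral_sub hi3 (hi4.const_mul I)]
  congr 1
  funext t
  have := clm_alpha (fderiv ℝ G (Z l0 l1 y θ t)) (e t)
  linear_combination this

lemma R_equi (hG : ContDiff ℝ 1 G) (hE : ∀ ζ, fderiv ℝ G ζ (I * ζ) = I * m * G ζ)
    (hc : Continuous c) (y θ : ℝ) :
    ((1 - y : ℝ) : ℂ) * R G l0 l1 c (fun _ => I) y θ +
      (((l0 + l1 * y) * θ : ℝ) : ℂ) * R G l0 l1 c (fun t => I * e t) y θ
      = I * m * Q G l0 l1 c y θ := by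
  have hce := continuous_e
  rw [← R_smul, ← R_smul, ← R_add hG hc (by fun_prop) (by fun_prop)]
  unfold R Q
  rw [← intervalIntegral.integral_const_mul]
  congr 1
  funext t
  have h1 : (((1 - y : ℝ) : ℂ) * I + (((l0 + l1 * y) * θ : ℝ) : ℂ) * (I * e t)) =
      I * Z l0 l1 y θ t := by
    unfold Z; push_cast; ring
  show fderiv ℝ G (Z l0 l1 y θ t) (((1 - y : ℝ) : ℂ) * I +
    (((l0 + l1 * y) * θ : ℝ) : ℂ) * (I * e t)) * c t = _
  rw [h1, hE]
  ring

/-- first identity of the system -/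
lemma sys_beta (hG : ContDiff ℝ 1 G) (hE : ∀ ζ, fderiv ℝ G ζ (I * ζ) = I * m * G ζ)
    (y θ : ℝ) :
    ((1 - y : ℝ) : ℂ) * ((((l0 + l1 * y) * θ : ℝ) : ℂ) * R G l0 l1 (fun _ => 1) (fun _ => 1) y θ) =
      ((1 - y : ℝ) : ℂ) * ((((l0 + l1 * y) * θ : ℝ) : ℂ) * R G l0 l1 e e y θ + Q G l0 l1 e y θ)
      + m * (((l0 + l1 * y) * θ : ℝ) : ℂ) * Q G l0 l1 (fun _ => 1) y θ := by
  have h1 := R_beta (l0 := l0) (l1 := l1) hG y θ
  have h2 := R_equi (l0 := l0) (l1 := l1) hG hE (c := fun _ => 1) (by fun_prop) y θ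
  have h3 := period_zero (l0 := l0) (l1 := l1) hG y θ
  have h4 := period_one (l0 := l0) (l1 := l1) hG y θ
  generalize (((l0 + l1 * y) * θ : ℝ) : ℂ) = r at *
  generalize ((1 - y : ℝ) : ℂ) = ρ at *
  have hI : I * I = -1 := Complex.I_mul_I
  linear_combination (ρ * r) * h1 - (I * r) * h2 + I * r * h3 + (I * ρ) * h4 +
    (-(r * m * Q G l0 l1 (fun _ => 1) y θ) - ρ * Q G l0 l1 e y θ) * hI

lemma sys_alpha (hG : ContDiff ℝ 1 G) (hE : ∀ ζ, fderiv ℝ G ζ (I * ζ) = I * m * G ζ)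
    (y θ : ℝ) :
    ((1 - y : ℝ) : ℂ) * ((((l0 + l1 * y) * θ : ℝ) : ℂ) * R G l0 l1 (fun _ => 1) e y θ) =
      ((1 - y : ℝ) : ℂ) * ((((l0 + l1 * y) * θ : ℝ) : ℂ) * R G l0 l1 e (fun _ => 1) y θ)
      + (((l0 + l1 * y) * θ : ℝ) : ℂ) * (m + 1) * Q G l0 l1 e y θ := by
  have h1 := R_alpha (l0 := l0) (l1 := l1) hG y θ
  have h2 := R_equi (l0 := l0) (l1 := l1) hG hE (c := e) continuous_e y θ
  have h3 := period_zero (l0 := l0) (l1 := l1) hG y θ
  have h4 := period_one (l0 := l0) (l1 := l1) hG y θ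
  generalize (((l0 + l1 * y) * θ : ℝ) : ℂ) = r at *
  generalize ((1 - y : ℝ) : ℂ) = ρ at *
  have hI : I * I = -1 := Complex.I_mul_I
  linear_combination (-(ρ * r)) * h1 - (I * r) * h2 + (I * ρ) * h3 + (I * r) * h4 +
    (-(r * (m + 1) * Q G l0 l1 e y θ)) * hI
/-! energy -/

/-- squared length of the pair of circle integrals -/
noncomputable def N (G : ℂ → ℂ) (l0 l1 y θ : ℝ) : ℝ :=
  ‖Q G l0 l1 (fun _ => 1) y θ‖ ^ 2 + ‖Q G l0 l1 e y θ‖ ^ 2

/-- energy density -/
noncomputable def J (G : ℂ → ℂ) (l0 l1 y θ : ℝ) : ℝ :=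
  (l0 + l1 * y) ^ 2 * θ * N G l0 l1 y θ / 2

/-- energy -/
noncomputable def En (G : ℂ → ℂ) (l0 l1 y : ℝ) : ℝ := ∫ θ in (0 : ℝ)..1, J G l0 l1 y θ

noncomputable def Ny (G : ℂ → ℂ) (l0 l1 y θ : ℝ) : ℝ :=
  2 * (@inner ℝ ℂ _ (Q G l0 l1 (fun _ => 1) y θ) (-R G l0 l1 (fun _ => 1) (fun _ => 1) y θ +
      l1 * θ * R G l0 l1 (fun _ => 1) e y θ)) +
    2 * (@inner ℝ ℂ _ (Q G l0 l1 e y θ) (-R G l0 l1 e (fun _ => 1) y θ +
      l1 * θ * R G l0 l1 e e y θ))

noncomputable def Nθ (G : ℂ → ℂ) (l0 l1 y θ : ℝ) : ℝ :=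
  2 * (@inner ℝ ℂ _ (Q G l0 l1 (fun _ => 1) y θ) ((l0 + l1 * y) * R G l0 l1 (fun _ => 1) e y θ)) +
    2 * (@inner ℝ ℂ _ (Q G l0 l1 e y θ) ((l0 + l1 * y) * R G l0 l1 e e y θ))

lemma hasDerivAt_N_y (hG : ContDiff ℝ 1 G) (y θ : ℝ) :
    HasDerivAt (fun y => N G l0 l1 y θ) (Ny G l0 l1 y θ) y := by
  unfold N Ny
  exact (hasDerivAt_Q_y hG (by fun_prop) y θ).norm_sq.add
    (hasDerivAt_Q_y hG continuous_e y θ).norm_sq

lemma hasDerivAt_N_θ (hG : ContDiff ℝ 1 G) (y θ : ℝ) :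
    HasDerivAt (fun θ => N G l0 l1 y θ) (Nθ G l0 l1 y θ) θ := by
  unfold N Nθ
  exact (hasDerivAt_Q_θ hG (by fun_prop) y θ).norm_sq.add
    (hasDerivAt_Q_θ hG continuous_e y θ).norm_sq

lemma continuous_N (hG : ContDiff ℝ 1 G) : Continuous fun p : ℝ × ℝ => N G l0 l1 p.1 p.2 := by
  unfold N
  have h1 := continuous_Q (l0 := l0) (l1 := l1) hG.continuous (c := fun _ => 1) (by fun_prop)
  have h2 := continuous_Q (l0 := l0) (l1 := l1) hG.continuous continuous_e
  fun_prop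

lemma continuous_Ny (hG : ContDiff ℝ 1 G) : Continuous fun p : ℝ × ℝ => Ny G l0 l1 p.1 p.2 := by
  unfold Ny
  have hce := continuous_e
  have h1 := continuous_Q (l0 := l0) (l1 := l1) hG.continuous (c := fun _ => 1) (by fun_prop)
  have h2 := continuous_Q (l0 := l0) (l1 := l1) hG.continuous continuous_e
  have h3 := continuous_R (l0 := l0) (l1 := l1) hG (c := fun _ => 1) (v := fun _ => 1)
    (by fun_prop) (by fun_prop)
  have h4 := continuous_R (l0 := l0) (l1 := l1) hG (c := fun _ => 1) (v := e)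
    (by fun_prop) (by fun_prop)
  have h5 := continuous_R (l0 := l0) (l1 := l1) hG (c := e) (v := fun _ => 1)
    (by fun_prop) (by fun_prop)
  have h6 := continuous_R (l0 := l0) (l1 := l1) hG (c := e) (v := e)
    (by fun_prop) (by fun_prop)
  fun_prop

noncomputable def Jy (G : ℂ → ℂ) (l0 l1 y θ : ℝ) : ℝ :=
  (l0 + l1 * y) * l1 * θ * N G l0 l1 y θ + (l0 + l1 * y) ^ 2 * θ * Ny G l0 l1 y θ / 2

lemma hasDerivAt_J (hG : ContDiff ℝ 1 G) (y θ : ℝ) :
    HasDerivAt (fun y => J G l0 l1 y θ) (Jy G l0 l1 y θ) y := by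
  unfold J Jy
  have h1 := hasDerivAt_N_y (l0 := l0) (l1 := l1) hG y θ
  have h0 : HasDerivAt (fun y : ℝ => (l0 + l1 * y)) l1 y := by
    simpa using ((hasDerivAt_id y).const_mul l1).const_add l0
  have h2 := ((((h0.pow 2).mul_const θ).mul h1)).div_const 2
  convert! h2 using 1
  simp only [Nat.cast_ofNat, Nat.add_one_sub_one, pow_one, Pi.pow_apply]
  ring

lemma continuous_J (hG : ContDiff ℝ 1 G) : Continuous (Function.uncurry (J G l0 l1)) := by
  have hN := continuous_N (l0 := l0) (l1 := l1) hG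
  have h2 : Continuous fun p : ℝ × ℝ => (l0 + l1 * p.1) ^ 2 * p.2 := by fun_prop
  exact (h2.mul hN).div_const 2

lemma continuous_Jy (hG : ContDiff ℝ 1 G) : Continuous (Function.uncurry (Jy G l0 l1)) := by
  have hN := continuous_N (l0 := l0) (l1 := l1) hG
  have hNy := continuous_Ny (l0 := l0) (l1 := l1) hG
  have h1 : Continuous fun p : ℝ × ℝ => (l0 + l1 * p.1) * l1 * p.2 := by fun_prop
  have h2 : Continuous fun p : ℝ × ℝ => (l0 + l1 * p.1) ^ 2 * p.2 := by fun_prop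
  exact (h1.mul hN).add ((h2.mul hNy).div_const 2)

lemma hasDerivAt_En (hG : ContDiff ℝ 1 G) (y : ℝ) :
    HasDerivAt (fun y => En G l0 l1 y) (∫ θ in (0 : ℝ)..1, Jy G l0 l1 y θ) y := by
  unfold En
  have hN := continuous_N (l0 := l0) (l1 := l1) hG
  have hNy := continuous_Ny (l0 := l0) (l1 := l1) hG
  have hJ : ∀ y : ℝ, Continuous fun θ : ℝ => J G l0 l1 y θ := by
    intro y
    exact (continuous_J (l0 := l0) (l1 := l1) hG).uncurry_left y
  have hJy : Continuous (Function.uncurry fun (y θ : ℝ) => Jy G l0 l1 y θ) :=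
    continuous_Jy (l0 := l0) (l1 := l1) hG
  exact hasDerivAt_param 0 1 (fun y θ => J G l0 l1 y θ) (fun y θ => Jy G l0 l1 y θ) hJ hJy
    (fun y θ => hasDerivAt_J hG y θ) y

/-- flux -/
noncomputable def Fl (G : ℂ → ℂ) (l0 l1 y θ : ℝ) : ℝ :=
  l1 * (l0 + l1 * y) * θ ^ 2 * N G l0 l1 y θ / 2 -
    (l0 + l1 * y) * θ * @inner ℝ ℂ _ (Q G l0 l1 (fun _ => 1) y θ) (Q G l0 l1 e y θ)

noncomputable def Flθ (G : ℂ → ℂ) (l0 l1 y θ : ℝ) : ℝ :=
  l1 * (l0 + l1 * y) * θ * N G l0 l1 y θ + l1 * (l0 + l1 * y) * θ ^ 2 * Nθ G l0 l1 y θ / 2 -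
    ((l0 + l1 * y) * @inner ℝ ℂ _ (Q G l0 l1 (fun _ => 1) y θ) (Q G l0 l1 e y θ) +
    (l0 + l1 * y) * θ * (@inner ℝ ℂ _ (Q G l0 l1 (fun _ => 1) y θ)
      ((l0 + l1 * y) * R G l0 l1 e e y θ) +
      @inner ℝ ℂ _ ((l0 + l1 * y) * R G l0 l1 (fun _ => 1) e y θ) (Q G l0 l1 e y θ)))

lemma hasDerivAt_Fl (hG : ContDiff ℝ 1 G) (y θ : ℝ) :
    HasDerivAt (fun θ => Fl G l0 l1 y θ) (Flθ G l0 l1 y θ) θ := by
  unfold Fl Flθ
  have h1 := hasDerivAt_N_θ (l0 := l0) (l1 := l1) hG y θ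
  have h2 := (hasDerivAt_Q_θ (l0 := l0) (l1 := l1) hG (c := fun _ => 1) (by fun_prop) y θ).inner ℝ
    (hasDerivAt_Q_θ (l0 := l0) (l1 := l1) hG continuous_e y θ)
  have h3 := ((((hasDerivAt_id θ).pow 2).const_mul (l1 * (l0 + l1 * y))).mul h1).div_const 2
  have h4 := ((hasDerivAt_id θ).const_mul (l0 + l1 * y)).mul h2
  convert! h3.sub h4 using 1
  simp only [Nat.cast_ofNat, Nat.add_one_sub_one, pow_one, id_eq, mul_one, Pi.pow_apply]
  ring

/-- lower order term -/
noncomputable def Bk (G : ℂ → ℂ) (m l0 l1 y θ : ℝ) : ℝ :=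
  -((l0 + l1 * y) ^ 2 * θ / (1 - y)) * (m * ‖Q G l0 l1 (fun _ => 1) y θ‖ ^ 2 -
    (m + 1) * ‖Q G l0 l1 e y θ‖ ^ 2)

lemma Jy_eq (hG : ContDiff ℝ 1 G) (hE : ∀ ζ, fderiv ℝ G ζ (I * ζ) = I * m * G ζ)
    (y θ : ℝ) (hy : y ≠ 1) :
    Jy G l0 l1 y θ = Flθ G l0 l1 y θ + Bk G m l0 l1 y θ := by
  have hb := sys_beta (l0 := l0) (l1 := l1) hG hE y θ
  have ha := sys_alpha (l0 := l0) (l1 := l1) hG hE y θ
  have hy' : (1 - y) ≠ 0 := sub_ne_zero.mpr hy.symm
  unfold Jy Flθ Bk N Ny Nθ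
  simp only [Complex.inner, ← Complex.normSq_eq_norm_sq, Complex.normSq_apply]
  rw [Complex.ext_iff] at ha hb
  simp only [Complex.mul_re, Complex.mul_im, Complex.add_re, Complex.add_im, Complex.ofReal_re,
    Complex.ofReal_im, Complex.one_re, Complex.one_im, Complex.neg_re, Complex.neg_im,
    Complex.conj_re, Complex.conj_im, zero_mul, sub_zero, add_zero, mul_zero, zero_add] at ha hb ⊢
  generalize (Q G l0 l1 (fun _ => 1) y θ).re = q0r at *
  generalize (Q G l0 l1 (fun _ => 1) y θ).im = q0i at *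
  generalize (Q G l0 l1 e y θ).re = q1r at *
  generalize (Q G l0 l1 e y θ).im = q1i at *
  generalize (R G l0 l1 (fun _ => 1) (fun _ => 1) y θ).re = ar at *
  generalize (R G l0 l1 (fun _ => 1) (fun _ => 1) y θ).im = ai at *
  generalize (R G l0 l1 (fun _ => 1) e y θ).re = br at *
  generalize (R G l0 l1 (fun _ => 1) e y θ).im = bi at *
  generalize (R G l0 l1 e (fun _ => 1) y θ).re = a1r at *
  generalize (R G l0 l1 e (fun _ => 1) y θ).im = a1i at *
  generalize (R G l0 l1 e e y θ).re = b1r at *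
  generalize (R G l0 l1 e e y θ).im = b1i at *
  generalize l0 + l1 * y = L at *
  obtain ⟨ha1, ha2⟩ := ha
  obtain ⟨hb1, hb2⟩ := hb
  field_simp
  linear_combination (-(L * q0r)) * hb1 - (L * q0i) * hb2 + (L * q1r) * ha1 +
    (L * q1i) * ha2

lemma continuous_Bk (hG : ContDiff ℝ 1 G) (y : ℝ) : Continuous (Bk G m l0 l1 y) := by
  have h1 := (continuous_Q (l0 := l0) (l1 := l1) hG.continuous (c := fun _ => 1)
    (by fun_prop)).comp (by fun_prop : Continuous fun θ : ℝ => (y, θ))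
  have h2 := (continuous_Q (l0 := l0) (l1 := l1) hG.continuous continuous_e).comp
    (by fun_prop : Continuous fun θ : ℝ => (y, θ))
  have h3 : Continuous fun θ : ℝ => -((l0 + l1 * y) ^ 2 * θ / (1 - y)) := by fun_prop
  exact h3.mul (((h1.norm.pow 2).const_mul m).sub ((h2.norm.pow 2).const_mul (m + 1)))

lemma Fl_zero (y : ℝ) : Fl G l0 l1 y 0 = 0 := by simp [Fl]

lemma En_deriv_le (hG : ContDiff ℝ 1 G) (hE : ∀ ζ, fderiv ℝ G ζ (I * ζ) = I * m * G ζ)
    (y : ℝ) (hy : y < 1) :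
    (∫ θ in (0 : ℝ)..1, Jy G l0 l1 y θ) ≤ Fl G l0 l1 y 1 +
      2 * (|m| + 1) / (1 - y) * En G l0 l1 y := by
  have hJy : Continuous (Jy G l0 l1 y) := (continuous_Jy (l0 := l0) (l1 := l1) hG).uncurry_left y
  have hBk := continuous_Bk (l0 := l0) (l1 := l1) (m := m) hG y
  have hJ : Continuous (J G l0 l1 y) := (continuous_J (l0 := l0) (l1 := l1) hG).uncurry_left y
  have h1 : (∫ θ in (0 : ℝ)..1, (Jy G l0 l1 y θ - Bk G m l0 l1 y θ)) =
      Fl G l0 l1 y 1 - Fl G l0 l1 y 0 := by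
    apply intervalIntegral.integral_eq_sub_of_hasDerivAt
    · intro θ _
      have h := hasDerivAt_Fl (l0 := l0) (l1 := l1) hG y θ
      have h' := Jy_eq (l0 := l0) (l1 := l1) hG hE y θ hy.ne
      rw [show Jy G l0 l1 y θ - Bk G m l0 l1 y θ = Flθ G l0 l1 y θ by rw [h']; ring]
      exact h
    · exact (hJy.sub hBk).intervalIntegrable _ _
  rw [intervalIntegral.integral_sub (hJy.intervalIntegrable _ _) (hBk.intervalIntegrable _ _),
    Fl_zero, sub_zero] at h1
  have h2 : (∫ θ in (0 : ℝ)..1, Bk G m l0 l1 y θ) ≤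
      ∫ θ in (0 : ℝ)..1, 2 * (|m| + 1) / (1 - y) * J G l0 l1 y θ := by
    apply intervalIntegral.integral_mono_on zero_le_one (hBk.intervalIntegrable _ _)
      ((hJ.const_mul _).intervalIntegrable _ _)
    intro θ hθ
    have hy' : 0 < 1 - y := by linarith
    have hθ0 : 0 ≤ θ := hθ.1
    unfold Bk J N
    have ha : 0 ≤ ‖Q G l0 l1 (fun _ => 1) y θ‖ ^ 2 := by positivity
    have hb : 0 ≤ ‖Q G l0 l1 e y θ‖ ^ 2 := by positivity
    generalize ‖Q G l0 l1 (fun _ => 1) y θ‖ ^ 2 = a at *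
    generalize ‖Q G l0 l1 e y θ‖ ^ 2 = b at *
    have hk : 0 ≤ (l0 + l1 * y) ^ 2 * θ / (1 - y) := by positivity
    have e1 : 2 * (|m| + 1) / (1 - y) * ((l0 + l1 * y) ^ 2 * θ * (a + b) / 2) =
      ((l0 + l1 * y) ^ 2 * θ / (1 - y)) * ((|m| + 1) * (a + b)) := by
      field_simp
    rw [e1]
    have e2 : -((l0 + l1 * y) ^ 2 * θ / (1 - y)) * (m * a - (m + 1) * b) =
      ((l0 + l1 * y) ^ 2 * θ / (1 - y)) * (-(m * a) + (m + 1) * b) := by ring
    rw [e2]
    apply mul_le_mul_of_nonneg_left _ hk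
    have h3 : -m ≤ |m| := neg_le_abs m
    have h4 : m ≤ |m| := le_abs_self m
    nlinarith
  rw [intervalIntegral.integral_const_mul] at h2
  unfold En
  linarith

lemma J_nonneg (y θ : ℝ) (hθ : 0 ≤ θ) : 0 ≤ J G l0 l1 y θ := by
  unfold J N; positivity

lemma En_nonneg (y : ℝ) : 0 ≤ En G l0 l1 y := by
  unfold En
  apply intervalIntegral.integral_nonneg zero_le_one
  intro θ hθ
  exact J_nonneg y θ hθ.1

/-- radial derivative identity for `f` with `dbar f = G` -/
lemma f_radial {f : ℂ → ℂ} (hf : ContDiff ℝ 1 f)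
    (hfG : ∀ ζ, fderiv ℝ f ζ 1 + I * fderiv ℝ f ζ I = 2 * G ζ) (hG : Continuous G) (y θ : ℝ) :
    (((l0 + l1 * y) * θ : ℝ) : ℂ) * R f l0 l1 e e y θ =
      2 * (((l0 + l1 * y) * θ : ℝ) : ℂ) * Q G l0 l1 (fun _ => 1) y θ - Q f l0 l1 e y θ := by
  have h1 := R_beta (l0 := l0) (l1 := l1) hf y θ
  have h4 := period_one (l0 := l0) (l1 := l1) hf y θ
  have hi1 := R_integrable (l0 := l0) (l1 := l1) hf (c := fun _ => 1) (v := fun _ => 1)
    (by fun_prop) (by fun_prop) y θ
  have hi2 := R_integrable (l0 := l0) (l1 := l1) hf (c := fun _ => 1) (v := fun _ => I)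
    (by fun_prop) (by fun_prop) y θ
  have h2 : R f l0 l1 (fun _ => 1) (fun _ => 1) y θ + I * R f l0 l1 (fun _ => 1) (fun _ => I) y θ =
      2 * Q G l0 l1 (fun _ => 1) y θ := by
    unfold R Q
    rw [← intervalIntegral.integral_const_mul, ← intervalIntegral.integral_const_mul,
      ← intervalIntegral.integral_add hi1 (hi2.const_mul I)]
    congr 1
    funext t
    linear_combination hfG (Z l0 l1 y θ t)
  rw [h2] at h1
  generalize (((l0 + l1 * y) * θ : ℝ) : ℂ) = r at *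
  have hI : I * I = -1 := Complex.I_mul_I
  linear_combination (-r) * h1 - I * h4 + Q f l0 l1 e y θ * hI

/-- tangential derivative identity -/
lemma f_rho {f : ℂ → ℂ} (hf : ContDiff ℝ 1 f)
    (hfG : ∀ ζ, fderiv ℝ f ζ 1 + I * fderiv ℝ f ζ I = 2 * G ζ)
    (hfE : ∀ ζ, fderiv ℝ f ζ (I * ζ) = I * ((m - 1 : ℝ) : ℂ) * f ζ) (y θ : ℝ) :
    ((1 - y : ℝ) : ℂ) * R f l0 l1 e (fun _ => 1) y θ =
      2 * ((1 - y : ℝ) : ℂ) * Q G l0 l1 e y θ + m * Q f l0 l1 e y θ := by
  have hce := continuous_e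
  have h3 := R_equi (l0 := l0) (l1 := l1) hf hfE (c := e) continuous_e y θ
  have h4 := period_one (l0 := l0) (l1 := l1) hf y θ
  have hi1 := R_integrable (l0 := l0) (l1 := l1) hf (c := e) (v := fun _ => 1)
    (by fun_prop) (by fun_prop) y θ
  have hi2 := R_integrable (l0 := l0) (l1 := l1) hf (c := e) (v := fun _ => I)
    (by fun_prop) (by fun_prop) y θ
  have h2 : R f l0 l1 e (fun _ => 1) y θ + I * R f l0 l1 e (fun _ => I) y θ =
      2 * Q G l0 l1 e y θ := by
    unfold R Q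
    rw [← intervalIntegral.integral_const_mul, ← intervalIntegral.integral_const_mul,
      ← intervalIntegral.integral_add hi1 (hi2.const_mul I)]
    congr 1
    funext t
    linear_combination (e t) * hfG (Z l0 l1 y θ t)
  generalize (((l0 + l1 * y) * θ : ℝ) : ℂ) = r at *
  push_cast at h3 ⊢
  have hI : I * I = -1 := Complex.I_mul_I
  linear_combination (1 - (y : ℂ)) * h2 - I * h3 + I * h4 + (-(m * Q f l0 l1 e y θ)) * hI

/-- bound of the circle integral of `f` by the energy -/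
lemma f_bound {f : ℂ → ℂ} (hf : ContDiff ℝ 1 f) (hG : ContDiff ℝ 1 G)
    (hfG : ∀ ζ, fderiv ℝ f ζ 1 + I * fderiv ℝ f ζ I = 2 * G ζ) (y θ lam : ℝ)
    (hL : 0 < l0 + l1 * y) (hθ0 : 0 ≤ θ) (hθ1 : θ ≤ 1) (hlam : 0 < lam) :
    (l0 + l1 * y) * θ * ‖Q f l0 l1 e y θ‖ ≤ lam * (l0 + l1 * y) ^ 2 / 2 + 2 * En G l0 l1 y / lam := by
  set L := l0 + l1 * y with hLdef
  have hd : ∀ x : ℝ, HasDerivAt (fun x : ℝ => ((L * x : ℝ) : ℂ) * Q f l0 l1 e y x)
      (2 * (L : ℂ) ^ 2 * x * Q G l0 l1 (fun _ => 1) y x) x := by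
    intro x
    have h0 : HasDerivAt (fun x : ℝ => ((L * x : ℝ) : ℂ)) (L : ℂ) x := by
      have := (Complex.ofRealCLM.hasDerivAt (x := x)).const_mul (L : ℂ)
      simp only [Complex.ofRealCLM_apply, Complex.ofReal_one, mul_one] at this
      convert! this using 1
      funext x
      push_cast; rfl
    have h1 := h0.mul (hasDerivAt_Q_θ (l0 := l0) (l1 := l1) hf continuous_e y x)
    convert! h1 using 1
    have h2 := f_radial (l0 := l0) (l1 := l1) hf hfG hG.continuous y x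
    rw [← hLdef] at h2
    push_cast at h2 ⊢
    have hL' : (l0 : ℂ) + l1 * y = L := by rw [hLdef]; push_cast; ring
    rw [hL']
    linear_combination (-(L : ℂ)) * h2
  have hQc : Continuous fun x : ℝ => Q G l0 l1 (fun _ => 1) y x :=
    (continuous_Q (l0 := l0) (l1 := l1) hG.continuous (c := fun _ => 1)
      (by fun_prop)).comp (by fun_prop : Continuous fun θ : ℝ => (y, θ))
  have hcont : Continuous fun x : ℝ => 2 * (L : ℂ) ^ 2 * x * Q G l0 l1 (fun _ => 1) y x := by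
    fun_prop
  have h3 := intervalIntegral.integral_eq_sub_of_hasDerivAt (a := 0) (b := θ)
    (fun x _ => hd x) (hcont.intervalIntegrable _ _)
  simp only [mul_zero, Complex.ofReal_zero, zero_mul, sub_zero] at h3
  have h4 : L * θ * ‖Q f l0 l1 e y θ‖ = ‖((L * θ : ℝ) : ℂ) * Q f l0 l1 e y θ‖ := by
    rw [norm_mul, Complex.norm_real, Real.norm_eq_abs, abs_of_nonneg (by positivity)]
  rw [h4, ← h3]
  have hJ : Continuous (J G l0 l1 y) := (continuous_J (l0 := l0) (l1 := l1) hG).uncurry_left y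
  have hg : Continuous fun x : ℝ => lam * L ^ 2 * x + 2 / lam * J G l0 l1 y x := by fun_prop
  have hgnn : ∀ x : ℝ, 0 ≤ x → 0 ≤ lam * L ^ 2 * x + 2 / lam * J G l0 l1 y x := by
    intro x hx
    have := J_nonneg (G := G) (l0 := l0) (l1 := l1) y x hx
    positivity
  calc ‖∫ x in (0 : ℝ)..θ, 2 * (L : ℂ) ^ 2 * x * Q G l0 l1 (fun _ => 1) y x‖
      ≤ ∫ x in (0 : ℝ)..θ, (lam * L ^ 2 * x + 2 / lam * J G l0 l1 y x) := by
        apply intervalIntegral.norm_integral_le_of_norm_le hθ0 _ (hg.intervalIntegrable _ _)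
        refine Eventually.of_forall fun x hx => ?_
        have hx0 : 0 < x := hx.1
        rw [norm_mul, norm_mul, norm_mul, norm_pow, Complex.norm_real, Complex.norm_real,
          Complex.norm_ofNat, Real.norm_eq_abs, Real.norm_eq_abs, abs_of_pos hL, abs_of_pos hx0]
        unfold J N
        rw [← hLdef]
        have hb : 0 ≤ ‖Q G l0 l1 e y x‖ ^ 2 := by positivity
        have ha : 0 ≤ ‖Q G l0 l1 (fun _ => 1) y x‖ := norm_nonneg _
        generalize ‖Q G l0 l1 e y x‖ ^ 2 = b at *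
        generalize ‖Q G l0 l1 (fun _ => 1) y x‖ = a at *
        have e1 : lam * L ^ 2 * x + 2 / lam * (L ^ 2 * x * (a ^ 2 + b) / 2) =
          L ^ 2 * x * (lam + (a ^ 2 + b) / lam) := by field_simp
        rw [e1, show 2 * L ^ 2 * x * a = L ^ 2 * x * (2 * a) by ring]
        apply mul_le_mul_of_nonneg_left _ (by positivity)
        have e2 : lam + (a ^ 2 + b) / lam - 2 * a = ((lam - a) ^ 2 + b) / lam := by
          field_simp; ring
        have e3 : 0 ≤ ((lam - a) ^ 2 + b) / lam := by positivity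
        linarith
    _ ≤ ∫ x in (0 : ℝ)..1, (lam * L ^ 2 * x + 2 / lam * J G l0 l1 y x) := by
        apply intervalIntegral.integral_mono_interval le_rfl hθ0 hθ1
        · filter_upwards [ae_restrict_mem measurableSet_Ioc] with x hx
          exact hgnn x hx.1.le
        · exact hg.intervalIntegrable _ _
    _ = lam * L ^ 2 / 2 + 2 * En G l0 l1 y / lam := by
        rw [intervalIntegral.integral_add ((by fun_prop : Continuous fun x : ℝ =>
          lam * L ^ 2 * x).intervalIntegrable _ _) ((hJ.const_mul _).intervalIntegrable _ _),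
          intervalIntegral.integral_const_mul, intervalIntegral.integral_const_mul, integral_id]
        unfold En
        ring

end


/-- Gronwall type inequality -/
lemma gronwall_aux (E E' H H' : ℝ → ℝ) (K a b : ℝ) (hab : a ≤ b) (hK : 0 ≤ K)
    (hE : ∀ y ∈ Icc a b, HasDerivAt E (E' y) y) (hH : ∀ y ∈ Icc a b, HasDerivAt H (H' y) y)
    (hH0 : ∀ y ∈ Ioo a b, 0 ≤ H' y)
    (hle : ∀ y ∈ Ioo a b, E' y ≤ K * E y + H' y) :
    E b ≤ Real.exp (K * (b - a)) * (E a + H b - H a) := by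
  have hd : ∀ y ∈ Icc a b, HasDerivAt (fun y => E y * Real.exp (-(K * (y - a))) - H y)
      (E' y * Real.exp (-(K * (y - a))) + E y * (Real.exp (-(K * (y - a))) * -K) - H' y) y := by
    intro y hy
    have h1 : HasDerivAt (fun y : ℝ => -(K * (y - a))) (-K) y := by
      have := (((hasDerivAt_id y).sub_const a).const_mul K).fun_neg
      rw [mul_one] at this
      exact this
    exact ((hE y hy).mul h1.exp).sub (hH y hy)
  have hanti : AntitoneOn (fun y => E y * Real.exp (-(K * (y - a))) - H y) (Icc a b) := by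
    apply antitoneOn_of_deriv_nonpos (convex_Icc a b)
    · intro y hy
      exact (hd y hy).continuousAt.continuousWithinAt
    · intro y hy
      rw [interior_Icc] at hy
      exact (hd y (Ioo_subset_Icc_self hy)).differentiableAt.differentiableWithinAt
    · intro y hy
      rw [interior_Icc] at hy
      rw [(hd y (Ioo_subset_Icc_self hy)).deriv]
      have h1 := hle y hy
      have h2 := hH0 y hy
      have h3 : 0 < Real.exp (-(K * (y - a))) := Real.exp_pos _
      have h4 : Real.exp (-(K * (y - a))) ≤ 1 := by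
        rw [Real.exp_le_one_iff]
        have : 0 ≤ K * (y - a) := mul_nonneg hK (by linarith [hy.1])
        linarith
      nlinarith
  have h := hanti (left_mem_Icc.mpr hab) (right_mem_Icc.mpr hab) hab
  simp only [sub_self, mul_zero, neg_zero, Real.exp_zero, mul_one] at h
  have h5 : E b * Real.exp (-(K * (b - a))) ≤ E a + H b - H a := by linarith
  calc E b = Real.exp (K * (b - a)) * (E b * Real.exp (-(K * (b - a)))) := by
        rw [mul_comm (E b), ← mul_assoc, ← Real.exp_add]; simp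
    _ ≤ _ := by
        apply mul_le_mul_of_nonneg_left h5 (Real.exp_pos _).le

section

variable {G : ℂ → ℂ} {m : ℝ}

lemma Fl_cone (α y : ℝ) : Fl G 0 α y 1 =
    y / 2 * (‖α * Q G 0 α (fun _ => 1) y 1 - Q G 0 α e y 1‖ ^ 2 -
      (1 - α ^ 2) * ‖Q G 0 α e y 1‖ ^ 2) := by
  unfold Fl N
  simp only [Complex.inner, ← Complex.normSq_eq_norm_sq, Complex.normSq_apply]
  simp only [Complex.mul_re, Complex.mul_im, Complex.sub_re, Complex.sub_im, Complex.ofReal_re,
    Complex.ofReal_im, Complex.conj_re, Complex.conj_im, zero_mul, sub_zero, add_zero]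
  ring

lemma Fl_cone_le (α y : ℝ) (hα : 0 < α) (hα1 : α ≤ 1) (hy : 0 ≤ y) : Fl G 0 α y 1 ≤
    y / 2 * ‖α * Q G 0 α (fun _ => 1) y 1 - Q G 0 α e y 1‖ ^ 2 := by
  rw [Fl_cone]
  apply mul_le_mul_of_nonneg_left _ (by positivity)
  have : 0 ≤ (1 - α ^ 2) * ‖Q G 0 α e y 1‖ ^ 2 := by
    apply mul_nonneg _ (by positivity)
    nlinarith
  linarith

lemma Fl_back (c y : ℝ) (hy : y ≤ c) : Fl G c (-1) y 1 ≤ 0 := by
  have h : Fl G c (-1) y 1 = -((c - y) / 2 *
      ‖Q G c (-1) (fun _ => 1) y 1 + Q G c (-1) e y 1‖ ^ 2) := by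
    unfold Fl N
    simp only [Complex.inner, ← Complex.normSq_eq_norm_sq, Complex.normSq_apply]
    simp only [Complex.mul_re, Complex.add_re, Complex.add_im, Complex.conj_re, Complex.conj_im]
    ring
  rw [h, neg_nonpos]
  have : 0 ≤ c - y := by linarith
  positivity

lemma En_congr (l0 l1 l0' l1' y : ℝ) (h : l0 + l1 * y = l0' + l1' * y) :
    En G l0 l1 y = En G l0' l1' y := by
  have h' : (l0 : ℂ) + l1 * y = l0' + l1' * y := by exact_mod_cast h
  unfold En J N Q Z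
  rw [h, h']

lemma Q_congr (l0 l1 l0' l1' y θ θ' : ℝ) (c : ℝ → ℂ) (h : (l0 + l1 * y) * θ = (l0' + l1' * y) * θ') :
    Q G l0 l1 c y θ = Q G l0' l1' c y θ' := by
  have h' : ((l0 : ℂ) + l1 * y) * θ = (l0' + l1' * y) * θ' := by exact_mod_cast h
  unfold Q Z
  rw [h']

/-- energy bound on the cone -/
lemma En_cone (hG : ContDiff ℝ 1 G) (hE : ∀ ζ, fderiv ℝ G ζ (I * ζ) = I * m * G ζ)
    (α yc : ℝ) (hα : 0 < α) (hα1 : α ≤ 1) (hyc1 : yc < 1)
    (H H' : ℝ → ℝ) (hH : ∀ y ∈ Icc 0 yc, HasDerivAt H (H' y) y)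
    (hD : ∀ y ∈ Ioo 0 yc, y / 2 * ‖α * Q G 0 α (fun _ => 1) y 1 - Q G 0 α e y 1‖ ^ 2 ≤ H' y)
    (b : ℝ) (hb : b ∈ Icc 0 yc) :
    En G 0 α b ≤ Real.exp (2 * (|m| + 1) / (1 - yc)) * (H b - H 0) := by
  have h1yc : 0 < 1 - yc := by linarith
  have hH0 : ∀ y ∈ Ioo 0 yc, 0 ≤ H' y := by
    intro y hy
    have h1 := hD y hy
    have : 0 ≤ y / 2 * ‖α * Q G 0 α (fun _ => 1) y 1 - Q G 0 α e y 1‖ ^ 2 := by
      have := hy.1
      positivity
    linarith
  have hsub : Icc 0 b ⊆ Icc 0 yc := Icc_subset_Icc_right hb.2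
  have hsub' : Ioo 0 b ⊆ Ioo 0 yc := Ioo_subset_Ioo_right hb.2
  have h := gronwall_aux (fun y => En G 0 α y) (fun y => ∫ θ in (0 : ℝ)..1, Jy G 0 α y θ) H H'
    (2 * (|m| + 1) / (1 - yc)) 0 b hb.1 (by positivity)
    (fun y _ => hasDerivAt_En hG y) (fun y hy => hH y (hsub hy)) (fun y hy => hH0 y (hsub' hy)) ?_
  · have h0 : En G 0 α 0 = 0 := by
      unfold En J
      simp
    simp only [h0, zero_add, sub_zero] at h
    refine h.trans ?_
    have h2 : 0 ≤ H b - H 0 := by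
      have h3 : MonotoneOn H (Icc 0 b) := by
        apply monotoneOn_of_deriv_nonneg (convex_Icc 0 b)
        · intro y hy
          exact (hH y (hsub hy)).continuousAt.continuousWithinAt
        · intro y hy
          rw [interior_Icc] at hy
          exact (hH y (hsub (Ioo_subset_Icc_self hy))).differentiableAt.differentiableWithinAt
        · intro y hy
          rw [interior_Icc] at hy
          rw [(hH y (hsub (Ioo_subset_Icc_self hy))).deriv]
          exact hH0 y (hsub' hy)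
      have := h3 (left_mem_Icc.mpr hb.1) (right_mem_Icc.mpr hb.1) hb.1
      linarith
    apply mul_le_mul_of_nonneg_right _ h2
    apply Real.exp_le_exp.mpr
    have h4 : 0 ≤ 2 * (|m| + 1) / (1 - yc) := by positivity
    have h5 : b ≤ 1 := by linarith [hb.2]
    nlinarith
  · intro y hy
    have hy' := hsub' hy
    have h1 := En_deriv_le (l0 := 0) (l1 := α) hG hE y (by linarith [hy'.2])
    have h2 := Fl_cone_le (G := G) α y hα hα1 hy.1.le
    have h3 := hD y hy'
    have h4 : 2 * (|m| + 1) / (1 - y) * En G 0 α y ≤ 2 * (|m| + 1) / (1 - yc) * En G 0 α y := by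
      apply mul_le_mul_of_nonneg_right _ (En_nonneg y)
      apply div_le_div_of_nonneg_left (by positivity) h1yc
      linarith [hy'.2]
    show (∫ θ in (0 : ℝ)..1, Jy G 0 α y θ) ≤ 2 * (|m| + 1) / (1 - yc) * En G 0 α y + H' y
    linarith

/-- energy bound on the backward part -/
lemma En_back (hG : ContDiff ℝ 1 G) (hE : ∀ ζ, fderiv ℝ G ζ (I * ζ) = I * m * G ζ)
    (c a b : ℝ) (hc : c < 1) (ha : 0 ≤ a) (hab : a ≤ b) (hbc : b ≤ c) :
    En G c (-1) b ≤ Real.exp (2 * (|m| + 1) / (1 - c)) * En G c (-1) a := by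
  have h1c : 0 < 1 - c := by linarith
  have h := gronwall_aux (fun y => En G c (-1) y) (fun y => ∫ θ in (0 : ℝ)..1, Jy G c (-1) y θ)
    (fun _ => 0) (fun _ => 0)
    (2 * (|m| + 1) / (1 - c)) a b hab (by positivity)
    (fun y _ => hasDerivAt_En hG y) (fun y hy => hasDerivAt_const y 0) (fun y hy => le_rfl) ?_
  · simp only [add_zero, sub_zero] at h
    refine h.trans ?_
    apply mul_le_mul_of_nonneg_right _ (En_nonneg a)
    apply Real.exp_le_exp.mpr
    have h4 : 0 ≤ 2 * (|m| + 1) / (1 - c) := by positivity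
    have h5 : b - a ≤ 1 := by linarith
    nlinarith
  · intro y hy
    have hyc : y < c := by linarith [hy.2]
    have h1 := En_deriv_le (l0 := c) (l1 := -1) hG hE y (by linarith)
    have h2 := Fl_back (G := G) c y hyc.le
    have h4 : 2 * (|m| + 1) / (1 - y) * En G c (-1) y ≤ 2 * (|m| + 1) / (1 - c) * En G c (-1) y := by
      apply mul_le_mul_of_nonneg_right _ (En_nonneg y)
      apply div_le_div_of_nonneg_left (by positivity) h1c
      linarith
    show (∫ θ in (0 : ℝ)..1, Jy G c (-1) y θ) ≤ 2 * (|m| + 1) / (1 - c) * En G c (-1) y + 0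
    linarith

/-- derivative of the circle integral along the cone -/
lemma two_D {f : ℂ → ℂ} (hf : ContDiff ℝ 1 f) (hG : ContDiff ℝ 1 G)
    (hfG : ∀ ζ, fderiv ℝ f ζ 1 + I * fderiv ℝ f ζ I = 2 * G ζ)
    (hfE : ∀ ζ, fderiv ℝ f ζ (I * ζ) = I * ((m - 1 : ℝ) : ℂ) * f ζ)
    (α y : ℝ) (hα : 0 < α) (hy0 : 0 < y) (hy1 : y < 1) (τ' : ℂ)
    (hτ : HasDerivAt (fun y => Q f 0 α e y 1) τ' y) :
    2 * (α * Q G 0 α (fun _ => 1) y 1 - Q G 0 α e y 1) =
      τ' + Q f 0 α e y 1 / y + m * Q f 0 α e y 1 / (1 - y) := by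
  have h1 := hτ.unique (hasDerivAt_Q_y (l0 := 0) (l1 := α) hf continuous_e y 1)
  have h2 := f_radial (l0 := 0) (l1 := α) hf hfG hG.continuous y 1
  have h3 := f_rho (l0 := 0) (l1 := α) hf hfG hfE y 1
  rw [h1]
  have hα' : (α : ℂ) ≠ 0 := by exact_mod_cast hα.ne'
  have hy' : (y : ℂ) ≠ 0 := by exact_mod_cast hy0.ne'
  have hy1' : (1 : ℂ) - y ≠ 0 := by
    rw [sub_ne_zero]
    exact_mod_cast hy1.ne'
  push_cast at h2 h3 ⊢
  simp only [zero_add, mul_one] at h2 h3 ⊢
  field_simp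
  linear_combination (-(1 - (y : ℂ))) * h2 + (y : ℂ) * h3

end


/-- the equivariant functions `ζ ^ k * Y (‖ζ‖ ^ 2)` -/
noncomputable def P (k : ℤ) (Y : ℝ → ℂ) (ζ : ℂ) : ℂ := ζ ^ k * Y (‖ζ‖ ^ 2)

section

variable {k : ℤ} {Y Y' : ℝ → ℂ} {v0 : ℝ}

lemma P_eventually_zero (hv0 : 0 < v0) (hY0 : ∀ v ≤ v0, Y v = 0) : P k Y =ᶠ[𝓝 0] fun _ => 0 := by
  have h : ∀ᶠ z : ℂ in 𝓝 0, ‖z‖ ^ 2 < v0 := by
    have hc : Tendsto (fun z : ℂ => ‖z‖ ^ 2) (𝓝 0) (𝓝 (‖(0 : ℂ)‖ ^ 2)) :=
      (by fun_prop : Continuous fun z : ℂ => ‖z‖ ^ 2).tendsto 0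
    rw [norm_zero] at hc
    exact hc.eventually (gt_mem_nhds (by simpa using hv0))
  filter_upwards [h] with z hz
  simp [P, hY0 _ hz.le]

lemma P_contDiff {n : ℕ} (hv0 : 0 < v0) (hY0 : ∀ v ≤ v0, Y v = 0) (hY : ContDiff ℝ n Y) :
    ContDiff ℝ n (P k Y) := by
  rw [contDiff_iff_contDiffAt]
  intro z
  by_cases hz : z = 0
  · subst hz
    exact (contDiffAt_const (c := (0 : ℂ))).congr_of_eventuallyEq (P_eventually_zero hv0 hY0)
  · unfold P
    apply ContDiffAt.mul
    · have h1 : AnalyticAt ℂ (fun z : ℂ => z ^ k) z := by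
        exact AnalyticAt.zpow analyticAt_id hz
      exact (h1.restrictScalars (𝕜 := ℝ)).contDiffAt
    · exact (hY.comp (contDiff_norm_sq ℝ)).contDiffAt

lemma e_mul_norm (ψ : ℝ) (ζ : ℂ) : ‖e ψ * ζ‖ = ‖ζ‖ := by rw [norm_mul, norm_e, one_mul]

lemma P_rot (ψ : ℝ) (ζ : ℂ) : P k Y (e ψ * ζ) = e ψ ^ k * P k Y ζ := by
  unfold P
  rw [e_mul_norm, mul_zpow]
  ring

lemma hasDerivAt_e_zpow (k : ℤ) (ψ : ℝ) : HasDerivAt (fun ψ => e ψ ^ k) (k * e ψ ^ k * I) ψ := by
  have hne : e ψ ≠ 0 := by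
    intro h
    have := norm_e ψ
    rw [h, norm_zero] at this
    exact zero_ne_one this
  have h1 := (hasDerivAt_zpow k (e ψ) (Or.inl hne))
  have h2 := h1.comp_of_eq ψ (hasDerivAt_e ψ) rfl
  convert! h2 using 1
  rw [zpow_sub_one₀ hne]
  field_simp

lemma rot_deriv {f : ℂ → ℂ} (hf : Differentiable ℝ f) (k : ℤ)
    (hrot : ∀ (ψ : ℝ) (ζ : ℂ), f (e ψ * ζ) = e ψ ^ k * f ζ) (ζ : ℂ) :
    fderiv ℝ f ζ (I * ζ) = I * ((k : ℝ) : ℂ) * f ζ := by
  have h1 : HasDerivAt (fun ψ : ℝ => e ψ * ζ) (I * ζ) 0 := by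
    have := (hasDerivAt_e 0).mul_const ζ
    rw [e_zero, mul_one] at this
    exact this
  have h2 : HasDerivAt (fun ψ : ℝ => f (e ψ * ζ)) (fderiv ℝ f ζ (I * ζ)) 0 := by
    have h3 : HasFDerivAt f (fderiv ℝ f ζ) (e 0 * ζ) := by
      rw [e_zero, one_mul]
      exact (hf ζ).hasFDerivAt
    exact h3.comp_hasDerivAt 0 h1
  have h4 : HasDerivAt (fun ψ : ℝ => f (e ψ * ζ)) (k * e 0 ^ k * I * f ζ) 0 := by
    have h5 := (hasDerivAt_e_zpow k 0).mul_const (f ζ)
    convert! h5 using 1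
    funext ψ
    exact hrot ψ ζ
  have h6 := h2.unique h4
  rw [h6, e_zero, one_zpow]
  push_cast
  ring

lemma P_dbar (hv0 : 0 < v0) (hY0 : ∀ v ≤ v0, Y v = 0) (hY : ∀ v, HasDerivAt Y (Y' v) v) (ζ : ℂ) :
    fderiv ℝ (P k Y) ζ 1 + I * fderiv ℝ (P k Y) ζ I = 2 * P (k + 1) Y' ζ := by
  by_cases hz : ζ = 0
  · subst hz
    have h1 : fderiv ℝ (P k Y) 0 = 0 := by
      rw [(P_eventually_zero hv0 hY0).fderiv_eq]
      simp
    have h2 : Y' 0 = 0 := by
      have h3 : Y =ᶠ[𝓝 0] fun _ => 0 := by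
        filter_upwards [gt_mem_nhds hv0] with v hv
        exact hY0 v hv.le
      have h4 := (hY 0).congr_of_eventuallyEq h3.symm
      exact h4.unique (hasDerivAt_const 0 0)
    rw [h1]
    simp [P, h2]
  · have h1 : HasFDerivAt (fun z : ℂ => z ^ k) ((k * ζ ^ (k - 1)) • (1 : ℂ →L[ℝ] ℂ)) ζ :=
      (hasDerivAt_zpow k ζ (Or.inl hz)).complexToReal_fderiv
    have h2 : HasFDerivAt (fun z : ℂ => ‖z‖ ^ 2) ((2 : ℝ) • (innerSL ℝ ζ : ℂ →L[ℝ] ℝ)) ζ := by
      have := (hasStrictFDerivAt_norm_sq ζ).hasFDerivAt (𝕜 := ℝ)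
      convert! this using 1
      ext v
      simp
      ring
    have h3 : HasFDerivAt (fun z : ℂ => Y (‖z‖ ^ 2))
        (((2 : ℝ) • (innerSL ℝ ζ : ℂ →L[ℝ] ℝ)).smulRight (Y' (‖ζ‖ ^ 2))) ζ := by
      have h4 := (hY (‖ζ‖ ^ 2)).hasFDerivAt.comp ζ h2
      convert! h4 using 1
    have h5 := h1.mul h3
    have h6 : fderiv ℝ (P k Y) ζ = _ := h5.fderiv
    rw [h6]
    simp only [_root_.add_apply, _root_.smul_apply,
      ContinuousLinearMap.smulRight_apply, one_apply_eq_self, smul_eq_mul,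
      innerSL_apply_apply, Complex.inner, Complex.real_smul]
    unfold P
    rw [zpow_add_one₀ hz, zpow_sub_one₀ hz]
    have e1 : (1 * (starRingEnd ℂ) ζ).re = ζ.re := by simp
    have e2 : (I * (starRingEnd ℂ) ζ).re = ζ.im := by simp
    rw [e1, e2]
    push_cast
    have hI : I * I = -1 := Complex.I_mul_I
    have e3 : (ζ.re : ℂ) + ζ.im * I = ζ := Complex.re_add_im ζ
    linear_combination (2 * ζ ^ k * Y' (‖ζ‖ ^ 2)) * e3 + (Y (‖ζ‖ ^ 2) * k * ζ ^ k * ζ⁻¹) * hI

end


noncomputable def S (c β : ℝ) : ℝ := (1 + c * Real.cos β) ^ 2 - c ^ 2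

/-- unimodular reparametrisation of the circle -/
noncomputable def xi (c β : ℝ) : ℂ :=
  ((Real.cos β - c * Real.sin β ^ 2 : ℝ) : ℂ) + ((Real.sin β * Real.sqrt (S c β) : ℝ) : ℂ) * I

/-- its speed -/
noncomputable def tp (c β : ℝ) : ℝ := (1 + 2 * c * Real.cos β) / Real.sqrt (S c β)

section

variable {c : ℝ}

lemma c_cos_bound (hc : |c| < 1 / 2) (β : ℝ) : |c * Real.cos β| < 1 / 2 := by
  rw [abs_mul]
  have h1 := Real.abs_cos_le_one β
  have h2 : |c| * |Real.cos β| ≤ |c| * 1 := mul_le_mul_of_nonneg_left h1 (abs_nonneg c)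
  linarith

lemma S_pos (hc : |c| < 1 / 2) (β : ℝ) : 0 < S c β := by
  unfold S
  have h1 := abs_lt.mp (c_cos_bound hc β)
  have h2 := abs_lt.mp hc
  nlinarith [h1.1, h2.1, h2.2]

lemma xi_re (c β : ℝ) : (xi c β).re = Real.cos β - c * Real.sin β ^ 2 := by
  unfold xi
  rw [Complex.add_re, Complex.ofReal_re, Complex.re_ofReal_mul]
  simp

lemma xi_im (c β : ℝ) : (xi c β).im = Real.sin β * Real.sqrt (S c β) := by
  unfold xi
  rw [Complex.add_im, Complex.ofReal_im, Complex.im_ofReal_mul]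
  simp

lemma sqrtS_sq (hc : |c| < 1 / 2) (β : ℝ) : √(S c β) * √(S c β) =
    (1 + c * Real.cos β) ^ 2 - c ^ 2 := Real.mul_self_sqrt (S_pos hc β).le

lemma norm_xi (hc : |c| < 1 / 2) (β : ℝ) : ‖xi c β‖ = 1 := by
  have h : ‖xi c β‖ ^ 2 = 1 := by
    rw [← Complex.normSq_eq_norm_sq, Complex.normSq_apply, xi_re, xi_im]
    have h1 := sqrtS_sq hc β
    have h2 := Real.sin_sq_add_cos_sq β
    linear_combination (Real.sin β ^ 2) * h1 + (1 + c ^ 2 * Real.sin β ^ 2) * h2
  nlinarith [norm_nonneg (xi c β)]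

lemma tp_pos (hc : |c| < 1 / 2) (β : ℝ) : 0 < tp c β := by
  unfold tp
  have h1 := abs_lt.mp (c_cos_bound hc β)
  have h2 := Real.sqrt_pos.mpr (S_pos hc β)
  apply div_pos _ h2
  nlinarith [h1.1]

lemma continuous_sqrtS (c : ℝ) : Continuous fun β => √(S c β) := by
  unfold S
  fun_prop

lemma continuous_xi (c : ℝ) : Continuous (xi c) := by
  have := continuous_sqrtS c
  unfold xi
  fun_prop

lemma continuous_tp (hc : |c| < 1 / 2) : Continuous (tp c) := by
  unfold tp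
  apply Continuous.div (by fun_prop) (continuous_sqrtS c)
  intro β
  exact (Real.sqrt_pos.mpr (S_pos hc β)).ne'

lemma hasDerivAt_xi (hc : |c| < 1 / 2) (β : ℝ) :
    HasDerivAt (xi c) (I * tp c β * xi c β) β := by
  have hS := S_pos hc β
  have hS' : √(S c β) ≠ 0 := (Real.sqrt_pos.mpr hS).ne'
  have h1 : HasDerivAt (fun β => Real.cos β - c * Real.sin β ^ 2)
      (-Real.sin β - c * (2 * Real.sin β * Real.cos β)) β := by
    have := (Real.hasDerivAt_cos β).sub (((Real.hasDerivAt_sin β).pow 2).const_mul c)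
    convert! this using 1
    simp
  have h2 : HasDerivAt (fun β => S c β) (2 * (1 + c * Real.cos β) * (c * -Real.sin β)) β := by
    unfold S
    have := ((((Real.hasDerivAt_cos β).const_mul c).const_add 1).pow 2).sub_const (c ^ 2)
    convert! this using 1
    simp
  have h3 := (Real.hasDerivAt_sin β).mul (h2.sqrt hS.ne')
  have h4 := h1.ofReal_comp.add (h3.ofReal_comp.mul_const I)
  convert! h4 using 1
  apply Complex.ext
  · rw [Complex.mul_re, Complex.add_re, xi_re, xi_im, Complex.ofReal_re, Complex.re_ofReal_mul]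
    simp only [Complex.mul_re, Complex.mul_im, Complex.I_re, Complex.I_im, Complex.ofReal_re,
      Complex.ofReal_im]
    unfold tp
    field_simp
    ring
  · rw [Complex.mul_im, Complex.add_im, xi_re, xi_im, Complex.ofReal_im, Complex.im_ofReal_mul]
    simp only [Complex.mul_re, Complex.mul_im, Complex.I_re, Complex.I_im, Complex.ofReal_re,
      Complex.ofReal_im]
    unfold tp
    have h5 := sqrtS_sq hc β
    have h6 := Real.sin_sq_add_cos_sq β
    field_simp
    linear_combination (-Real.cos β) * h5 - c ^ 2 * Real.cos β * h6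

lemma xi_zero (c : ℝ) : xi c 0 = 1 := by
  unfold xi
  simp

lemma xi_pi (c : ℝ) : xi c π = -1 := by
  unfold xi
  simp

/-- the angle as a function of the parameter -/
noncomputable def T (c β : ℝ) : ℝ := ∫ s in (0 : ℝ)..β, tp c s

lemma hasDerivAt_T (hc : |c| < 1 / 2) (β : ℝ) : HasDerivAt (T c) (tp c β) β := by
  have h := continuous_tp hc
  exact intervalIntegral.integral_hasDerivAt_right (h.intervalIntegrable _ _)
    h.stronglyMeasurable.stronglyMeasurableAtFilter h.continuousAt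

lemma e_ne_zero (t : ℝ) : e t ≠ 0 := by
  intro h
  have := norm_e t
  rw [h, norm_zero] at this
  exact zero_ne_one this

lemma e_neg (t : ℝ) : e (-t) * e t = 1 := by
  unfold e
  rw [← Complex.exp_add]
  push_cast
  simp

lemma e_T (hc : |c| < 1 / 2) (β : ℝ) : e (T c β) = xi c β := by
  have hd : ∀ β, HasDerivAt (fun β => e (-T c β) * xi c β) 0 β := by
    intro β
    have h1 : HasDerivAt (fun β => e (-T c β)) ((-tp c β : ℝ) • (I * e (-T c β))) β := by
      have := (hasDerivAt_e (-T c β)).scomp β (hasDerivAt_T hc β).fun_neg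
      exact this
    have h2 := h1.mul (hasDerivAt_xi hc β)
    convert! h2 using 1
    rw [Complex.real_smul]
    push_cast
    ring
  have h3 : e (-T c β) * xi c β = e (-T c 0) * xi c 0 := by
    apply is_const_of_deriv_eq_zero (f := fun β => e (-T c β) * xi c β)
    · intro x
      exact (hd x).differentiableAt
    · intro x
      exact (hd x).deriv
  have h4 : T c 0 = 0 := by unfold T; simp
  rw [h4, neg_zero, e_zero, xi_zero, one_mul] at h3
  have h5 := e_neg (T c β)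
  calc e (T c β) = e (T c β) * (e (-T c β) * xi c β) := by rw [h3, mul_one]
    _ = (e (-T c β) * e (T c β)) * xi c β := by ring
    _ = xi c β := by rw [h5, one_mul]

lemma e_re (t : ℝ) : (e t).re = Real.cos t := by
  unfold e
  exact Complex.exp_ofReal_mul_I_re t

lemma e_im (t : ℝ) : (e t).im = Real.sin t := by
  unfold e
  exact Complex.exp_ofReal_mul_I_im t

lemma T_pi (hc : |c| < 1 / 2) : T c π = π := by
  have hcont : Continuous (T c) := by
    rw [continuous_iff_continuousAt]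
    intro x
    exact (hasDerivAt_T hc x).continuousAt
  have h0 : T c 0 = 0 := by unfold T; simp
  have hsin : ∀ β ∈ Ioo 0 π, 0 < Real.sin (T c β) := by
    intro β hβ
    rw [← e_im, e_T hc, xi_im]
    exact mul_pos (Real.sin_pos_of_pos_of_lt_pi hβ.1 hβ.2) (Real.sqrt_pos.mpr (S_pos hc β))
  have hlt : ∀ β ∈ Ioo 0 π, T c β < π := by
    intro β hβ
    by_contra hcon
    push Not at hcon
    obtain ⟨β1, hβ1, hβ1'⟩ := intermediate_value_Icc hβ.1.le hcont.continuousOn
      (show π ∈ Icc (T c 0) (T c β) from ⟨by rw [h0]; exact Real.pi_pos.le, hcon⟩)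
    have hne : β1 ≠ 0 := by
      rintro rfl
      rw [h0] at hβ1'
      exact Real.pi_pos.ne hβ1'
    have h1 := hsin β1 ⟨lt_of_le_of_ne hβ1.1 hne.symm, lt_of_le_of_lt hβ1.2 hβ.2⟩
    rw [hβ1', Real.sin_pi] at h1
    exact lt_irrefl _ h1
  have hle : T c π ≤ π := by
    have h2 : Tendsto (T c) (𝓝[<] π) (𝓝 (T c π)) := hcont.continuousAt.continuousWithinAt
    apply le_of_tendsto h2
    filter_upwards [Ioo_mem_nhdsLT Real.pi_pos] with β hβ
    exact (hlt β hβ).le
  have hge : 0 ≤ T c π := by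
    unfold T
    exact intervalIntegral.integral_nonneg Real.pi_pos.le fun s _ => (tp_pos hc s).le
  have hcos : Real.cos (T c π) = Real.cos π := by
    rw [← e_re, e_T hc, xi_pi, Real.cos_pi]
    simp
  exact Real.injOn_cos ⟨hge, hle⟩ ⟨Real.pi_pos.le, le_rfl⟩ hcos

lemma T_neg_pi (hc : |c| < 1 / 2) : T c (-π) = -π := by
  have h1 : T c (-π) = -T c π := by
    unfold T
    have h2 := intervalIntegral.integral_comp_neg (f := tp c) (a := 0) (b := π)
    have h3 : ∀ x, tp c (-x) = tp c x := by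
      intro x
      unfold tp S
      rw [Real.cos_neg]
    simp only [h3, neg_zero] at h2
    rw [h2, intervalIntegral.integral_symm]
  rw [h1, T_pi hc]

lemma e_periodic : Function.Periodic e (2 * π) := by
  intro t
  unfold e
  push_cast
  rw [add_mul, Complex.exp_add, Complex.exp_two_pi_mul_I, mul_one]

/-- change of parameter on the unit circle -/
lemma integral_reparam (hc : |c| < 1 / 2) (Φ : ℂ → ℂ) (hΦ : Continuous fun t : ℝ => Φ (e t)) :
    ∫ t in (0 : ℝ)..2 * π, Φ (e t) = ∫ β in (-π)..π, Φ (xi c β) * tp c β := by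
  have h1 := intervalIntegral.integral_deriv_smul_comp (a := -π) (b := π) (f := T c) (f' := tp c)
    (g := fun t => Φ (e t)) (fun x _ => hasDerivAt_T hc x) (continuous_tp hc).continuousOn hΦ
  rw [T_pi hc, T_neg_pi hc] at h1
  have h2 : ∫ t in (0 : ℝ)..2 * π, Φ (e t) = ∫ t in (-π)..π, Φ (e t) := by
    have h3 : Function.Periodic (fun t => Φ (e t)) (2 * π) := fun t => by
      show Φ (e (t + 2 * π)) = Φ (e t)
      rw [e_periodic t]
    have h4 := h3.intervalIntegral_add_eq 0 (-π)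
    rw [zero_add, show -π + 2 * π = π by ring] at h4
    exact h4
  rw [h2, ← h1]
  apply intervalIntegral.integral_congr
  intro β _
  simp only [Function.comp]
  rw [e_T hc, Complex.real_smul, mul_comm]

lemma norm_add_xi {ρ r : ℝ} (hρ : 0 < ρ) (hr : |r| < ρ) (β : ℝ) :
    ‖(ρ : ℂ) + r * xi (r / (2 * ρ)) β‖ = ρ + r * Real.cos β := by
  have hc : |r / (2 * ρ)| < 1 / 2 := by
    rw [abs_div, abs_of_pos (by positivity : 0 < 2 * ρ), div_lt_div_iff₀ (by positivity) two_pos]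
    linarith
  have hpos : 0 ≤ ρ + r * Real.cos β := by
    have h1 : |r * Real.cos β| ≤ |r| := by
      rw [abs_mul]
      exact mul_le_of_le_one_right (abs_nonneg r) (Real.abs_cos_le_one β)
    have := neg_abs_le (r * Real.cos β)
    linarith
  have h : ‖(ρ : ℂ) + r * xi (r / (2 * ρ)) β‖ ^ 2 = (ρ + r * Real.cos β) ^ 2 := by
    have h1 : ‖xi (r / (2 * ρ)) β‖ ^ 2 = 1 := by rw [norm_xi hc]; norm_num
    rw [← Complex.normSq_eq_norm_sq, Complex.normSq_apply] at h1 ⊢
    rw [Complex.add_re, Complex.add_im, Complex.re_ofReal_mul, Complex.im_ofReal_mul,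
      Complex.ofReal_re, Complex.ofReal_im, zero_add]
    have h2 := Real.sin_sq_add_cos_sq β
    have h3 := xi_re (r / (2 * ρ)) β
    have h4 : 2 * ρ * (xi (r / (2 * ρ)) β).re = 2 * ρ * Real.cos β - r * Real.sin β ^ 2 := by
      rw [h3]; field_simp
    linear_combination r ^ 2 * h1 + r * h4 - r ^ 2 * h2
  have h5 := abs_eq_abs.mpr (sq_eq_sq_iff_eq_or_eq_neg.mp h)
  rwa [abs_of_nonneg (norm_nonneg _), abs_of_nonneg hpos] at h5

end


noncomputable def cy (α y : ℝ) : ℝ := α * y / (2 * (1 - y))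

/-- kernel -/
noncomputable def kap (k : ℤ) (α y β : ℝ) : ℂ :=
  (((1 - y : ℝ) : ℂ) + ((α * y : ℝ) : ℂ) * xi (cy α y) β) ^ k * xi (cy α y) β * (tp (cy α y) β : ℂ)

lemma contDiffAt_ofReal {f : ℝ × ℝ → ℝ} {p : ℝ × ℝ} (h : ContDiffAt ℝ 1 f p) :
    ContDiffAt ℝ 1 (fun q => (f q : ℂ)) p :=
  Complex.ofRealCLM.contDiff.contDiffAt.comp p h

/-- admissible region -/
def Om (α : ℝ) : Set ℝ := {y | |α * y| < 1 - y}

lemma Om_open (α : ℝ) : IsOpen (Om α) := by
  unfold Om
  exact isOpen_lt (by fun_prop) (by fun_prop)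

lemma Om_pos {α y : ℝ} (hy : y ∈ Om α) : 0 < 1 - y := lt_of_le_of_lt (abs_nonneg _) hy

lemma cy_bound {α y : ℝ} (hy : y ∈ Om α) : |cy α y| < 1 / 2 := by
  have h := Om_pos hy
  unfold cy
  rw [abs_div, abs_of_pos (by positivity : 0 < 2 * (1 - y)), div_lt_div_iff₀ (by positivity) two_pos]
  have : |α * y| < 1 - y := hy
  linarith

lemma norm_zeta {α y : ℝ} (hy : y ∈ Om α) (β : ℝ) :
    ‖((1 - y : ℝ) : ℂ) + ((α * y : ℝ) : ℂ) * xi (cy α y) β‖ = 1 - y + α * y * Real.cos β :=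
  norm_add_xi (Om_pos hy) hy β

lemma norm_zeta_pos {α y : ℝ} (hy : y ∈ Om α) (β : ℝ) : 0 < 1 - y + α * y * Real.cos β := by
  have h1 : |α * y * Real.cos β| ≤ |α * y| := by
    rw [abs_mul]
    exact mul_le_of_le_one_right (abs_nonneg _) (Real.abs_cos_le_one β)
  have h2 := neg_abs_le (α * y * Real.cos β)
  have h3 : |α * y| < 1 - y := hy
  linarith

lemma contDiffAt_kap (k : ℤ) (α : ℝ) (p : ℝ × ℝ) (hp : p.1 ∈ Om α) :
    ContDiffAt ℝ 1 (fun q : ℝ × ℝ => kap k α q.1 q.2) p := by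
  have h1 : ContDiffAt ℝ 1 (fun q : ℝ × ℝ => cy α q.1) p := by
    unfold cy
    apply ContDiffAt.div (by fun_prop) (by fun_prop)
    have := Om_pos hp
    positivity
  have hcos : ContDiffAt ℝ 1 (fun q : ℝ × ℝ => Real.cos q.2) p := by fun_prop
  have hsin : ContDiffAt ℝ 1 (fun q : ℝ × ℝ => Real.sin q.2) p := by fun_prop
  have hS : ContDiffAt ℝ 1 (fun q : ℝ × ℝ => S (cy α q.1) q.2) p := by
    unfold S
    fun_prop
  have hSp : S (cy α p.1) p.2 ≠ 0 := (S_pos (cy_bound hp) _).ne'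
  have hg : ContDiffAt ℝ 1 (fun q : ℝ × ℝ => √(S (cy α q.1) q.2)) p := hS.sqrt hSp
  have hxi : ContDiffAt ℝ 1 (fun q : ℝ × ℝ => xi (cy α q.1) q.2) p := by
    unfold xi
    apply ContDiffAt.add
    · apply contDiffAt_ofReal
      fun_prop
    · apply ContDiffAt.mul _ contDiffAt_const
      apply contDiffAt_ofReal
      fun_prop
  have htp : ContDiffAt ℝ 1 (fun q : ℝ × ℝ => (tp (cy α q.1) q.2 : ℂ)) p := by
    apply contDiffAt_ofReal
    unfold tp
    apply ContDiffAt.div _ hg (Real.sqrt_pos.mpr (S_pos (cy_bound hp) _)).ne'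
    fun_prop
  have hζ : ContDiffAt ℝ 1 (fun q : ℝ × ℝ =>
      (((1 - q.1 : ℝ) : ℂ) + ((α * q.1 : ℝ) : ℂ) * xi (cy α q.1) q.2)) p := by
    apply ContDiffAt.add
    · apply contDiffAt_ofReal
      fun_prop
    · apply ContDiffAt.mul _ hxi
      apply contDiffAt_ofReal
      fun_prop
  have hζ0 : (((1 - p.1 : ℝ) : ℂ) + ((α * p.1 : ℝ) : ℂ) * xi (cy α p.1) p.2) ≠ 0 := by
    rw [← norm_pos_iff, norm_zeta hp]
    exact norm_zeta_pos hp _
  have hz : ContDiffAt ℝ 1 (fun z : ℂ => z ^ k)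
      (((1 - p.1 : ℝ) : ℂ) + ((α * p.1 : ℝ) : ℂ) * xi (cy α p.1) p.2) := by
    have h1 : AnalyticAt ℂ (fun z : ℂ => z ^ k)
      (((1 - p.1 : ℝ) : ℂ) + ((α * p.1 : ℝ) : ℂ) * xi (cy α p.1) p.2) :=
      AnalyticAt.zpow analyticAt_id hζ0
    exact (h1.restrictScalars (𝕜 := ℝ)).contDiffAt
  have hz2 := hz.comp p hζ
  exact (hz2.mul hxi).mul htp

/-- derivative of the kernel in `y` -/
noncomputable def kap' (k : ℤ) (α y β : ℝ) : ℂ :=
  fderiv ℝ (fun q : ℝ × ℝ => kap k α q.1 q.2) (y, β) (1, 0)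

lemma continuousOn_kap (k : ℤ) (α : ℝ) :
    ContinuousOn (fun q : ℝ × ℝ => kap k α q.1 q.2) (Om α ×ˢ univ) := by
  intro p hp
  exact (contDiffAt_kap k α p hp.1).continuousAt.continuousWithinAt

lemma continuousOn_kap' (k : ℤ) (α : ℝ) :
    ContinuousOn (fun q : ℝ × ℝ => kap' k α q.1 q.2) (Om α ×ˢ univ) := by
  have h1 : ContDiffOn ℝ 1 (fun q : ℝ × ℝ => kap k α q.1 q.2) (Om α ×ˢ univ) := by
    intro p hp
    exact (contDiffAt_kap k α p hp.1).contDiffWithinAt
  have h2 := h1.continuousOn_fderiv_of_isOpen ((Om_open α).prod isOpen_univ) le_rfl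
  unfold kap'
  exact h2.clm_apply continuousOn_const

lemma hasDerivAt_kap (k : ℤ) (α y β : ℝ) (hy : y ∈ Om α) :
    HasDerivAt (fun y => kap k α y β) (kap' k α y β) y := by
  have h1 := ((contDiffAt_kap k α (y, β) hy).differentiableAt (by norm_num)).hasFDerivAt
  have h2 : HasDerivAt (fun y : ℝ => (y, β)) (1, 0) y := (hasDerivAt_id y).prodMk (hasDerivAt_const y β)
  exact h1.comp_hasDerivAt y h2


/-- Derivative of a parametric integral, local version. -/
lemma hasDerivAt_param_loc {E : Type*} [NormedAddCommGroup E] [NormedSpace ℝ E] (a b : ℝ)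
    (U : Set ℝ) (hU : IsOpen U)
    (φ φ' : ℝ → ℝ → E) (hφ : ∀ y ∈ U, Continuous (φ y))
    (hφ' : ContinuousOn (Function.uncurry φ') (U ×ˢ univ))
    (hd : ∀ y ∈ U, ∀ t, HasDerivAt (fun y => φ y t) (φ' y t) y) (y0 : ℝ) (hy0 : y0 ∈ U) :
    HasDerivAt (fun y => ∫ t in a..b, φ y t) (∫ t in a..b, φ' y0 t) y0 := by
  obtain ⟨r, hr, hrU⟩ := Metric.isOpen_iff.mp hU y0 hy0
  have hsub : closedBall y0 (r / 2) ⊆ U := (closedBall_subset_ball (by linarith)).trans hrU
  obtain ⟨C, hC⟩ := ((isCompact_closedBall y0 (r / 2)).prod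
    (isCompact_uIcc (a := a) (b := b))).exists_bound_of_continuousOn
    (hφ'.mono (prod_mono hsub (subset_univ _)))
  have h := intervalIntegral.hasDerivAt_integral_of_dominated_loc_of_deriv_le (μ := volume)
    (F := φ) (F' := φ') (x₀ := y0) (s := ball y0 (r / 2)) (a := a) (b := b) (bound := fun _ => C)
    (ball_mem_nhds y0 (by positivity))
    ?_
    ((hφ y0 hy0).intervalIntegrable _ _)
    ?_
    (Eventually.of_forall fun t ht y hy => hC (y, t)
      ⟨ball_subset_closedBall hy, uIoc_subset_uIcc ht⟩)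
    intervalIntegrable_const
    (Eventually.of_forall fun t _ y hy => hd y (hsub (ball_subset_closedBall hy)) t)
  · exact h.2
  · filter_upwards [hU.mem_nhds hy0] with y hy
    exact (hφ y hy).aestronglyMeasurable
  · have h1 : Continuous (φ' y0) := by
      rw [← continuousOn_univ]
      exact hφ'.comp (f := fun t => (y0, t)) (by fun_prop) (fun t _ => ⟨hy0, mem_univ _⟩)
    exact h1.aestronglyMeasurable

/-- the family of integrals -/
noncomputable def Ps (κ : ℝ → ℝ → ℂ) (γ : ℝ → ℝ) (W : ℝ → ℂ) (y x : ℝ) : ℂ :=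
  ∫ β in (-π)..π, κ y β * W (x * γ β)

section

variable {κ κ' : ℝ → ℝ → ℂ} {γ : ℝ → ℝ} {W : ℝ → ℂ} {U : Set ℝ}

lemma cont_slice (hκ : ContinuousOn (Function.uncurry κ) (U ×ˢ univ)) (y : ℝ) (hy : y ∈ U) :
    Continuous (κ y) := by
  rw [← continuousOn_univ]
  exact hκ.comp (f := fun t => (y, t)) (by fun_prop) (fun t _ => ⟨hy, mem_univ _⟩)

lemma hasDerivAt_Ps (hU : IsOpen U) (hκ : ContinuousOn (Function.uncurry κ) (U ×ˢ univ))
    (hκ' : ContinuousOn (Function.uncurry κ') (U ×ˢ univ))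
    (hd : ∀ y ∈ U, ∀ t, HasDerivAt (fun y => κ y t) (κ' y t) y) (hγ : Continuous γ)
    (hW : Continuous W) (x y : ℝ) (hy : y ∈ U) :
    HasDerivAt (fun y => Ps κ γ W y x) (Ps κ' γ W y x) y := by
  unfold Ps
  apply hasDerivAt_param_loc (-π) π U hU (fun y β => κ y β * W (x * γ β))
    (fun y β => κ' y β * W (x * γ β)) _ _ _ y hy
  · intro y hy
    exact (cont_slice hκ y hy).mul (by fun_prop)
  · exact hκ'.mul (by fun_prop)
  · intro y hy t
    exact (hd y hy t).mul_const _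

/-- clamp -/
noncomputable def cl (yc y : ℝ) : ℝ := max 0 (min y yc)

lemma cl_mem {yc : ℝ} (hyc : 0 ≤ yc) (y : ℝ) : cl yc y ∈ Icc 0 yc := by
  unfold cl
  exact ⟨le_max_left _ _, max_le hyc (min_le_right _ _)⟩

lemma cl_eq {yc y : ℝ} (hy : y ∈ Icc 0 yc) : cl yc y = y := by
  unfold cl
  rw [min_eq_left hy.2, max_eq_right hy.1]

lemma continuous_cl (yc : ℝ) : Continuous (cl yc) := by
  unfold cl
  fun_prop

lemma continuous_Ps {yc : ℝ} (hyc : 0 ≤ yc) (hsub : Icc 0 yc ⊆ U)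
    (hκ : ContinuousOn (Function.uncurry κ) (U ×ˢ univ)) (hγ : Continuous γ)
    (hW : Continuous W) : Continuous fun p : ℝ × ℝ => Ps κ γ W (cl yc p.1) p.2 := by
  unfold Ps
  apply intervalIntegral.continuous_parametric_intervalIntegral_of_continuous'
  have h1 : Continuous fun q : (ℝ × ℝ) × ℝ => κ (cl yc q.1.1) q.2 := by
    rw [← continuousOn_univ]
    have hc := continuous_cl yc
    exact hκ.comp (f := fun q : (ℝ × ℝ) × ℝ => (cl yc q.1.1, q.2)) (by fun_prop)
      (fun q _ => ⟨hsub (cl_mem hyc _), mem_univ _⟩)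
  exact h1.mul (by fun_prop)

lemma continuous_Ps_right (hκ : ContinuousOn (Function.uncurry κ) (U ×ˢ univ)) (hγ : Continuous γ)
    (hW : Continuous W) (y : ℝ) (hy : y ∈ U) : Continuous fun x : ℝ => Ps κ γ W y x := by
  unfold Ps
  apply intervalIntegral.continuous_parametric_intervalIntegral_of_continuous'
  have h1 := cont_slice hκ y hy
  exact (h1.comp continuous_snd).mul (by fun_prop)

lemma Ps_ftc {yc : ℝ} (hU : IsOpen U) (hsub : Icc 0 yc ⊆ U)
    (hκ : ContinuousOn (Function.uncurry κ) (U ×ˢ univ))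
    (hκ' : ContinuousOn (Function.uncurry κ') (U ×ˢ univ))
    (hd : ∀ y ∈ U, ∀ t, HasDerivAt (fun y => κ y t) (κ' y t) y) (hγ : Continuous γ)
    (hW : Continuous W) (x y : ℝ) (hx : 0 ≤ x) (hxy : x ≤ y) (hy : y ≤ yc) :
    IntervalIntegrable (fun u => Ps κ' γ W u x) volume x y ∧
    ∫ u in x..y, Ps κ' γ W u x = Ps κ γ W y x - Ps κ γ W x x := by
  have hint : IntervalIntegrable (fun u => Ps κ' γ W u x) volume x y := by
    apply ContinuousOn.intervalIntegrable
    rw [uIcc_of_le hxy]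
    have h1 : Continuous fun u => Ps κ' γ W (cl yc u) x :=
      (continuous_Ps (hx.trans (hxy.trans hy)) hsub hκ' hγ hW).comp
        (by fun_prop : Continuous fun u : ℝ => (u, x))
    apply h1.continuousOn.congr
    intro u hu
    show Ps κ' γ W u x = Ps κ' γ W (cl yc u) x
    rw [cl_eq ⟨hx.trans hu.1, hu.2.trans hy⟩]
  refine ⟨hint, ?_⟩
  apply intervalIntegral.integral_eq_sub_of_hasDerivAt
  · intro u hu
    rw [uIcc_of_le hxy] at hu
    exact hasDerivAt_Ps hU hκ hκ' hd hγ hW x u (hsub ⟨hx.trans hu.1, hu.2.trans hy⟩)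
  · exact hint

/-- mollifier data -/
structure Mol (φ : ℝ → ℝ) : Prop where
  smooth2 : ContDiff ℝ 2 φ
  nonneg : ∀ x, 0 ≤ φ x
  supp : ∀ x, x ∉ Ioo (0 : ℝ) 1 → φ x = 0
  int : ∫ σ in (0 : ℝ)..1, φ σ = 1

lemma Mol.smooth {φ : ℝ → ℝ} (h : Mol φ) : ContDiff ℝ 1 φ := h.smooth2.of_le (by norm_num)

lemma Mol.zero {φ : ℝ → ℝ} (h : Mol φ) : φ 0 = 0 := h.supp 0 (by simp)

lemma Mol.one {φ : ℝ → ℝ} (h : Mol φ) : φ 1 = 0 := h.supp 1 (by simp)

lemma Mol.cont {φ : ℝ → ℝ} (h : Mol φ) : Continuous φ := h.smooth.continuous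

lemma Mol.cont_deriv {φ : ℝ → ℝ} (h : Mol φ) : Continuous (deriv φ) :=
  h.smooth.continuous_deriv (by norm_num)

lemma one_sub_exp_le (s : ℝ) : 1 - Real.exp (-s) ≤ s := by
  have := Real.add_one_le_exp (-s)
  linarith

lemma Mol.parts {φ : ℝ → ℝ} (h : Mol φ) (ε : ℝ) :
    ∫ σ in (0 : ℝ)..1, deriv φ σ * (1 - Real.exp (-(ε * σ))) =
      -(ε * ∫ σ in (0 : ℝ)..1, φ σ * Real.exp (-(ε * σ))) := by
  have hc := h.cont
  have hc' := h.cont_deriv
  have hd : ∀ σ : ℝ, HasDerivAt (fun σ => φ σ * (1 - Real.exp (-(ε * σ))))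
      (deriv φ σ * (1 - Real.exp (-(ε * σ))) + φ σ * (ε * Real.exp (-(ε * σ)))) σ := by
    intro σ
    have h1 : HasDerivAt φ (deriv φ σ) σ := (h.smooth.differentiable (by norm_num) σ).hasDerivAt
    have h2 : HasDerivAt (fun σ : ℝ => -(ε * σ)) (-ε) σ := by
      have := ((hasDerivAt_id σ).const_mul ε).fun_neg
      rw [mul_one] at this
      exact this
    have h3 := h2.exp.const_sub 1
    have h4 := h1.mul h3
    convert! h4 using 1
    ring
  have h1 := intervalIntegral.integral_eq_sub_of_hasDerivAt (a := 0) (b := 1) (fun σ _ => hd σ)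
    (by apply Continuous.intervalIntegrable; fun_prop)
  rw [intervalIntegral.integral_add (by apply Continuous.intervalIntegrable; fun_prop)
    (by apply Continuous.intervalIntegrable; fun_prop), h.one, h.zero, zero_mul, zero_mul,
    sub_zero] at h1
  have h2 : (∫ σ in (0 : ℝ)..1, φ σ * (ε * Real.exp (-(ε * σ)))) =
      ε * ∫ σ in (0 : ℝ)..1, φ σ * Real.exp (-(ε * σ)) := by
    rw [← intervalIntegral.integral_const_mul]
    congr 1
    funext σ
    ring
  rw [h2] at h1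
  linarith

/-- the main quantity -/
noncomputable def T1 (κ κ' : ℝ → ℝ → ℂ) (γ : ℝ → ℝ) (W : ℝ → ℂ) (φ : ℝ → ℝ) (ε y : ℝ) : ℂ :=
  (∫ σ in (0 : ℝ)..1, (φ σ : ℂ) * Ps κ' γ W y (y * Real.exp (-(ε * σ)))) +
    (1 / (ε * y) : ℝ) * ∫ σ in (0 : ℝ)..1, ((deriv φ σ : ℝ) : ℂ) * Ps κ γ W y (y * Real.exp (-(ε * σ)))

lemma T1_bound {φ : ℝ → ℝ} (hφ : Mol φ) {yc : ℝ} (hU : IsOpen U) (hsub : Icc 0 yc ⊆ U)
    (hκ : ContinuousOn (Function.uncurry κ) (U ×ˢ univ))
    (hκ' : ContinuousOn (Function.uncurry κ') (U ×ˢ univ))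
    (hd : ∀ y ∈ U, ∀ t, HasDerivAt (fun y => κ y t) (κ' y t) y) (hγ : Continuous γ)
    (hW : Continuous W) (hzero : ∀ x, 0 < x → x ≤ yc → Ps κ γ W x x = 0)
    (ε y η M : ℝ) (hε : 0 < ε) (hy : 0 < y) (hyc : y ≤ yc) (hη : 0 ≤ η)
    (hM : ‖Ps κ' γ W y y‖ ≤ M)
    (hunif : ∀ u x, y * Real.exp (-ε) ≤ u → u ≤ y → y * Real.exp (-ε) ≤ x → x ≤ y →
      ‖Ps κ' γ W u x - Ps κ' γ W y y‖ ≤ η) :
    ‖T1 κ κ' γ W φ ε y‖ ≤ η * (1 + ∫ σ in (0 : ℝ)..1, |deriv φ σ|) + M * ε := by
  set K0 := Ps κ' γ W y y with hK0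
  have hyU : y ∈ U := hsub ⟨hy.le, hyc⟩
  have hcφ := hφ.cont
  have hcφ' := hφ.cont_deriv
  have hP' : Continuous fun σ : ℝ => Ps κ' γ W y (y * Real.exp (-(ε * σ))) :=
    (continuous_Ps_right hκ' hγ hW y hyU).comp (by fun_prop)
  have hP : Continuous fun σ : ℝ => Ps κ γ W y (y * Real.exp (-(ε * σ))) :=
    (continuous_Ps_right hκ hγ hW y hyU).comp (by fun_prop)
  have hxs : ∀ σ ∈ Icc (0 : ℝ) 1, y * Real.exp (-ε) ≤ y * Real.exp (-(ε * σ)) ∧
      y * Real.exp (-(ε * σ)) ≤ y := by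
    intro σ hσ
    constructor
    · apply mul_le_mul_of_nonneg_left _ hy.le
      apply Real.exp_le_exp.mpr
      nlinarith [hσ.2]
    · apply mul_le_of_le_one_right hy.le
      rw [Real.exp_le_one_iff]
      have : 0 ≤ ε * σ := mul_nonneg hε.le hσ.1
      linarith
  -- first piece
  have h1 : ‖∫ σ in (0 : ℝ)..1, (φ σ : ℂ) * (Ps κ' γ W y (y * Real.exp (-(ε * σ))) - K0)‖ ≤ η := by
    calc _ ≤ ∫ σ in (0 : ℝ)..1, φ σ * η := by
          apply intervalIntegral.norm_integral_le_of_norm_le zero_le_one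
          · refine Eventually.of_forall fun σ hσ => ?_
            have hσ' := hxs σ ⟨hσ.1.le, hσ.2⟩
            rw [norm_mul, Complex.norm_real, Real.norm_eq_abs, abs_of_nonneg (hφ.nonneg σ)]
            apply mul_le_mul_of_nonneg_left _ (hφ.nonneg σ)
            apply hunif y _ _ le_rfl hσ'.1 hσ'.2
            exact mul_le_of_le_one_right hy.le (by rw [Real.exp_le_one_iff]; linarith)
          · apply Continuous.intervalIntegrable; fun_prop
      _ = η := by
          rw [intervalIntegral.integral_mul_const, hφ.int, one_mul]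
  -- second piece
  have h2 : ‖∫ σ in (0 : ℝ)..1, ((deriv φ σ : ℝ) : ℂ) * (Ps κ γ W y (y * Real.exp (-(ε * σ))) -
      ((y - y * Real.exp (-(ε * σ)) : ℝ) : ℂ) * K0)‖ ≤
      (∫ σ in (0 : ℝ)..1, |deriv φ σ|) * (η * (y * ε)) := by
    calc _ ≤ ∫ σ in (0 : ℝ)..1, |deriv φ σ| * (η * (y * ε)) := by
          apply intervalIntegral.norm_integral_le_of_norm_le zero_le_one
          · refine Eventually.of_forall fun σ hσ => ?_
            have hσ' := hxs σ ⟨hσ.1.le, hσ.2⟩
            rw [norm_mul, Complex.norm_real, Real.norm_eq_abs]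
            apply mul_le_mul_of_nonneg_left _ (abs_nonneg _)
            set x := y * Real.exp (-(ε * σ)) with hx
            have hx0 : 0 < x := by rw [hx]; positivity
            obtain ⟨hint, hftc⟩ := Ps_ftc hU hsub hκ hκ' hd hγ hW x y hx0.le hσ'.2 hyc
            rw [hzero x hx0 (hσ'.2.trans hyc), sub_zero] at hftc
            have h3 : Ps κ γ W y x - ((y - x : ℝ) : ℂ) * K0 =
                ∫ u in x..y, (Ps κ' γ W u x - K0) := by
              rw [intervalIntegral.integral_sub hint intervalIntegrable_const, hftc,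
                intervalIntegral.integral_const, Complex.real_smul]
            rw [h3]
            have h4 : ‖∫ u in x..y, (Ps κ' γ W u x - K0)‖ ≤ η * |y - x| := by
              apply intervalIntegral.norm_integral_le_of_norm_le_const
              intro u hu
              rw [uIoc_of_le hσ'.2] at hu
              exact hunif u x (hσ'.1.trans hu.1.le) hu.2 hσ'.1 hσ'.2
            refine h4.trans (mul_le_mul_of_nonneg_left ?_ hη)
            rw [abs_of_nonneg (by linarith [hσ'.2])]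
            have h5 := one_sub_exp_le (ε * σ)
            have h6 : ε * σ ≤ ε := mul_le_of_le_one_right hε.le hσ.2
            rw [hx]
            nlinarith
          · apply Continuous.intervalIntegrable; fun_prop
      _ = _ := by
          rw [intervalIntegral.integral_mul_const]
  -- decomposition
  have h3 : T1 κ κ' γ W φ ε y =
      (∫ σ in (0 : ℝ)..1, (φ σ : ℂ) * (Ps κ' γ W y (y * Real.exp (-(ε * σ))) - K0)) +
      (1 / (ε * y) : ℝ) * (∫ σ in (0 : ℝ)..1, ((deriv φ σ : ℝ) : ℂ) *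
        (Ps κ γ W y (y * Real.exp (-(ε * σ))) - ((y - y * Real.exp (-(ε * σ)) : ℝ) : ℂ) * K0)) +
      ((∫ σ in (0 : ℝ)..1, φ σ * (1 - Real.exp (-(ε * σ))) : ℝ) : ℂ) * K0 := by
    have e1 : (∫ σ in (0 : ℝ)..1, (φ σ : ℂ) * (Ps κ' γ W y (y * Real.exp (-(ε * σ))) - K0)) =
        (∫ σ in (0 : ℝ)..1, (φ σ : ℂ) * Ps κ' γ W y (y * Real.exp (-(ε * σ)))) - K0 := by
      simp_rw [mul_sub]
      rw [intervalIntegral.integral_sub (by apply Continuous.intervalIntegrable; fun_prop)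
        (by apply Continuous.intervalIntegrable; fun_prop), intervalIntegral.integral_mul_const,
        intervalIntegral.integral_ofReal, hφ.int]
      simp
    have e2 : (∫ σ in (0 : ℝ)..1, ((deriv φ σ : ℝ) : ℂ) *
        (Ps κ γ W y (y * Real.exp (-(ε * σ))) - ((y - y * Real.exp (-(ε * σ)) : ℝ) : ℂ) * K0)) =
        (∫ σ in (0 : ℝ)..1, ((deriv φ σ : ℝ) : ℂ) * Ps κ γ W y (y * Real.exp (-(ε * σ)))) -
        ((y * ∫ σ in (0 : ℝ)..1, deriv φ σ * (1 - Real.exp (-(ε * σ))) : ℝ) : ℂ) * K0 := by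
      simp_rw [mul_sub]
      rw [intervalIntegral.integral_sub (by apply Continuous.intervalIntegrable; fun_prop)
        (by apply Continuous.intervalIntegrable; fun_prop)]
      congr 1
      rw [← intervalIntegral.integral_const_mul, ← intervalIntegral.integral_ofReal,
        ← intervalIntegral.integral_mul_const]
      congr 1
      funext σ
      push_cast
      ring
    have e3 : (∫ σ in (0 : ℝ)..1, φ σ * (1 - Real.exp (-(ε * σ)))) =
        1 - ∫ σ in (0 : ℝ)..1, φ σ * Real.exp (-(ε * σ)) := by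
      simp_rw [mul_sub]
      rw [intervalIntegral.integral_sub (by apply Continuous.intervalIntegrable; fun_prop)
        (by apply Continuous.intervalIntegrable; fun_prop)]
      simp_rw [mul_one]
      rw [hφ.int]
    rw [e1, e2, e3, hφ.parts]
    unfold T1
    have hε' : (ε : ℂ) ≠ 0 := by exact_mod_cast hε.ne'
    have hy' : (y : ℂ) ≠ 0 := by exact_mod_cast hy.ne'
    push_cast
    field_simp
    ring
  have h4 : |∫ σ in (0 : ℝ)..1, φ σ * (1 - Real.exp (-(ε * σ)))| ≤ ε := by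
    have : ‖∫ σ in (0 : ℝ)..1, φ σ * (1 - Real.exp (-(ε * σ)))‖ ≤ ∫ σ in (0 : ℝ)..1, φ σ * ε := by
      apply intervalIntegral.norm_integral_le_of_norm_le zero_le_one
      · refine Eventually.of_forall fun σ hσ => ?_
        rw [norm_mul, Real.norm_eq_abs, Real.norm_eq_abs, abs_of_nonneg (hφ.nonneg σ)]
        apply mul_le_mul_of_nonneg_left _ (hφ.nonneg σ)
        have h5 := one_sub_exp_le (ε * σ)
        have h6 : ε * σ ≤ ε := mul_le_of_le_one_right hε.le hσ.2
        have h7 : Real.exp (-(ε * σ)) ≤ 1 := by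
          rw [Real.exp_le_one_iff]
          have : 0 ≤ ε * σ := mul_nonneg hε.le hσ.1.le
          linarith
        rw [abs_of_nonneg (by linarith)]
        linarith
      · apply Continuous.intervalIntegrable; fun_prop
    rw [intervalIntegral.integral_mul_const, hφ.int, one_mul] at this
    exact this
  rw [h3]
  have hεy : 0 < ε * y := by positivity
  have h5 : ‖((1 / (ε * y) : ℝ) : ℂ) * (∫ σ in (0 : ℝ)..1, ((deriv φ σ : ℝ) : ℂ) *
        (Ps κ γ W y (y * Real.exp (-(ε * σ))) - ((y - y * Real.exp (-(ε * σ)) : ℝ) : ℂ) * K0))‖ ≤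
      η * ∫ σ in (0 : ℝ)..1, |deriv φ σ| := by
    rw [norm_mul, Complex.norm_real, Real.norm_eq_abs, abs_of_pos (by positivity)]
    calc _ ≤ 1 / (ε * y) * ((∫ σ in (0 : ℝ)..1, |deriv φ σ|) * (η * (y * ε))) :=
          mul_le_mul_of_nonneg_left h2 (by positivity)
      _ = _ := by field_simp
  have h6 : ‖((∫ σ in (0 : ℝ)..1, φ σ * (1 - Real.exp (-(ε * σ))) : ℝ) : ℂ) * K0‖ ≤ M * ε := by
    rw [norm_mul, Complex.norm_real, Real.norm_eq_abs, mul_comm]
    exact mul_le_mul hM h4 (abs_nonneg _) ((norm_nonneg _).trans hM)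
  calc _ ≤ _ := norm_add₃_le
    _ ≤ η + η * (∫ σ in (0 : ℝ)..1, |deriv φ σ|) + M * ε := by gcongr
    _ = _ := by ring

end


lemma swap_integrals (F : ℝ → ℝ → ℂ) (hF : Continuous (Function.uncurry F)) (a b c d : ℝ) :
    ∫ x in a..b, ∫ y in c..d, F x y = ∫ y in c..d, ∫ x in a..b, F x y := by
  apply intervalIntegral_intervalIntegral_swap
  apply (hF.continuousOn.integrableOn_compact
    ((isCompact_uIcc (a := a) (b := b)).prod (isCompact_uIcc (a := c) (b := d)))).mono_set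
  exact prod_mono uIoc_subset_uIcc uIoc_subset_uIcc

lemma exists_mol : ∃ φ : ℝ → ℝ, Mol φ := by
  let B : ContDiffBump (1 / 2 : ℝ) := ⟨1 / 4, 1 / 2, by norm_num, by norm_num⟩
  have hsupp : ∀ x, x ∉ Ioo (0 : ℝ) 1 → B.normed volume x = 0 := by
    intro x hx
    by_contra hne
    have h1 : x ∈ Function.support (B.normed volume) := hne
    rw [B.support_normed_eq] at h1
    apply hx
    have h2 : |x - 1 / 2| < 1 / 2 := by
      have := mem_ball.mp h1
      rwa [Real.dist_eq] at this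
    rw [abs_lt] at h2
    exact ⟨by linarith [h2.1], by linarith [h2.2]⟩
  refine ⟨B.normed volume, ⟨?_, fun x => B.nonneg_normed x, hsupp, ?_⟩⟩
  · exact (B.contDiff_normed (n := 2))
  · refine Eq.trans ?_ (B.integral_normed (μ := volume))
    apply intervalIntegral.integral_eq_integral_of_support_subset
    intro x hx
    by_contra hne
    apply hx
    apply hsupp
    exact fun h => hne (Ioo_subset_Ioc_self h)

lemma Mol.deriv_supp {φ : ℝ → ℝ} (h : Mol φ) (x : ℝ) (hx : x ∉ Ioo (0 : ℝ) 1) :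
    deriv φ x = 0 := by
  apply IsLocalMin.deriv_eq_zero
  apply Filter.Eventually.of_forall
  intro y
  rw [h.supp x hx]
  exact h.nonneg y

/-- multiplicative mollification -/
noncomputable def mA (φ : ℝ → ℝ) (W : ℝ → ℂ) (ε x : ℝ) : ℂ :=
  ∫ σ in (0 : ℝ)..1, (φ σ : ℂ) * W (x * Real.exp (-(ε * σ)))

noncomputable def mB (φ : ℝ → ℝ) (W : ℝ → ℂ) (ε x : ℝ) : ℂ :=
  (1 / ε : ℝ) * ∫ σ in (0 : ℝ)..1, ((deriv φ σ : ℝ) : ℂ) * W (x * Real.exp (-(ε * σ)))

section

variable {φ : ℝ → ℝ} {W : ℝ → ℂ}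

lemma conv_eq (ψ : ℝ → ℝ) (hψ : ∀ x, x ∉ Ioo (0 : ℝ) 1 → ψ x = 0) (W : ℝ → ℂ) (ε t : ℝ) :
    (convolution ψ (fun s => W (Real.exp (ε * s))) (ContinuousLinearMap.lsmul ℝ ℝ) volume) t =
      ∫ σ in (0 : ℝ)..1, (ψ σ : ℂ) * W (Real.exp (ε * t) * Real.exp (-(ε * σ))) := by
  unfold convolution
  rw [intervalIntegral.integral_eq_integral_of_support_subset]
  · congr 1
    funext σ
    simp only [ContinuousLinearMap.lsmul_apply, Complex.real_smul]
    rw [← Real.exp_add]
    congr 3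
    ring
  · intro σ hσ
    by_contra hne
    apply hσ
    have : σ ∉ Ioo (0 : ℝ) 1 := fun h => hne (Ioo_subset_Ioc_self h)
    simp [hψ σ this]

lemma mA_eq (hφ : Mol φ) (ε x : ℝ) (hε : 0 < ε) (hx : 0 < x) :
    mA φ W ε x = (convolution φ (fun s => W (Real.exp (ε * s))) (ContinuousLinearMap.lsmul ℝ ℝ)
      volume) (Real.log x / ε) := by
  rw [conv_eq φ hφ.supp, mul_div_cancel₀ _ hε.ne', Real.exp_log hx]
  rfl

lemma mB_eq (hφ : Mol φ) (ε x : ℝ) (hε : 0 < ε) (hx : 0 < x) :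
    mB φ W ε x = (1 / ε : ℝ) * (convolution (deriv φ) (fun s => W (Real.exp (ε * s)))
      (ContinuousLinearMap.lsmul ℝ ℝ) volume) (Real.log x / ε) := by
  rw [conv_eq (deriv φ) hφ.deriv_supp, mul_div_cancel₀ _ hε.ne', Real.exp_log hx]
  rfl

lemma Mol.compact (hφ : Mol φ) : HasCompactSupport φ := by
  apply HasCompactSupport.intro (K := Icc 0 1) isCompact_Icc
  intro x hx
  exact hφ.supp x fun h => hx (Ioo_subset_Icc_self h)

lemma mA_contDiffAt (hφ : Mol φ) (hW : Continuous W) (ε x : ℝ) (hε : 0 < ε) (hx : 0 < x) :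
    ContDiffAt ℝ 2 (mA φ W ε) x := by
  have hV : LocallyIntegrable (fun s => W (Real.exp (ε * s))) volume :=
    (by fun_prop : Continuous fun s => W (Real.exp (ε * s))).locallyIntegrable
  have h1 := hφ.compact.contDiff_convolution_left (ContinuousLinearMap.lsmul ℝ ℝ) (n := 2)
    hφ.smooth2 hV
  have h2 : ContDiffAt ℝ 2 (fun x => Real.log x / ε) x :=
    (Real.contDiffAt_log.mpr hx.ne').div_const ε
  have h3 := (h1.contDiffAt (x := Real.log x / ε)).comp x h2
  apply h3.congr_of_eventuallyEq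
  filter_upwards [lt_mem_nhds hx] with z hz
  exact mA_eq hφ ε z hε hz

lemma mA_hasDerivAt (hφ : Mol φ) (hW : Continuous W) (ε x : ℝ) (hε : 0 < ε) (hx : 0 < x) :
    HasDerivAt (mA φ W ε) (mB φ W ε x / x) x := by
  have hV : LocallyIntegrable (fun s => W (Real.exp (ε * s))) volume :=
    (by fun_prop : Continuous fun s => W (Real.exp (ε * s))).locallyIntegrable
  have h1 := hφ.compact.hasDerivAt_convolution_left (ContinuousLinearMap.lsmul ℝ ℝ)
    hφ.smooth hV (Real.log x / ε)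
  have h2 : HasDerivAt (fun x => Real.log x / ε) (x⁻¹ / ε) x :=
    (Real.hasDerivAt_log hx.ne').div_const ε
  have h3 := h1.scomp x h2
  have h4 : HasDerivAt (mA φ W ε) ((x⁻¹ / ε) • (convolution (deriv φ)
      (fun s => W (Real.exp (ε * s))) (ContinuousLinearMap.lsmul ℝ ℝ) volume)
      (Real.log x / ε)) x := by
    apply h3.congr_of_eventuallyEq
    filter_upwards [lt_mem_nhds hx] with z hz
    exact mA_eq hφ ε z hε hz
  convert! h4 using 1
  rw [mB_eq hφ ε x hε hx, Complex.real_smul]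
  push_cast
  have hx' : (x : ℂ) ≠ 0 := by exact_mod_cast hx.ne'
  have hε' : (ε : ℂ) ≠ 0 := by exact_mod_cast hε.ne'
  field_simp

lemma continuous_mA (hφ : Mol φ) (hW : Continuous W) (ε : ℝ) : Continuous (mA φ W ε) := by
  unfold mA
  apply intervalIntegral.continuous_parametric_intervalIntegral_of_continuous'
  have := hφ.cont
  fun_prop

lemma continuous_mB (hφ : Mol φ) (hW : Continuous W) (ε : ℝ) : Continuous (mB φ W ε) := by
  unfold mB
  apply Continuous.mul continuous_const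
  apply intervalIntegral.continuous_parametric_intervalIntegral_of_continuous'
  have := hφ.cont_deriv
  fun_prop

lemma exp_neg_mem {ε σ : ℝ} (hε : 0 < ε) (hσ : σ ∈ Ioc (0 : ℝ) 1) :
    0 < Real.exp (-(ε * σ)) ∧ Real.exp (-(ε * σ)) ≤ 1 := by
  refine ⟨Real.exp_pos _, ?_⟩
  rw [Real.exp_le_one_iff]
  have : 0 ≤ ε * σ := mul_nonneg hε.le hσ.1.le
  linarith

lemma mA_bound (hφ : Mol φ) (ε x a ω : ℝ) (hε : 0 < ε) (hx : 0 ≤ x)
    (hxa : x ≤ a) (hω : ∀ z, 0 ≤ z → z ≤ a → ‖W z‖ ≤ ω) : ‖mA φ W ε x‖ ≤ ω := by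
  have hc := hφ.cont
  unfold mA
  calc _ ≤ ∫ σ in (0 : ℝ)..1, φ σ * ω := by
        apply intervalIntegral.norm_integral_le_of_norm_le zero_le_one
        · refine Eventually.of_forall fun σ hσ => ?_
          have h1 := exp_neg_mem hε hσ
          rw [norm_mul, Complex.norm_real, Real.norm_eq_abs, abs_of_nonneg (hφ.nonneg σ)]
          apply mul_le_mul_of_nonneg_left _ (hφ.nonneg σ)
          apply hω _ (mul_nonneg hx h1.1.le)
          exact (mul_le_of_le_one_right hx h1.2).trans hxa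
        · apply Continuous.intervalIntegrable; fun_prop
    _ = ω := by rw [intervalIntegral.integral_mul_const, hφ.int, one_mul]

lemma mB_bound (hφ : Mol φ) (ε x a ω : ℝ) (hε : 0 < ε) (hx : 0 ≤ x)
    (hxa : x ≤ a) (hω : ∀ z, 0 ≤ z → z ≤ a → ‖W z‖ ≤ ω) :
    ‖mB φ W ε x‖ ≤ 1 / ε * ((∫ σ in (0 : ℝ)..1, |deriv φ σ|) * ω) := by
  have hc := hφ.cont_deriv
  unfold mB
  rw [norm_mul, Complex.norm_real, Real.norm_eq_abs, abs_of_pos (by positivity)]
  apply mul_le_mul_of_nonneg_left _ (by positivity)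
  calc _ ≤ ∫ σ in (0 : ℝ)..1, |deriv φ σ| * ω := by
        apply intervalIntegral.norm_integral_le_of_norm_le zero_le_one
        · refine Eventually.of_forall fun σ hσ => ?_
          have h1 := exp_neg_mem hε hσ
          rw [norm_mul, Complex.norm_real, Real.norm_eq_abs]
          apply mul_le_mul_of_nonneg_left _ (abs_nonneg _)
          apply hω _ (mul_nonneg hx h1.1.le)
          exact (mul_le_of_le_one_right hx h1.2).trans hxa
        · apply Continuous.intervalIntegrable; fun_prop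
    _ = _ := by rw [intervalIntegral.integral_mul_const]

lemma mA_sub_bound (hφ : Mol φ) (hW : Continuous W) (ε x η : ℝ)
    (hη : ∀ σ ∈ Ioc (0 : ℝ) 1, ‖W (x * Real.exp (-(ε * σ))) - W x‖ ≤ η) :
    ‖mA φ W ε x - W x‖ ≤ η := by
  have hc := hφ.cont
  have h1 : mA φ W ε x - W x =
      ∫ σ in (0 : ℝ)..1, (φ σ : ℂ) * (W (x * Real.exp (-(ε * σ))) - W x) := by
    simp_rw [mul_sub]
    rw [intervalIntegral.integral_sub (by apply Continuous.intervalIntegrable; fun_prop)
      (by apply Continuous.intervalIntegrable; fun_prop), intervalIntegral.integral_mul_const,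
      intervalIntegral.integral_ofReal, hφ.int]
    unfold mA
    simp
  rw [h1]
  calc _ ≤ ∫ σ in (0 : ℝ)..1, φ σ * η := by
        apply intervalIntegral.norm_integral_le_of_norm_le zero_le_one
        · refine Eventually.of_forall fun σ hσ => ?_
          rw [norm_mul, Complex.norm_real, Real.norm_eq_abs, abs_of_nonneg (hφ.nonneg σ)]
          exact mul_le_mul_of_nonneg_left (hη σ hσ) (hφ.nonneg σ)
        · apply Continuous.intervalIntegrable; fun_prop
    _ = η := by rw [intervalIntegral.integral_mul_const, hφ.int, one_mul]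

/-- Fubini for the mollified integrals -/
lemma mA_fubini {κ : ℝ → ℝ → ℂ} {γ : ℝ → ℝ} (ψ : ℝ → ℝ) (hψ : Continuous ψ)
    (hW : Continuous W) (hγ : Continuous γ) (ε y : ℝ) (hκ : Continuous (κ y)) :
    ∫ β in (-π)..π, κ y β * (∫ σ in (0 : ℝ)..1, (ψ σ : ℂ) * W (y * γ β * Real.exp (-(ε * σ)))) =
      ∫ σ in (0 : ℝ)..1, (ψ σ : ℂ) * Ps κ γ W y (y * Real.exp (-(ε * σ))) := by
  have h1 : ∀ β, κ y β * (∫ σ in (0 : ℝ)..1, (ψ σ : ℂ) * W (y * γ β * Real.exp (-(ε * σ)))) =
      ∫ σ in (0 : ℝ)..1, κ y β * ((ψ σ : ℂ) * W (y * γ β * Real.exp (-(ε * σ)))) := by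
    intro β
    rw [intervalIntegral.integral_const_mul]
  simp_rw [h1]
  rw [swap_integrals]
  · apply intervalIntegral.integral_congr
    intro σ _
    unfold Ps
    simp only
    rw [← intervalIntegral.integral_const_mul]
    apply intervalIntegral.integral_congr
    intro β _
    simp only
    rw [show y * γ β * Real.exp (-(ε * σ)) = y * Real.exp (-(ε * σ)) * γ β by ring]
    ring
  · simp only [Function.uncurry_def]
    fun_prop

end


/-- cut-off function -/
noncomputable def chi (x : ℝ) : ℝ := Real.smoothTransition (2 * x - 1)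

lemma chi_contDiff : ContDiff ℝ 2 chi := by
  unfold chi
  exact Real.smoothTransition.contDiff.comp (by fun_prop)

lemma chi_zero {x : ℝ} (hx : x ≤ 1 / 2) : chi x = 0 :=
  Real.smoothTransition.zero_of_nonpos (by linarith)

lemma chi_one {x : ℝ} (hx : 1 ≤ x) : chi x = 1 :=
  Real.smoothTransition.one_of_one_le (by linarith)

lemma chi_nonneg (x : ℝ) : 0 ≤ chi x := Real.smoothTransition.nonneg _

lemma chi_le_one (x : ℝ) : chi x ≤ 1 := Real.smoothTransition.le_one _

lemma chi_deriv_of_one_le {x : ℝ} (hx : 1 ≤ x) : deriv chi x = 0 := by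
  apply IsLocalMax.deriv_eq_zero
  apply Filter.Eventually.of_forall
  intro y
  rw [chi_one hx]
  exact chi_le_one y

lemma chi_deriv_of_le {x : ℝ} (hx : x ≤ 1 / 2) : deriv chi x = 0 := by
  apply IsLocalMin.deriv_eq_zero
  apply Filter.Eventually.of_forall
  intro y
  rw [chi_zero hx]
  exact chi_nonneg y

lemma chi_cont_deriv : Continuous (deriv chi) := chi_contDiff.continuous_deriv (by norm_num)

lemma chi_hasDerivAt (x : ℝ) : HasDerivAt chi (deriv chi x) x :=
  (chi_contDiff.differentiable (by norm_num) x).hasDerivAt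

/-- bound for `x χ'(x)` -/
lemma chi_bound : ∃ C, 0 ≤ C ∧ ∀ x, 0 ≤ x → |x * deriv chi x| ≤ C := by
  obtain ⟨C, hC⟩ := (isCompact_Icc (a := (0 : ℝ)) (b := 1)).exists_bound_of_continuousOn
    (f := fun x => x * deriv chi x) (by have := chi_cont_deriv; fun_prop)
  refine ⟨max C 0, le_max_right _ _, fun x hx => ?_⟩
  by_cases h1 : x ≤ 1
  · exact (hC x ⟨hx, h1⟩).trans (le_max_left _ _)
  · rw [chi_deriv_of_one_le (by linarith)]
    simp

/-- cut and mollified profile -/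
noncomputable def hh (φ : ℝ → ℝ) (W : ℝ → ℂ) (ε δ x : ℝ) : ℂ := (chi (x / δ) : ℂ) * mA φ W ε x

section

variable {φ : ℝ → ℝ} {W : ℝ → ℂ} {ε δ : ℝ}

lemma hh_zero {x : ℝ} (hδ : 0 < δ) (hx : x ≤ δ / 2) : hh φ W ε δ x = 0 := by
  unfold hh
  rw [chi_zero]
  · simp
  · rw [div_le_iff₀ hδ]; linarith

lemma hh_one {x : ℝ} (hδ : 0 < δ) (hx : δ ≤ x) : hh φ W ε δ x = mA φ W ε x := by
  unfold hh
  rw [chi_one]
  · simp
  · rw [le_div_iff₀ hδ]; linarith

lemma hh_contDiff (hφ : Mol φ) (hW : Continuous W) (hε : 0 < ε) (hδ : 0 < δ) :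
    ContDiff ℝ 2 (hh φ W ε δ) := by
  rw [contDiff_iff_contDiffAt]
  intro x
  by_cases hx : x < δ / 2
  · apply (contDiffAt_const (c := (0 : ℂ))).congr_of_eventuallyEq
    filter_upwards [gt_mem_nhds hx] with z hz
    exact hh_zero hδ hz.le
  · have hx0 : 0 < x := by linarith
    unfold hh
    apply ContDiffAt.mul _ (mA_contDiffAt hφ hW ε x hε hx0)
    have h1 : ContDiffAt ℝ 2 (fun x => chi (x / δ)) x :=
      chi_contDiff.contDiffAt.comp x (by fun_prop)
    exact Complex.ofRealCLM.contDiff.contDiffAt.comp x h1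

lemma hh_deriv (hφ : Mol φ) (hW : Continuous W) (hε : 0 < ε) (hδ : 0 < δ) (x : ℝ) :
    x * deriv (hh φ W ε δ) x =
      ((x / δ * deriv chi (x / δ) : ℝ) : ℂ) * mA φ W ε x + (chi (x / δ) : ℂ) * mB φ W ε x := by
  by_cases hx : x < δ / 2
  · have h1 : deriv (hh φ W ε δ) x = 0 := by
      have : hh φ W ε δ =ᶠ[𝓝 x] fun _ => 0 := by
        filter_upwards [gt_mem_nhds hx] with z hz
        exact hh_zero hδ hz.le
      rw [this.deriv_eq]
      simp
    have h2 : x / δ ≤ 1 / 2 := by rw [div_le_iff₀ hδ]; linarith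
    rw [h1, chi_zero h2, chi_deriv_of_le h2]
    simp
  · have hx0 : 0 < x := by linarith
    have h0 : HasDerivAt (fun x : ℝ => x / δ) (1 / δ) x := (hasDerivAt_id x).div_const δ
    have h1 : HasDerivAt (fun x => chi (x / δ)) (deriv chi (x / δ) * (1 / δ)) x :=
      HasDerivAt.comp (h₂ := chi) (h := fun x => x / δ) x (chi_hasDerivAt (x / δ)) h0
    have h2 := h1.ofReal_comp.mul (mA_hasDerivAt hφ hW ε x hε hx0)
    have h3 : deriv (hh φ W ε δ) x = _ := h2.deriv
    rw [h3]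
    have hx' : (x : ℂ) ≠ 0 := by exact_mod_cast hx0.ne'
    have hδ' : (δ : ℂ) ≠ 0 := by exact_mod_cast hδ.ne'
    push_cast
    field_simp

/-- radial profile in the variable `v = ‖ζ‖ ^ 2` -/
noncomputable def XX (φ : ℝ → ℝ) (W : ℝ → ℂ) (ε δ c v : ℝ) : ℂ :=
  (chi (v / (1 - c) ^ 2) : ℂ) * hh φ W ε δ (1 - √v)

variable {c : ℝ}

lemma XX_zero {v : ℝ} (hc : c < 1) (hv : v ≤ (1 - c) ^ 2 / 2) : XX φ W ε δ c v = 0 := by
  have h1c : 0 < 1 - c := by linarith
  unfold XX
  rw [chi_zero]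
  · simp
  · rw [div_le_iff₀ (by positivity)]; linarith

lemma XX_eq {v : ℝ} (hc : c < 1) (hv : (1 - c) ^ 2 ≤ v) : XX φ W ε δ c v = hh φ W ε δ (1 - √v) := by
  have h1c : 0 < 1 - c := by linarith
  unfold XX
  rw [chi_one]
  · simp
  · rw [le_div_iff₀ (by positivity)]; linarith

lemma XX_contDiff (hφ : Mol φ) (hW : Continuous W) (hε : 0 < ε) (hδ : 0 < δ) (hc : c < 1) :
    ContDiff ℝ 2 (XX φ W ε δ c) := by
  have h1c : 0 < 1 - c := by linarith
  rw [contDiff_iff_contDiffAt]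
  intro v
  by_cases hv : v < (1 - c) ^ 2 / 2
  · apply (contDiffAt_const (c := (0 : ℂ))).congr_of_eventuallyEq
    filter_upwards [gt_mem_nhds hv] with z hz
    exact XX_zero hc hz.le
  · have hv0 : 0 < v := by
      have : 0 < (1 - c) ^ 2 := by positivity
      linarith
    unfold XX
    apply ContDiffAt.mul
    · have h1 : ContDiffAt ℝ 2 (fun v => chi (v / (1 - c) ^ 2)) v :=
        chi_contDiff.contDiffAt.comp v (by fun_prop)
      exact Complex.ofRealCLM.contDiff.contDiffAt.comp v h1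
    · apply (hh_contDiff hφ hW hε hδ).contDiffAt.comp v
      exact contDiffAt_const.sub (Real.contDiffAt_sqrt hv0.ne')

lemma XX_far {v : ℝ} (hδ : 0 < δ) (hv : (1 - δ / 2) ^ 2 ≤ v) :
    XX φ W ε δ c v = 0 := by
  unfold XX
  have h1 : 1 - δ / 2 ≤ √v := by
    apply Real.le_sqrt_of_sq_le hv
  rw [hh_zero hδ (by linarith)]
  simp

/-- approximating function and its `dbar` -/
noncomputable def ff (φ : ℝ → ℝ) (W : ℝ → ℂ) (ε δ c : ℝ) (k : ℤ) : ℂ → ℂ := P k (XX φ W ε δ c)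

noncomputable def GG (φ : ℝ → ℝ) (W : ℝ → ℂ) (ε δ c : ℝ) (k : ℤ) : ℂ → ℂ :=
  P (k + 1) (deriv (XX φ W ε δ c))

lemma ff_contDiff (hφ : Mol φ) (hW : Continuous W) (hε : 0 < ε) (hδ : 0 < δ) (hc : c < 1) (k : ℤ) :
    ContDiff ℝ 1 (ff φ W ε δ c k) := by
  have h1c : 0 < 1 - c := by linarith
  exact P_contDiff (n := 1) (v0 := (1 - c) ^ 2 / 2) (by positivity) (fun v hv => XX_zero hc hv)
    ((XX_contDiff hφ hW hε hδ hc).of_le (by norm_num))

lemma XX'_zero {v : ℝ} (hc : c < 1) (hv : v ≤ (1 - c) ^ 2 / 4) :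
    deriv (XX φ W ε δ c) v = 0 := by
  have h1c : 0 < 1 - c := by linarith
  have h2 : 0 < (1 - c) ^ 2 := by positivity
  have : XX φ W ε δ c =ᶠ[𝓝 v] fun _ => 0 := by
    filter_upwards [gt_mem_nhds (by linarith : v < (1 - c) ^ 2 / 2)] with z hz
    exact XX_zero hc hz.le
  rw [this.deriv_eq]
  simp

lemma GG_contDiff (hφ : Mol φ) (hW : Continuous W) (hε : 0 < ε) (hδ : 0 < δ) (hc : c < 1) (k : ℤ) :
    ContDiff ℝ 1 (GG φ W ε δ c k) := by
  have h1c : 0 < 1 - c := by linarith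
  have h2 : ContDiff ℝ 1 (deriv (XX φ W ε δ c)) := by
    have := XX_contDiff (c := c) hφ hW hε hδ hc
    rw [show (2 : WithTop ℕ∞) = 1 + 1 by norm_num, contDiff_succ_iff_deriv] at this
    exact this.2.2
  exact P_contDiff (n := 1) (v0 := (1 - c) ^ 2 / 4) (by positivity) (fun v hv => XX'_zero hc hv) h2

lemma ff_dbar (hφ : Mol φ) (hW : Continuous W) (hε : 0 < ε) (hδ : 0 < δ) (hc : c < 1) (k : ℤ)
    (ζ : ℂ) : fderiv ℝ (ff φ W ε δ c k) ζ 1 + I * fderiv ℝ (ff φ W ε δ c k) ζ I =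
      2 * GG φ W ε δ c k ζ := by
  have h1c : 0 < 1 - c := by linarith
  exact P_dbar (v0 := (1 - c) ^ 2 / 2) (by positivity) (fun v hv => XX_zero hc hv)
    (fun v => ((XX_contDiff hφ hW hε hδ hc).differentiable (by norm_num) v).hasDerivAt) ζ

lemma ff_rot (hφ : Mol φ) (hW : Continuous W) (hε : 0 < ε) (hδ : 0 < δ) (hc : c < 1) (k : ℤ)
    (ζ : ℂ) : fderiv ℝ (ff φ W ε δ c k) ζ (I * ζ) = I * ((k : ℝ) : ℂ) * ff φ W ε δ c k ζ :=
  rot_deriv ((ff_contDiff hφ hW hε hδ hc k).differentiable (by norm_num)) k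
    (fun ψ ζ => P_rot ψ ζ) ζ

lemma GG_rot (hφ : Mol φ) (hW : Continuous W) (hε : 0 < ε) (hδ : 0 < δ) (hc : c < 1) (k : ℤ)
    (ζ : ℂ) : fderiv ℝ (GG φ W ε δ c k) ζ (I * ζ) =
      I * (((k + 1 : ℤ) : ℝ) : ℂ) * GG φ W ε δ c k ζ :=
  rot_deriv ((GG_contDiff hφ hW hε hδ hc k).differentiable (by norm_num)) (k + 1)
    (fun ψ ζ => P_rot ψ ζ) ζ

lemma ff_eq (hc : c < 1) (k : ℤ) (ζ : ℂ) (hζ : 1 - c ≤ ‖ζ‖) :
    ff φ W ε δ c k ζ = ζ ^ k * hh φ W ε δ (1 - ‖ζ‖) := by
  have h1c : 0 < 1 - c := by linarith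
  unfold ff P
  rw [XX_eq hc (by gcongr), Real.sqrt_sq (norm_nonneg ζ)]

lemma GG_far (k : ℤ) (ζ : ℂ) (hδ : 0 < δ) (hδ2 : δ ≤ 2) (hζ : 1 - δ / 2 < ‖ζ‖) :
    GG φ W ε δ c k ζ = 0 := by
  unfold GG P
  have h1 : (1 - δ / 2) ^ 2 < ‖ζ‖ ^ 2 := by
    apply pow_lt_pow_left₀ hζ (by linarith) (by norm_num)
  have : XX φ W ε δ c =ᶠ[𝓝 (‖ζ‖ ^ 2)] fun _ => 0 := by
    filter_upwards [lt_mem_nhds h1] with z hz
    exact XX_far hδ hz.le
  rw [this.deriv_eq]
  simp

end


noncomputable def gam (α β : ℝ) : ℝ := 1 - α * Real.cos β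

lemma continuous_gam (α : ℝ) : Continuous (gam α) := by
  unfold gam
  fun_prop

section

variable {α c : ℝ}

lemma gam_nonneg (hα : 0 < α) (hα1 : α ≤ 1) (β : ℝ) : 0 ≤ gam α β := by
  unfold gam
  have h1 := Real.abs_cos_le_one β
  have h2 := abs_le.mp h1
  nlinarith [h2.1, h2.2]

lemma gam_le (hα : 0 < α) (β : ℝ) : gam α β ≤ 1 + α := by
  unfold gam
  have h1 := Real.abs_cos_le_one β
  have h2 := abs_le.mp h1
  nlinarith [h2.1, h2.2]

/-- lower bound of the weight -/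
lemma gam_lower (hα : 0 < α) (hα1 : α ≤ 1) (β : ℝ) (hβ : |β| ≤ π) : (β / π) ^ 2 ≤ gam α β := by
  have hc := Real.abs_cos_le_one β
  have hc' := abs_le.mp hc
  have h1 : (1 - Real.cos β) / 2 ≤ gam α β := by
    unfold gam
    rcases le_total 0 (Real.cos β) with h | h
    · nlinarith [hc'.2]
    · nlinarith [hc'.1]
  have h2 := Real.cos_le_one_sub_mul_cos_sq hβ
  have h3 : (β / π) ^ 2 = β ^ 2 / π ^ 2 := by rw [div_pow]
  have h4 : 1 - Real.cos β ≥ 2 / π ^ 2 * β ^ 2 := by linarith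
  rw [h3]
  have h5 : 2 / π ^ 2 * β ^ 2 = 2 * (β ^ 2 / π ^ 2) := by ring
  rw [h5] at h4
  linarith

lemma mem_yc (hα : 0 < α) {y : ℝ} (hy : y ∈ Icc 0 (c / (1 + α))) : y * (1 + α) ≤ c := by
  have h := hy.2
  rwa [le_div_iff₀ (by linarith)] at h

lemma Om_sub (hα : 0 < α) (hc1 : c < 1) : Icc 0 (c / (1 + α)) ⊆ Om α := by
  intro y hy
  have h1 := mem_yc hα hy
  show |α * y| < 1 - y
  rw [abs_of_nonneg (mul_nonneg hα.le hy.1)]
  linarith

lemma one_sub_zeta {y : ℝ} (hy : y ∈ Om α) (β : ℝ) :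
    1 - ‖((1 - y : ℝ) : ℂ) + ((α * y : ℝ) : ℂ) * xi (cy α y) β‖ = y * gam α β := by
  rw [norm_zeta hy]
  unfold gam
  ring

lemma norm_circle_le {ρ r : ℝ} (hρ : 0 ≤ ρ) (hr : 0 ≤ r) (t : ℝ) :
    ‖(ρ : ℂ) + (r : ℂ) * e t‖ ≤ ρ + r := by
  calc _ ≤ ‖(ρ : ℂ)‖ + ‖(r : ℂ) * e t‖ := norm_add_le _ _
    _ = ρ + r := by
      rw [norm_mul, norm_e, mul_one, Complex.norm_real, Complex.norm_real, Real.norm_eq_abs,
        Real.norm_eq_abs, abs_of_nonneg hρ, abs_of_nonneg hr]

lemma le_norm_circle {ρ r : ℝ} (hρ : 0 ≤ ρ) (hr : 0 ≤ r) (t : ℝ) :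
    ρ - r ≤ ‖(ρ : ℂ) + (r : ℂ) * e t‖ := by
  have h1 : ‖(ρ : ℂ)‖ - ‖-((r : ℂ) * e t)‖ ≤ ‖(ρ : ℂ) - -((r : ℂ) * e t)‖ :=
    norm_sub_norm_le _ _
  rw [norm_neg, norm_mul, norm_e, mul_one, Complex.norm_real, Complex.norm_real, Real.norm_eq_abs,
        Real.norm_eq_abs, abs_of_nonneg hρ, abs_of_nonneg hr, sub_neg_eq_add] at h1
  exact h1

lemma Z_eq (l0 l1 y θ t : ℝ) : Z l0 l1 y θ t =
    ((1 - y : ℝ) : ℂ) + (((l0 + l1 * y) * θ : ℝ) : ℂ) * e t := by
  unfold Z
  push_cast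
  ring

/-- circle integrals of equivariant functions through the kernel -/
lemma Q_eq_Ps (hα : 0 < α) (hα1 : α ≤ 1) (hc1 : c < 1) (k : ℤ) (F : ℂ → ℂ) (V : ℝ → ℂ)
    (hFV : ∀ ζ : ℂ, 1 - c ≤ ‖ζ‖ → ‖ζ‖ ≤ 1 → F ζ = ζ ^ k * V (1 - ‖ζ‖)) (hV : Continuous V)
    (y : ℝ) (hy : y ∈ Icc 0 (c / (1 + α))) :
    Q F 0 α e y 1 = Ps (kap k α) (gam α) V y y := by
  have hy1 := mem_yc hα hy
  have hyO := Om_sub hα hc1 hy
  have h1y : 0 ≤ 1 - y := (Om_pos hyO).le
  have hαy : 0 ≤ α * y := mul_nonneg hα.le hy.1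
  set Φ : ℂ → ℂ := fun ξ => (((1 - y : ℝ) : ℂ) + ((α * y : ℝ) : ℂ) * ξ) ^ k *
    V (1 - ‖((1 - y : ℝ) : ℂ) + ((α * y : ℝ) : ℂ) * ξ‖) * ξ with hΦ
  have hlow : ∀ t : ℝ, 1 - c ≤ ‖((1 - y : ℝ) : ℂ) + ((α * y : ℝ) : ℂ) * e t‖ := by
    intro t
    refine le_trans ?_ (le_norm_circle h1y hαy t)
    linarith
  have hne : ∀ t : ℝ, ((1 - y : ℝ) : ℂ) + ((α * y : ℝ) : ℂ) * e t ≠ 0 := by
    intro t
    rw [← norm_pos_iff]
    linarith [hlow t]
  have hΦc : Continuous fun t : ℝ => Φ (e t) := by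
    have he := continuous_e
    simp only [hΦ]
    apply Continuous.mul _ he
    apply Continuous.mul
    · apply Continuous.zpow₀ (by fun_prop)
      intro t
      exact Or.inl (hne t)
    · fun_prop
  have h1 := integral_reparam (cy_bound hyO) Φ hΦc
  unfold Q Ps
  have h2 : (∫ t in (0 : ℝ)..2 * π, F (Z 0 α y 1 t) * e t) = ∫ t in (0 : ℝ)..2 * π, Φ (e t) := by
    apply intervalIntegral.integral_congr
    intro t _
    simp only [hΦ]
    rw [Z_eq, zero_add, mul_one, hFV _ (hlow t)]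
    refine (norm_circle_le h1y hαy t).trans ?_
    nlinarith [hy.1]
  rw [h2, h1]
  apply intervalIntegral.integral_congr
  intro β _
  simp only [hΦ]
  rw [one_sub_zeta hyO]
  unfold kap
  ring

/-- derivative along the cone -/
lemma tau_deriv (k : ℤ) (h : ℝ → ℂ) (hh1 : ContDiff ℝ 1 h) (y : ℝ) (hy : y ∈ Om α) :
    HasDerivAt (fun y => Ps (kap k α) (gam α) h y y)
      (∫ β in (-π)..π, (kap' k α y β * h (y * gam α β) +
        kap k α y β * (deriv h (y * gam α β) * gam α β))) y := by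
  unfold Ps
  have hγ := continuous_gam α
  have hc := hh1.continuous
  have hc' := hh1.continuous_deriv le_rfl
  apply hasDerivAt_param_loc (-π) π (Om α) (Om_open α)
    (fun y β => kap k α y β * h (y * gam α β))
    (fun y β => kap' k α y β * h (y * gam α β) +
        kap k α y β * (deriv h (y * gam α β) * gam α β)) _ _ _ y hy
  · intro y hy
    exact (cont_slice (κ := kap k α) (continuousOn_kap k α) y hy).mul (by fun_prop)
  · apply ContinuousOn.add
    · exact (continuousOn_kap' k α).mul (by fun_prop)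
    · exact (continuousOn_kap k α).mul (by fun_prop)
  · intro y hy β
    have h1 : HasDerivAt (fun y : ℝ => h (y * gam α β)) (deriv h (y * gam α β) * gam α β) y := by
      have h2 : HasDerivAt h (deriv h (y * gam α β)) (y * gam α β) :=
        (hh1.differentiable (by norm_num) _).hasDerivAt
      have h3 : HasDerivAt (fun y : ℝ => y * gam α β) (gam α β) y := by
        have := (hasDerivAt_id y).mul_const (gam α β)
        rw [one_mul] at this
        exact this
      have h4 := h2.scomp y h3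
      rw [Complex.real_smul, mul_comm] at h4
      exact h4
    exact (hasDerivAt_kap k α y β hy).mul h1

/-- integrals supported on a short arc -/
lemma arc_bound (hα : 0 < α) (hα1 : α ≤ 1) (F : ℝ → ℂ) (hF : Continuous F) (C δ y : ℝ)
    (hδ : 0 < δ) (hy : 0 < y) (hC : 0 ≤ C) (hFC : ∀ β, |β| ≤ π → ‖F β‖ ≤ C)
    (hF0 : ∀ β, δ ≤ y * gam α β → F β = 0) :
    ‖∫ β in (-π)..π, F β‖ ≤ 2 * π * √(δ / y) * C := by
  have hπ := Real.pi_pos
  set b : ℝ := π * √(δ / y) with hb
  have hb0 : 0 < b := by rw [hb]; positivity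
  have hzero : ∀ β, b ≤ |β| → |β| ≤ π → F β = 0 := by
    intro β h1 h2
    apply hF0
    have h3 := gam_lower hα hα1 β h2
    have h4 : δ / y ≤ (β / π) ^ 2 := by
      have h5 : √(δ / y) ≤ |β / π| := by
        rw [abs_div, abs_of_pos hπ, le_div_iff₀ hπ, mul_comm]
        exact h1
      calc δ / y = √(δ / y) ^ 2 := (Real.sq_sqrt (by positivity)).symm
        _ ≤ |β / π| ^ 2 := by gcongr
        _ = (β / π) ^ 2 := sq_abs _
    rw [div_le_iff₀ hy] at h4
    nlinarith
  rw [show 2 * π * √(δ / y) * C = C * (2 * b) by rw [hb]; ring]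
  rcases le_total π b with h | h
  · have h1 : ‖∫ β in (-π)..π, F β‖ ≤ C * |π - -π| := by
      apply intervalIntegral.norm_integral_le_of_norm_le_const
      intro β hβ
      rw [uIoc_of_le (by linarith)] at hβ
      exact hFC β (abs_le.mpr ⟨hβ.1.le, hβ.2⟩)
    refine h1.trans (mul_le_mul_of_nonneg_left ?_ hC)
    rw [abs_of_pos (by linarith)]
    linarith
  · have hint : ∀ a b : ℝ, IntervalIntegrable F volume a b := fun a b => hF.intervalIntegrable _ _
    rw [← intervalIntegral.integral_add_adjacent_intervals (hint (-π) (-b)) (hint (-b) π),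
      ← intervalIntegral.integral_add_adjacent_intervals (hint (-b) b) (hint b π)]
    have h1 : ∫ β in (-π)..(-b), F β = 0 := by
      rw [intervalIntegral.integral_congr (g := fun _ => 0)]
      · simp
      · intro β hβ
        rw [uIcc_of_le (by linarith)] at hβ
        apply hzero β
        · rw [abs_of_nonpos (by linarith [hβ.2])]; linarith [hβ.2]
        · rw [abs_of_nonpos (by linarith [hβ.2])]; linarith [hβ.1]
    have h2 : ∫ β in b..π, F β = 0 := by
      rw [intervalIntegral.integral_congr (g := fun _ => 0)]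
      · simp
      · intro β hβ
        rw [uIcc_of_le (by linarith)] at hβ
        apply hzero β
        · rw [abs_of_nonneg (by linarith [hβ.1])]; linarith [hβ.1]
        · rw [abs_of_nonneg (by linarith [hβ.1])]; linarith [hβ.2]
    rw [h1, h2, zero_add, add_zero]
    have h3 : ‖∫ β in (-b)..b, F β‖ ≤ C * |b - -b| := by
      apply intervalIntegral.norm_integral_le_of_norm_le_const
      intro β hβ
      rw [uIoc_of_le (by linarith)] at hβ
      exact hFC β (abs_le.mpr ⟨by linarith [hβ.1], by linarith [hβ.2]⟩)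
    refine h3.trans (mul_le_mul_of_nonneg_left ?_ hC)
    rw [abs_of_pos (by linarith)]
    linarith

end


section

variable {α c : ℝ} {φ : ℝ → ℝ} {W : ℝ → ℂ}

/-- the error term -/
noncomputable def Er (k : ℤ) (α : ℝ) (φ : ℝ → ℝ) (W : ℝ → ℂ) (ε δ y β : ℝ) : ℂ :=
  y * kap' k α y β * (((chi (y * gam α β / δ) - 1 : ℝ) : ℂ) * mA φ W ε (y * gam α β)) +
    kap k α y β * (((y * gam α β / δ * deriv chi (y * gam α β / δ) : ℝ) : ℂ) *
      mA φ W ε (y * gam α β) + ((chi (y * gam α β / δ) - 1 : ℝ) : ℂ) * mB φ W ε (y * gam α β))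

lemma slice_kap (k : ℤ) (y : ℝ) (hy : y ∈ Om α) : Continuous (kap k α y) :=
  cont_slice (κ := kap k α) (continuousOn_kap k α) y hy

lemma slice_kap' (k : ℤ) (y : ℝ) (hy : y ∈ Om α) : Continuous (kap' k α y) :=
  cont_slice (κ := kap' k α) (continuousOn_kap' k α) y hy

lemma continuous_Er (k : ℤ) (hφ : Mol φ) (hW : Continuous W) (ε δ y : ℝ) (hy : y ∈ Om α) :
    Continuous (Er k α φ W ε δ y) := by
  unfold Er
  have h1 := slice_kap k y hy
  have h2 := slice_kap' k y hy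
  have h3 := continuous_gam α
  have h4 := continuous_mA hφ hW ε
  have h5 := continuous_mB hφ hW ε
  have h6 := chi_cont_deriv
  have h7 : Continuous chi := chi_contDiff.continuous
  have h8 : Continuous fun β => (((chi (y * gam α β / δ) - 1 : ℝ) : ℂ)) := by fun_prop
  have h9 : Continuous fun β => ((y * gam α β / δ * deriv chi (y * gam α β / δ) : ℝ) : ℂ) := by
    fun_prop
  fun_prop

lemma tau'_eq (k : ℤ) (hφ : Mol φ) (hW : Continuous W) (ε δ y : ℝ) (hε : 0 < ε) (hδ : 0 < δ)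
    (hy0 : 0 < y) (hy : y ∈ Om α) :
    (y : ℂ) * (∫ β in (-π)..π, (kap' k α y β * hh φ W ε δ (y * gam α β) +
        kap k α y β * (deriv (hh φ W ε δ) (y * gam α β) * gam α β))) =
      y * T1 (kap k α) (kap' k α) (gam α) W φ ε y + ∫ β in (-π)..π, Er k α φ W ε δ y β := by
  have h1 := slice_kap k y hy
  have h2 := slice_kap' k y hy
  have h3 := continuous_gam α
  have h4 := continuous_mA hφ hW ε
  have h5 := continuous_mB hφ hW ε
  have hT : (y : ℂ) * T1 (kap k α) (kap' k α) (gam α) W φ ε y =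
      ∫ β in (-π)..π, (y * kap' k α y β * mA φ W ε (y * gam α β) +
        kap k α y β * mB φ W ε (y * gam α β)) := by
    unfold T1
    rw [← mA_fubini φ hφ.cont hW h3 ε y h2, ← mA_fubini (deriv φ) hφ.cont_deriv hW h3 ε y h1]
    rw [intervalIntegral.integral_add (by apply Continuous.intervalIntegrable; fun_prop)
      (by apply Continuous.intervalIntegrable; fun_prop)]
    rw [mul_add]
    congr 1
    · rw [← intervalIntegral.integral_const_mul]
      apply intervalIntegral.integral_congr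
      intro β _
      simp only [mA]
      ring
    · rw [← mul_assoc, ← intervalIntegral.integral_const_mul]
      apply intervalIntegral.integral_congr
      intro β _
      simp only [mB]
      have hy' : (y : ℂ) ≠ 0 := by exact_mod_cast hy0.ne'
      have hε' : (ε : ℂ) ≠ 0 := by exact_mod_cast hε.ne'
      push_cast
      field_simp
  have hEi : IntervalIntegrable (Er k α φ W ε δ y) volume (-π) π :=
    (continuous_Er k hφ hW ε δ y hy).intervalIntegrable _ _
  rw [hT, ← intervalIntegral.integral_add (by apply Continuous.intervalIntegrable; fun_prop) hEi,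
    ← intervalIntegral.integral_const_mul]
  apply intervalIntegral.integral_congr
  intro β _
  simp only
  have h6 := hh_deriv hφ hW hε hδ (y * gam α β)
  unfold Er
  have h7 : (y : ℂ) * (kap' k α y β * hh φ W ε δ (y * gam α β) +
      kap k α y β * (deriv (hh φ W ε δ) (y * gam α β) * (gam α β : ℂ))) =
      y * kap' k α y β * hh φ W ε δ (y * gam α β) +
      kap k α y β * (((y * gam α β : ℝ) : ℂ) * deriv (hh φ W ε δ) (y * gam α β)) := by
    push_cast
    ring
  rw [h7, h6]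
  unfold hh
  push_cast
  ring

lemma Er_bound (k : ℤ) (hα : 0 < α) (hα1 : α ≤ 1) (hφ : Mol φ) (hW : Continuous W)
    (ε δ y Kb ω Cχ : ℝ) (hε : 0 < ε) (hδ : 0 < δ) (hy0 : 0 < y) (hy1 : y ≤ 1) (hy : y ∈ Om α)
    (hK : ∀ β, |β| ≤ π → ‖kap k α y β‖ ≤ Kb) (hK' : ∀ β, |β| ≤ π → ‖kap' k α y β‖ ≤ Kb)
    (hω : ∀ z, 0 ≤ z → z ≤ δ → ‖W z‖ ≤ ω) (hCχ : ∀ x, 0 ≤ x → |x * deriv chi x| ≤ Cχ) :
    ‖∫ β in (-π)..π, Er k α φ W ε δ y β‖ ≤ 2 * π * √(δ / y) *
      (Kb * ω * (1 + Cχ + 1 / ε * ∫ σ in (0 : ℝ)..1, |deriv φ σ|)) := by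
  have hω0 : 0 ≤ ω := (norm_nonneg _).trans (hω 0 le_rfl hδ.le)
  have hKb0 : 0 ≤ Kb := (norm_nonneg _).trans (hK 0 (by simpa using Real.pi_pos.le))
  have hCχ0 : 0 ≤ Cχ := (abs_nonneg _).trans (hCχ 0 le_rfl)
  have hB0 : 0 ≤ ∫ σ in (0 : ℝ)..1, |deriv φ σ| :=
    intervalIntegral.integral_nonneg zero_le_one fun σ _ => abs_nonneg _
  set Bφ := ∫ σ in (0 : ℝ)..1, |deriv φ σ| with hBφ
  have hγ0 := gam_nonneg hα hα1
  apply arc_bound hα hα1 _ (continuous_Er k hφ hW ε δ y hy) _ δ y hδ hy0 (by positivity)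
  · intro β hβ
    set x := y * gam α β with hx
    have hx0 : 0 ≤ x := mul_nonneg hy0.le (hγ0 β)
    by_cases hxδ : x ≤ δ
    · have h1 := mA_bound hφ ε x δ ω hε hx0 hxδ hω
      have h2 := mB_bound hφ ε x δ ω hε hx0 hxδ hω
      have h3 : ‖((chi (x / δ) - 1 : ℝ) : ℂ)‖ ≤ 1 := by
        rw [Complex.norm_real, Real.norm_eq_abs, abs_le]
        constructor
        · linarith [chi_nonneg (x / δ)]
        · linarith [chi_le_one (x / δ)]
      have h4 : ‖((x / δ * deriv chi (x / δ) : ℝ) : ℂ)‖ ≤ Cχ := by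
        rw [Complex.norm_real, Real.norm_eq_abs]
        exact hCχ _ (by positivity)
      have h5 := hK β hβ
      have h6 := hK' β hβ
      have h7 : ‖(y : ℂ)‖ ≤ 1 := by
        rw [Complex.norm_real, Real.norm_eq_abs, abs_of_pos hy0]
        exact hy1
      unfold Er
      rw [← hx]
      calc _ ≤ ‖(y : ℂ) * kap' k α y β * (((chi (x / δ) - 1 : ℝ) : ℂ) * mA φ W ε x)‖ +
            ‖kap k α y β * (((x / δ * deriv chi (x / δ) : ℝ) : ℂ) * mA φ W ε x +
              ((chi (x / δ) - 1 : ℝ) : ℂ) * mB φ W ε x)‖ := norm_add_le _ _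
        _ ≤ 1 * Kb * (1 * ω) + Kb * (Cχ * ω + 1 * (1 / ε * (Bφ * ω))) := by
            rw [norm_mul, norm_mul, norm_mul, norm_mul]
            gcongr
            refine (norm_add_le _ _).trans ?_
            rw [norm_mul, norm_mul]
            gcongr
        _ = _ := by ring
    · have h1 : (1 : ℝ) ≤ x / δ := by
        rw [le_div_iff₀ hδ]; linarith
      have h2 : Er k α φ W ε δ y β = 0 := by
        unfold Er
        rw [← hx, chi_one h1, chi_deriv_of_one_le h1]
        simp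
      rw [h2, norm_zero]
      positivity
  · intro β hβ
    have h1 : (1 : ℝ) ≤ y * gam α β / δ := by
      rw [le_div_iff₀ hδ]; linarith
    unfold Er
    rw [chi_one h1, chi_deriv_of_one_le h1]
    simp

lemma tau_bound (k : ℤ) (hα : 0 < α) (hα1 : α ≤ 1) (hc1 : c < 1) (hφ : Mol φ) (hW : Continuous W)
    (hzero : ∀ x, 0 < x → x ≤ c / (1 + α) → Ps (kap k α) (gam α) W x x = 0)
    (ε δ y Kb ω M : ℝ) (hε : 0 < ε) (hδ : 0 < δ) (hy0 : 0 < y)
    (hy : y ≤ c / (1 + α))
    (hK : ∀ β, |β| ≤ π → ‖kap k α y β‖ ≤ Kb)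
    (hM : ∀ u x, u ∈ Icc 0 (c / (1 + α)) → x ∈ Icc 0 (c / (1 + α)) →
      ‖Ps (kap' k α) (gam α) W u x‖ ≤ M)
    (hω : ∀ z, 0 ≤ z → z ≤ δ → ‖W z‖ ≤ ω) :
    ‖Ps (kap k α) (gam α) (hh φ W ε δ) y y‖ ≤ M * y * ε + 2 * π * √(δ / y) * (Kb * ω) := by
  have hyc : y ∈ Icc 0 (c / (1 + α)) := ⟨hy0.le, hy⟩
  have hyO := Om_sub hα hc1 hyc
  have hω0 : 0 ≤ ω := (norm_nonneg _).trans (hω 0 le_rfl hδ.le)
  have hKb0 : 0 ≤ Kb := (norm_nonneg _).trans (hK 0 (by simpa using Real.pi_pos.le))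
  have hγ0 := gam_nonneg hα hα1
  have h1 := slice_kap k y hyO
  have h3 := continuous_gam α
  have h4 := continuous_mA hφ hW ε
  have h7 : Continuous chi := chi_contDiff.continuous
  have hcφ := hφ.cont
  have h8 : Continuous fun β => (((chi (y * gam α β / δ) - 1 : ℝ) : ℂ)) := by fun_prop
  have e1 : Ps (kap k α) (gam α) (hh φ W ε δ) y y =
      (∫ β in (-π)..π, kap k α y β * mA φ W ε (y * gam α β)) +
      ∫ β in (-π)..π, kap k α y β * (((chi (y * gam α β / δ) - 1 : ℝ) : ℂ) *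
        mA φ W ε (y * gam α β)) := by
    rw [← intervalIntegral.integral_add (by apply Continuous.intervalIntegrable; fun_prop)
      (by apply Continuous.intervalIntegrable; fun_prop)]
    unfold Ps hh
    apply intervalIntegral.integral_congr
    intro β _
    simp only
    push_cast
    ring
  have e2 : (∫ β in (-π)..π, kap k α y β * mA φ W ε (y * gam α β)) =
      ∫ σ in (0 : ℝ)..1, (φ σ : ℂ) * Ps (kap k α) (gam α) W y (y * Real.exp (-(ε * σ))) :=
    mA_fubini φ hφ.cont hW h3 ε y h1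
  have hM0 : 0 ≤ M := (norm_nonneg _).trans (hM y y hyc hyc)
  have b1 : ‖∫ σ in (0 : ℝ)..1, (φ σ : ℂ) *
      Ps (kap k α) (gam α) W y (y * Real.exp (-(ε * σ)))‖ ≤ M * y * ε := by
    calc _ ≤ ∫ σ in (0 : ℝ)..1, φ σ * (M * y * ε) := by
          apply intervalIntegral.norm_integral_le_of_norm_le zero_le_one
          · refine Eventually.of_forall fun σ hσ => ?_
            rw [norm_mul, Complex.norm_real, Real.norm_eq_abs, abs_of_nonneg (hφ.nonneg σ)]
            apply mul_le_mul_of_nonneg_left _ (hφ.nonneg σ)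
            have hexp := exp_neg_mem hε hσ
            set x := y * Real.exp (-(ε * σ)) with hx
            have hx0 : 0 < x := by rw [hx]; exact mul_pos hy0 hexp.1
            have hxy : x ≤ y := mul_le_of_le_one_right hy0.le hexp.2
            obtain ⟨hint, hftc⟩ := Ps_ftc (κ := kap k α) (κ' := kap' k α) (Om_open α)
              (Om_sub hα hc1) (continuousOn_kap k α)
              (continuousOn_kap' k α) (fun y hy t => hasDerivAt_kap k α y t hy) h3 hW x y hx0.le
              hxy hy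
            rw [hzero x hx0 (hxy.trans hy), sub_zero] at hftc
            rw [← hftc]
            have h9 : ‖∫ u in x..y, Ps (kap' k α) (gam α) W u x‖ ≤ M * |y - x| := by
              apply intervalIntegral.norm_integral_le_of_norm_le_const
              intro u hu
              rw [uIoc_of_le hxy] at hu
              exact hM u x ⟨hx0.le.trans hu.1.le, hu.2.trans hy⟩ ⟨hx0.le, hxy.trans hy⟩
            refine h9.trans ?_
            rw [abs_of_nonneg (by linarith), mul_assoc]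
            apply mul_le_mul_of_nonneg_left _ hM0
            have h5 := one_sub_exp_le (ε * σ)
            have h6 : ε * σ ≤ ε := mul_le_of_le_one_right hε.le hσ.2
            rw [hx]
            nlinarith
          · apply Continuous.intervalIntegrable; fun_prop
      _ = _ := by rw [intervalIntegral.integral_mul_const, hφ.int, one_mul]
  have b2 : ‖∫ β in (-π)..π, kap k α y β * (((chi (y * gam α β / δ) - 1 : ℝ) : ℂ) *
        mA φ W ε (y * gam α β))‖ ≤ 2 * π * √(δ / y) * (Kb * ω) := by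
    apply arc_bound hα hα1 _ (by fun_prop) _ δ y hδ hy0 (by positivity)
    · intro β hβ
      set x := y * gam α β with hx
      have hx0 : 0 ≤ x := mul_nonneg hy0.le (hγ0 β)
      by_cases hxδ : x ≤ δ
      · have h1 := mA_bound hφ ε x δ ω hε hx0 hxδ hω
        have h3 : ‖((chi (x / δ) - 1 : ℝ) : ℂ)‖ ≤ 1 := by
          rw [Complex.norm_real, Real.norm_eq_abs, abs_le]
          constructor
          · linarith [chi_nonneg (x / δ)]
          · linarith [chi_le_one (x / δ)]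
        rw [norm_mul, norm_mul]
        calc _ ≤ Kb * (1 * ω) := by
              have := hK β hβ
              gcongr
          _ = _ := by ring
      · have h1 : (1 : ℝ) ≤ x / δ := by
          rw [le_div_iff₀ hδ]; linarith
        rw [chi_one h1]
        simp
        positivity
    · intro β hβ
      have h1 : (1 : ℝ) ≤ y * gam α β / δ := by
        rw [le_div_iff₀ hδ]; linarith
      rw [chi_one h1]
      simp
  rw [e1, e2]
  exact (norm_add_le _ _).trans (add_le_add b1 b2)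

end


section

variable {α c : ℝ} {φ : ℝ → ℝ} {W : ℝ → ℂ}

lemma tau_hasDerivAt (hα : 0 < α) (hα1 : α ≤ 1) (hc1 : c < 1) (k : ℤ) (hφ : Mol φ)
    (hW : Continuous W) (ε δ y : ℝ) (hε : 0 < ε) (hδ : 0 < δ) (hy : y ∈ Ioo 0 (c / (1 + α))) :
    HasDerivAt (fun y => Q (ff φ W ε δ c k) 0 α e y 1)
      (∫ β in (-π)..π, (kap' k α y β * hh φ W ε δ (y * gam α β) +
        kap k α y β * (deriv (hh φ W ε δ) (y * gam α β) * gam α β))) y := by
  have h2 := hh_contDiff hφ hW hε hδ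
  have h1 := tau_deriv k (hh φ W ε δ) (h2.of_le (by norm_num)) y
    (Om_sub hα hc1 (Ioo_subset_Icc_self hy))
  apply h1.congr_of_eventuallyEq
  filter_upwards [Ioo_mem_nhds hy.1 hy.2] with z hz
  exact Q_eq_Ps hα hα1 hc1 k _ _ (fun ζ h _ => ff_eq hc1 k ζ h) h2.continuous z
    (Ioo_subset_Icc_self hz)

lemma D_bound (hα : 0 < α) (hα1 : α ≤ 1) (hc1 : c < 1) (k : ℤ) (hφ : Mol φ)
    (hW : Continuous W)
    (hzero : ∀ x, 0 < x → x ≤ c / (1 + α) → Ps (kap k α) (gam α) W x x = 0)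
    (ε δ y Kb ω M Cχ t1 : ℝ) (hε : 0 < ε) (hδ : 0 < δ) (hy : y ∈ Ioo 0 (c / (1 + α)))
    (hK : ∀ β, |β| ≤ π → ‖kap k α y β‖ ≤ Kb) (hK' : ∀ β, |β| ≤ π → ‖kap' k α y β‖ ≤ Kb)
    (hM : ∀ u x, u ∈ Icc 0 (c / (1 + α)) → x ∈ Icc 0 (c / (1 + α)) →
      ‖Ps (kap' k α) (gam α) W u x‖ ≤ M)
    (hω : ∀ z, 0 ≤ z → z ≤ δ → ‖W z‖ ≤ ω) (hCχ : ∀ x, 0 ≤ x → |x * deriv chi x| ≤ Cχ)
    (hT : ‖T1 (kap k α) (kap' k α) (gam α) W φ ε y‖ ≤ t1) :
    ‖2 * (α * Q (GG φ W ε δ c k) 0 α (fun _ => 1) y 1 - Q (GG φ W ε δ c k) 0 α e y 1)‖ ≤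
      t1 + (1 + |((k + 1 : ℤ) : ℝ)| / (1 - c / (1 + α))) * M * ε +
      2 * π * (Kb * (1 + Cχ + 1 / ε * ∫ σ in (0 : ℝ)..1, |deriv φ σ|) +
        (1 + |((k + 1 : ℤ) : ℝ)| / (1 - c / (1 + α))) * Kb) * ω * (√(δ / y) / y) := by
  have hyI : y ∈ Icc 0 (c / (1 + α)) := Ioo_subset_Icc_self hy
  have hyO := Om_sub hα hc1 hyI
  have hy0 := hy.1
  have h1y : 0 < 1 - y := Om_pos hyO
  have hyc1 : c / (1 + α) < 1 := by
    rw [div_lt_one (by linarith)]
    linarith
  have h1yc : 0 < 1 - c / (1 + α) := by linarith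
  set m : ℝ := ((k + 1 : ℤ) : ℝ) with hm
  set m' := 1 + |m| / (1 - c / (1 + α)) with hm'
  have hmk : (m - 1 : ℝ) = (k : ℝ) := by rw [hm]; push_cast; ring
  have h2D := two_D (m := m) (ff_contDiff hφ hW hε hδ hc1 k) (GG_contDiff hφ hW hε hδ hc1 k)
    (ff_dbar hφ hW hε hδ hc1 k) (by rw [hmk]; exact ff_rot hφ hW hε hδ hc1 k) α y hα hy0
    (by linarith) _ (tau_hasDerivAt hα hα1 hc1 k hφ hW ε δ y hε hδ hy)
  set τ' := ∫ β in (-π)..π, (kap' k α y β * hh φ W ε δ (y * gam α β) +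
        kap k α y β * (deriv (hh φ W ε δ) (y * gam α β) * gam α β)) with hτ'
  have hτ : Q (ff φ W ε δ c k) 0 α e y 1 = Ps (kap k α) (gam α) (hh φ W ε δ) y y :=
    Q_eq_Ps hα hα1 hc1 k _ _ (fun ζ h _ => ff_eq hc1 k ζ h)
      (hh_contDiff hφ hW hε hδ).continuous y hyI
  rw [hτ] at h2D
  have hτ'eq := tau'_eq k hφ hW ε δ y hε hδ hy0 hyO
  rw [← hτ'] at hτ'eq
  have hE := Er_bound k hα hα1 hφ hW ε δ y Kb ω Cχ hε hδ hy0 (by linarith) hyO hK hK' hω hCχ
  have hτb := tau_bound k hα hα1 hc1 hφ hW hzero ε δ y Kb ω M hε hδ hy0 hy.2.le hK hM hω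
  set τ := Ps (kap k α) (gam α) (hh φ W ε δ) y y with hτdef
  set D2 := 2 * (α * Q (GG φ W ε δ c k) 0 α (fun _ => 1) y 1 - Q (GG φ W ε δ c k) 0 α e y 1)
    with hD2
  have hyne : (y : ℂ) ≠ 0 := by exact_mod_cast hy0.ne'
  have h1yne : (1 : ℂ) - y ≠ 0 := by
    have : ((1 - y : ℝ) : ℂ) ≠ 0 := by exact_mod_cast h1y.ne'
    push_cast at this
    exact this
  have e1 : (y : ℂ) * D2 = y * T1 (kap k α) (kap' k α) (gam α) W φ ε y +
      (∫ β in (-π)..π, Er k α φ W ε δ y β) + (1 + y * m / (1 - y)) * τ := by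
    rw [h2D, mul_add, mul_add, hτ'eq]
    field_simp
    ring
  have hmb : ‖(1 + y * m / (1 - y) : ℂ)‖ ≤ m' := by
    have : (1 + y * m / (1 - y) : ℂ) = ((1 + y * m / (1 - y) : ℝ) : ℂ) := by push_cast; rfl
    rw [this, Complex.norm_real, Real.norm_eq_abs, hm']
    refine (abs_add_le _ _).trans ?_
    rw [abs_one]
    gcongr
    rw [abs_div, abs_of_pos h1y, abs_mul, abs_of_pos hy0]
    have : y * |m| ≤ |m| := mul_le_of_le_one_left (abs_nonneg _) (by linarith)
    apply div_le_div₀ (abs_nonneg _) this h1yc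
    linarith [hy.2]
  have hm'0 : 0 ≤ m' := by rw [hm']; positivity
  have hb : y * ‖D2‖ ≤ y * t1 + 2 * π * √(δ / y) *
      (Kb * ω * (1 + Cχ + 1 / ε * ∫ σ in (0 : ℝ)..1, |deriv φ σ|)) +
      m' * (M * y * ε + 2 * π * √(δ / y) * (Kb * ω)) := by
    have h3 : y * ‖D2‖ = ‖(y : ℂ) * D2‖ := by
      rw [norm_mul (y : ℂ) D2, Complex.norm_real, Real.norm_eq_abs, abs_of_pos hy0]
    rw [h3, e1]
    refine norm_add₃_le.trans ?_
    rw [norm_mul, norm_mul, Complex.norm_real, Real.norm_eq_abs, abs_of_pos hy0]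
    gcongr
  have h4 : ‖D2‖ ≤ (y * t1 + 2 * π * √(δ / y) *
      (Kb * ω * (1 + Cχ + 1 / ε * ∫ σ in (0 : ℝ)..1, |deriv φ σ|)) +
      m' * (M * y * ε + 2 * π * √(δ / y) * (Kb * ω))) / y := by
    rw [le_div_iff₀ hy0, mul_comm]
    exact hb
  refine h4.trans (le_of_eq ?_)
  field_simp
  ring

/-- energy estimate -/
lemma energy_bound (hα : 0 < α) (hα1 : α ≤ 1) (hc0 : 0 < c) (hc1 : c < 1) (k : ℤ) (hφ : Mol φ)
    (hW : Continuous W) (ε δ ω C2 η1 : ℝ) (hε : 0 < ε) (hδ : 0 < δ) (hδ2 : δ ≤ 2)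
    (hη1 : 0 ≤ η1) (hω0 : 0 ≤ ω) (hC2 : 0 ≤ C2)
    (hD : ∀ y ∈ Ioo 0 (c / (1 + α)),
      ‖2 * (α * Q (GG φ W ε δ c k) 0 α (fun _ => 1) y 1 - Q (GG φ W ε δ c k) 0 α e y 1)‖ ≤
      η1 + C2 * ω * (√(δ / y) / y)) (b : ℝ) (hb : b ∈ Icc 0 (c / (1 + α))) :
    En (GG φ W ε δ c k) 0 α b ≤
      Real.exp (2 * (|((k + 1 : ℤ) : ℝ)| + 1) / (1 - c / (1 + α))) *
        (η1 ^ 2 + 25 * C2 ^ 2 * ω ^ 2) := by
  have hyc1 : c / (1 + α) < 1 := by
    rw [div_lt_one (by linarith)]
    linarith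
  have h := En_cone (m := ((k + 1 : ℤ) : ℝ)) (GG_contDiff hφ hW hε hδ hc1 k)
    (GG_rot hφ hW hε hδ hc1 k) α (c / (1 + α)) hα hα1 hyc1
    (fun y => η1 ^ 2 * y - 25 * C2 ^ 2 * ω ^ 2 * δ / (y + δ))
    (fun y => η1 ^ 2 + 25 * C2 ^ 2 * ω ^ 2 * δ / (y + δ) ^ 2) ?_ ?_ b hb
  · refine h.trans (mul_le_mul_of_nonneg_left ?_ (Real.exp_pos _).le)
    simp only [mul_zero, zero_add, zero_sub, sub_neg_eq_add]
    have h1 : 25 * C2 ^ 2 * ω ^ 2 * δ / δ = 25 * C2 ^ 2 * ω ^ 2 := by field_simp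
    have h2 : 0 ≤ 25 * C2 ^ 2 * ω ^ 2 * δ / (b + δ) := by
      have := hb.1
      positivity
    have h3 : η1 ^ 2 * b ≤ η1 ^ 2 := mul_le_of_le_one_right (by positivity) (by linarith [hb.2])
    rw [h1]
    linarith
  · intro y hy
    have hyδ : y + δ ≠ 0 := by linarith [hy.1]
    have h1 : HasDerivAt (fun y : ℝ => y + δ) 1 y := (hasDerivAt_id y).add_const δ
    have h2 : HasDerivAt (fun y : ℝ => 25 * C2 ^ 2 * ω ^ 2 * δ / (y + δ))
        (-(25 * C2 ^ 2 * ω ^ 2 * δ / (y + δ) ^ 2)) y := by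
      have := (hasDerivAt_const y (25 * C2 ^ 2 * ω ^ 2 * δ)).div h1 hyδ
      convert! this using 1
      ring
    have h3 : HasDerivAt (fun y : ℝ => η1 ^ 2 * y) (η1 ^ 2) y := by
      have := (hasDerivAt_id y).const_mul (η1 ^ 2)
      rw [mul_one] at this
      exact this
    have h4 := h3.sub h2
    rw [sub_neg_eq_add] at h4
    exact h4
  · intro y hy
    have hy0 := hy.1
    have hH : 0 ≤ 25 * C2 ^ 2 * ω ^ 2 * δ / (y + δ) ^ 2 := by positivity
    by_cases hyδ : y < δ / 4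
    · -- the function vanishes
      have hz : ∀ t : ℝ, GG φ W ε δ c k (Z 0 α y 1 t) = 0 := by
        intro t
        apply GG_far k _ hδ hδ2
        rw [Z_eq, zero_add, mul_one]
        have h1 := le_norm_circle (ρ := 1 - y) (r := α * y) (by linarith [hy.2])
          (mul_nonneg hα.le hy0.le) t
        have h2 : α * y ≤ y := mul_le_of_le_one_left hy0.le hα1
        refine lt_of_lt_of_le ?_ h1
        linarith
      have h1 : Q (GG φ W ε δ c k) 0 α (fun _ => 1) y 1 = 0 := by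
        unfold Q
        simp [hz]
      have h2 : Q (GG φ W ε δ c k) 0 α e y 1 = 0 := by
        unfold Q
        simp [hz]
      rw [h1, h2]
      have h3 : 0 ≤ η1 ^ 2 + 25 * C2 ^ 2 * ω ^ 2 * δ / (y + δ) ^ 2 := by positivity
      simpa using h3
    · push Not at hyδ
      have h1 := hD y hy
      rw [norm_mul, Complex.norm_ofNat] at h1
      set X := ‖α * Q (GG φ W ε δ c k) 0 α (fun _ => 1) y 1 - Q (GG φ W ε δ c k) 0 α e y 1‖
        with hX
      have hX0 : 0 ≤ X := norm_nonneg _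
      have hs : (√(δ / y) / y) ^ 2 = δ / y ^ 3 := by
        rw [div_pow, Real.sq_sqrt (by positivity)]
        field_simp
      set s := √(δ / y) / y with hsdef
      have hs0 : 0 ≤ s := by positivity
      have h2 : (2 * X) ^ 2 ≤ 2 * (η1 ^ 2 + (C2 * ω * s) ^ 2) := by
        have h3 : (2 * X) ^ 2 ≤ (η1 + C2 * ω * s) ^ 2 := by gcongr
        nlinarith [sq_nonneg (η1 - C2 * ω * s)]
      have hy1 : y ≤ 1 := by linarith [hy.2]
      have h4 : (C2 * ω * s) ^ 2 = C2 ^ 2 * ω ^ 2 * (δ / y ^ 3) := by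
        rw [← hs]; ring
      have h5 : y / 2 * X ^ 2 ≤ y / 4 * η1 ^ 2 + 1 / 4 * (C2 ^ 2 * ω ^ 2 * (δ / y ^ 2)) := by
        have h6 : y / 2 * X ^ 2 = y / 8 * (2 * X) ^ 2 := by ring
        rw [h6]
        calc y / 8 * (2 * X) ^ 2 ≤ y / 8 * (2 * (η1 ^ 2 + (C2 * ω * s) ^ 2)) := by gcongr
          _ = _ := by
            rw [h4]
            field_simp
            ring
      have h7 : δ / y ^ 2 ≤ 25 * (δ / (y + δ) ^ 2) := by
        rw [mul_div_assoc', div_le_div_iff₀ (by positivity) (by positivity)]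
        have : y + δ ≤ 5 * y := by linarith
        have h8 : (y + δ) ^ 2 ≤ (5 * y) ^ 2 := by gcongr
        nlinarith
      have h9 : C2 ^ 2 * ω ^ 2 * (δ / y ^ 2) ≤ C2 ^ 2 * ω ^ 2 * (25 * (δ / (y + δ) ^ 2)) := by
        gcongr
      have h10 : C2 ^ 2 * ω ^ 2 * (25 * (δ / (y + δ) ^ 2)) =
          25 * C2 ^ 2 * ω ^ 2 * δ / (y + δ) ^ 2 := by ring
      rw [h10] at h9
      have h11 : y / 4 * η1 ^ 2 ≤ η1 ^ 2 := by
        have : 0 ≤ η1 ^ 2 := by positivity
        nlinarith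
      linarith

end


section

variable {α c : ℝ} {W : ℝ → ℂ}

lemma kap_bound (hα : 0 < α) (hc1 : c < 1) (k : ℤ) :
    ∃ Kb, ∀ y ∈ Icc 0 (c / (1 + α)), ∀ β, |β| ≤ π → ‖kap k α y β‖ ≤ Kb ∧ ‖kap' k α y β‖ ≤ Kb := by
  have hsub : Icc 0 (c / (1 + α)) ×ˢ Icc (-π) π ⊆ Om α ×ˢ univ :=
    prod_mono (Om_sub hα hc1) (subset_univ _)
  obtain ⟨C1, h1⟩ := ((isCompact_Icc (a := (0 : ℝ)) (b := c / (1 + α))).prod
    (isCompact_Icc (a := -π) (b := π))).exists_bound_of_continuousOn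
    ((continuousOn_kap k α).mono hsub)
  obtain ⟨C2, h2⟩ := ((isCompact_Icc (a := (0 : ℝ)) (b := c / (1 + α))).prod
    (isCompact_Icc (a := -π) (b := π))).exists_bound_of_continuousOn
    ((continuousOn_kap' k α).mono hsub)
  refine ⟨max C1 C2, fun y hy β hβ => ⟨?_, ?_⟩⟩
  · exact (h1 (y, β) ⟨hy, abs_le.mp hβ⟩).trans (le_max_left _ _)
  · exact (h2 (y, β) ⟨hy, abs_le.mp hβ⟩).trans (le_max_right _ _)

/-- approximation by smooth functions of small energy -/
lemma approx (hα : 0 < α) (hα1 : α ≤ 1) (hc0 : 0 < c) (hc1 : c < 1) (k : ℤ)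
    (hW : Continuous W) (hW0 : W 0 = 0)
    (hzero : ∀ x, 0 < x → x ≤ c / (1 + α) → Ps (kap k α) (gam α) W x x = 0)
    (μ : ℝ) (hμ : 0 < μ) :
    ∃ f G : ℂ → ℂ, ContDiff ℝ 1 f ∧ ContDiff ℝ 1 G ∧
      (∀ ζ, fderiv ℝ f ζ 1 + I * fderiv ℝ f ζ I = 2 * G ζ) ∧
      (∀ ζ, fderiv ℝ G ζ (I * ζ) = I * (((k + 1 : ℤ) : ℝ) : ℂ) * G ζ) ∧
      (∀ ζ : ℂ, 1 - c ≤ ‖ζ‖ → ‖ζ‖ ≤ 1 → ‖f ζ - ζ ^ k * W (1 - ‖ζ‖)‖ ≤ μ) ∧
      (∀ b ∈ Icc 0 (c / (1 + α)), En G 0 α b ≤ μ) := by
  obtain ⟨φ, hφ⟩ := exists_mol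
  obtain ⟨Kb0, hKb0⟩ := kap_bound hα hc1 k
  obtain ⟨Cχ, hCχ0, hCχ⟩ := chi_bound
  set yc := c / (1 + α) with hyc
  have hyc0 : 0 ≤ yc := by rw [hyc]; positivity
  have hyc1 : yc < 1 := by
    rw [hyc, div_lt_one (by linarith)]
    linarith
  have h1yc : 0 < 1 - yc := by linarith
  set Kb := max Kb0 0 with hKbdef
  have hKbn : 0 ≤ Kb := le_max_right _ _
  have hKb : ∀ y ∈ Icc 0 yc, ∀ β, |β| ≤ π → ‖kap k α y β‖ ≤ Kb ∧ ‖kap' k α y β‖ ≤ Kb :=
    fun y hy β hβ => ⟨(hKb0 y hy β hβ).1.trans (le_max_left _ _),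
      (hKb0 y hy β hβ).2.trans (le_max_left _ _)⟩
  have hγ := continuous_gam α
  have hOm := Om_sub (c := c) hα hc1
  have hPc : Continuous fun p : ℝ × ℝ => Ps (kap' k α) (gam α) W (cl yc p.1) p.2 :=
    continuous_Ps (κ := kap' k α) hyc0 hOm (continuousOn_kap' k α) hγ hW
  have hcomp : IsCompact (Icc 0 yc ×ˢ Icc 0 yc) := isCompact_Icc.prod isCompact_Icc
  obtain ⟨M0, hM0⟩ := hcomp.exists_bound_of_continuousOn hPc.continuousOn
  set M := max M0 0 with hMdef
  have hMn : 0 ≤ M := le_max_right _ _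
  have hM : ∀ u x, u ∈ Icc 0 yc → x ∈ Icc 0 yc → ‖Ps (kap' k α) (gam α) W u x‖ ≤ M := by
    intro u x hu hx
    have := hM0 (u, x) ⟨hu, hx⟩
    simp only [cl_eq hu] at this
    exact this.trans (le_max_left _ _)
  have hunif := hcomp.uniformContinuousOn_of_continuous hPc.continuousOn
  rw [Metric.uniformContinuousOn_iff] at hunif
  have hunifW := (isCompact_Icc (a := (0 : ℝ)) (b := 1)).uniformContinuousOn_of_continuous
    hW.continuousOn
  rw [Metric.uniformContinuousOn_iff] at hunifW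
  set Bφ := ∫ σ in (0 : ℝ)..1, |deriv φ σ| with hBφdef
  have hBφ : 0 ≤ Bφ := intervalIntegral.integral_nonneg zero_le_one fun σ _ => abs_nonneg _
  set m' := 1 + |((k + 1 : ℤ) : ℝ)| / (1 - yc) with hm'
  have hm'0 : 0 ≤ m' := by rw [hm']; positivity
  set E0 := Real.exp (2 * (|((k + 1 : ℤ) : ℝ)| + 1) / (1 - yc)) with hE0
  have hE0p : 0 < E0 := Real.exp_pos _
  obtain ⟨Ck, hCk⟩ := (isCompact_Icc (a := 1 - c) (b := 1)).exists_bound_of_continuousOn
    (f := fun x : ℝ => x ^ k) (by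
      intro x hx
      have : x ≠ 0 := by linarith [hx.1]
      exact (continuousAt_zpow₀ x k (Or.inl this)).continuousWithinAt)
  have hCk0 : 0 ≤ Ck := (norm_nonneg _).trans (hCk 1 ⟨by linarith, le_rfl⟩)
  -- first smallness
  set η1 := min 1 (μ / (2 * E0)) with hη1
  have hη1p : 0 < η1 := by rw [hη1]; positivity
  have hη1a : η1 ≤ 1 := min_le_left _ _
  have hη1b : η1 ≤ μ / (2 * E0) := min_le_right _ _
  set η := η1 / (2 * (1 + Bφ)) with hη
  have hηp : 0 < η := by rw [hη]; positivity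
  obtain ⟨d1, hd1, hd1'⟩ := hunif η hηp
  set η2 := μ / (Ck + 1) with hη2
  have hη2p : 0 < η2 := by rw [hη2]; positivity
  obtain ⟨d2, hd2, hd2'⟩ := hunifW η2 hη2p
  set ε := min (min (d1 / 2) (d2 / 2)) (η1 / (2 * ((1 + m') * (M + 1)))) with hεdef
  have hε : 0 < ε := by
    rw [hεdef]
    positivity
  have hεd1 : ε < d1 := by
    have : ε ≤ d1 / 2 := (min_le_left _ _).trans (min_le_left _ _)
    linarith
  have hεd2 : ε < d2 := by
    have : ε ≤ d2 / 2 := (min_le_left _ _).trans (min_le_right _ _)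
    linarith
  have hε3 : (1 + m') * M * ε ≤ η1 / 2 := by
    have h1 : ε ≤ η1 / (2 * ((1 + m') * (M + 1))) := min_le_right _ _
    rw [le_div_iff₀ (by positivity)] at h1
    nlinarith
  -- second smallness
  set C2 := 2 * π * (Kb * (1 + Cχ + 1 / ε * Bφ) + m' * Kb) with hC2
  have hC2n : 0 ≤ C2 := by rw [hC2]; positivity
  set ω := min (min 1 (μ / (50 * E0 * C2 ^ 2 + 1))) (η2 / 2) with hωdef
  have hωp : 0 < ω := by rw [hωdef]; positivity
  have hω1 : ω ≤ 1 := (min_le_left _ _).trans (min_le_left _ _)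
  have hω2 : ω ≤ μ / (50 * E0 * C2 ^ 2 + 1) := (min_le_left _ _).trans (min_le_right _ _)
  have hω3 : 2 * ω ≤ η2 := by
    have : ω ≤ η2 / 2 := min_le_right _ _
    linarith
  obtain ⟨d3, hd3, hd3'⟩ := Metric.continuousAt_iff.mp hW.continuousAt ω hωp
  set δ := min (d3 / 2) 1 with hδdef
  have hδ : 0 < δ := by rw [hδdef]; positivity
  have hδ1 : δ ≤ 1 := min_le_right _ _
  have hω : ∀ z, 0 ≤ z → z ≤ δ → ‖W z‖ ≤ ω := by
    intro z hz0 hz1
    have h1 : dist z 0 < d3 := by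
      rw [Real.dist_eq, sub_zero, abs_of_nonneg hz0]
      have : δ ≤ d3 / 2 := min_le_left _ _
      linarith
    have h2 := hd3' h1
    rw [hW0, dist_zero_right] at h2
    exact h2.le
  refine ⟨ff φ W ε δ c k, GG φ W ε δ c k, ff_contDiff hφ hW hε hδ hc1 k,
    GG_contDiff hφ hW hε hδ hc1 k, ff_dbar hφ hW hε hδ hc1 k, GG_rot hφ hW hε hδ hc1 k, ?_, ?_⟩
  · intro ζ hζ1 hζ2
    rw [ff_eq hc1 k ζ hζ1, ← mul_sub, norm_mul, norm_zpow]
    have h1 : ‖ζ‖ ^ k ≤ Ck := by
      have := hCk ‖ζ‖ ⟨hζ1, hζ2⟩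
      rw [Real.norm_eq_abs] at this
      exact (le_abs_self _).trans this
    set x := 1 - ‖ζ‖ with hx
    have hx0 : 0 ≤ x := by rw [hx]; linarith
    have hx1 : x ≤ 1 := by rw [hx]; linarith [norm_nonneg ζ]
    have h2 : ‖hh φ W ε δ x - W x‖ ≤ η2 := by
      by_cases hxδ : δ ≤ x
      · rw [hh_one hδ hxδ]
        apply mA_sub_bound hφ hW
        intro σ hσ
        have hexp := exp_neg_mem hε hσ
        have h3 : x * Real.exp (-(ε * σ)) ∈ Icc (0 : ℝ) 1 :=
          ⟨mul_nonneg hx0 hexp.1.le, (mul_le_of_le_one_right hx0 hexp.2).trans hx1⟩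
        have h4 : dist (x * Real.exp (-(ε * σ))) x < d2 := by
          rw [dist_comm, Real.dist_eq, abs_of_nonneg
            (by linarith [mul_le_of_le_one_right hx0 hexp.2])]
          have h5 := one_sub_exp_le (ε * σ)
          have h6 : ε * σ ≤ ε := mul_le_of_le_one_right hε.le hσ.2
          have h7 : x - x * Real.exp (-(ε * σ)) ≤ 1 * (ε * σ) := by
            have : x - x * Real.exp (-(ε * σ)) = x * (1 - Real.exp (-(ε * σ))) := by ring
            rw [this]
            apply mul_le_mul hx1 h5 (by linarith [hexp.2]) zero_le_one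
          linarith
        have h8 := hd2' _ h3 x ⟨hx0, hx1⟩ h4
        rw [dist_eq_norm] at h8
        exact h8.le
      · push Not at hxδ
        have h3 := mA_bound hφ ε x δ ω hε hx0 hxδ.le hω
        have h4 := hω x hx0 hxδ.le
        have h5 : ‖hh φ W ε δ x‖ ≤ ω := by
          unfold hh
          rw [norm_mul, Complex.norm_real, Real.norm_eq_abs, abs_of_nonneg (chi_nonneg _)]
          calc _ ≤ 1 * ω := mul_le_mul (chi_le_one _) h3 (norm_nonneg _) zero_le_one
            _ = ω := one_mul _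
        exact (norm_sub_le _ _).trans (by linarith)
    calc ‖ζ‖ ^ k * ‖hh φ W ε δ x - W x‖ ≤ Ck * η2 :=
          mul_le_mul h1 h2 (norm_nonneg _) hCk0
      _ ≤ μ := by
          rw [hη2, mul_div_assoc', div_le_iff₀ (by positivity)]
          nlinarith
  · intro b hb
    have hD : ∀ y ∈ Ioo 0 yc, ‖2 * (α * Q (GG φ W ε δ c k) 0 α (fun _ => 1) y 1 -
        Q (GG φ W ε δ c k) 0 α e y 1)‖ ≤ η1 + C2 * ω * (√(δ / y) / y) := by
      intro y hy
      have hyI : y ∈ Icc 0 yc := Ioo_subset_Icc_self hy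
      have hT : ‖T1 (kap k α) (kap' k α) (gam α) W φ ε y‖ ≤ η * (1 + Bφ) + M * ε := by
        apply T1_bound (κ := kap k α) (κ' := kap' k α) hφ (Om_open α) hOm (continuousOn_kap k α)
          (continuousOn_kap' k α) (fun y hy t => hasDerivAt_kap k α y t hy) hγ hW hzero ε y η M hε
          hy.1 hy.2.le hηp.le (hM y y hyI hyI)
        intro u x hu1 hu2 hx1 hx2
        have hey : 0 < y * Real.exp (-ε) := mul_pos hy.1 (Real.exp_pos _)
        have huI : u ∈ Icc 0 yc := ⟨by linarith, hu2.trans hy.2.le⟩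
        have hxI : x ∈ Icc 0 yc := ⟨by linarith, hx2.trans hy.2.le⟩
        have hdist : ∀ v, y * Real.exp (-ε) ≤ v → v ≤ y → dist v y < d1 := by
          intro v hv1 hv2
          rw [dist_comm, Real.dist_eq, abs_of_nonneg (by linarith)]
          have h5 := one_sub_exp_le ε
          have h6 : y - y * Real.exp (-ε) ≤ 1 * ε := by
            have : y - y * Real.exp (-ε) = y * (1 - Real.exp (-ε)) := by ring
            rw [this]
            apply mul_le_mul (by linarith [hy.2]) h5 _ zero_le_one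
            have : Real.exp (-ε) ≤ 1 := by rw [Real.exp_le_one_iff]; linarith
            linarith
          linarith
        have h7 := hd1' (u, x) ⟨huI, hxI⟩ (y, y) ⟨hyI, hyI⟩ (by
          rw [Prod.dist_eq]
          exact max_lt (hdist u hu1 hu2) (hdist x hx1 hx2))
        simp only [cl_eq huI, cl_eq hyI] at h7
        rw [dist_eq_norm] at h7
        exact h7.le
      have h := D_bound hα hα1 hc1 k hφ hW hzero ε δ y Kb ω M Cχ (η * (1 + Bφ) + M * ε) hε hδ hy
        (fun β hβ => (hKb y hyI β hβ).1) (fun β hβ => (hKb y hyI β hβ).2) hM hω hCχ hT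
      refine h.trans ?_
      have h8 : η * (1 + Bφ) = η1 / 2 := by
        rw [hη]
        field_simp
      have h9 : η * (1 + Bφ) + M * ε + m' * M * ε ≤ η1 := by
        rw [h8]
        nlinarith
      linarith
    have h := energy_bound hα hα1 hc0 hc1 k hφ hW ε δ ω C2 η1 hε hδ (by linarith) hη1p.le
      hωp.le hC2n hD b hb
    refine h.trans ?_
    rw [mul_add]
    have h1 : E0 * η1 ^ 2 ≤ μ / 2 := by
      have h2 : η1 ^ 2 ≤ η1 := by nlinarith
      calc E0 * η1 ^ 2 ≤ E0 * (μ / (2 * E0)) := by gcongr; linarith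
        _ = μ / 2 := by field_simp
    have h3 : E0 * (25 * C2 ^ 2 * ω ^ 2) ≤ μ / 2 := by
      have h4 : ω ^ 2 ≤ ω := by nlinarith
      have h5 : ω * (50 * E0 * C2 ^ 2 + 1) ≤ μ := by
        rwa [le_div_iff₀ (by positivity)] at hω2
      have h6 : E0 * (25 * C2 ^ 2 * ω ^ 2) ≤ E0 * (25 * C2 ^ 2 * ω) := by gcongr
      nlinarith
    linarith

end


section

variable {α c : ℝ}

/-- circle integral of `f`, up to a factor -/
noncomputable def CI (f : ℂ → ℂ) (z : ℂ) (r : ℝ) : ℂ :=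
  ∫ t in (0 : ℝ)..2 * π, f (z + r * e t) * e t

lemma circleIntegral_eq_CI (f : ℂ → ℂ) (z : ℂ) (r : ℝ) :
    (∮ ζ in C(z, r), f ζ) = I * r * CI f z r := by
  unfold CI circleIntegral
  rw [← intervalIntegral.integral_const_mul]
  apply intervalIntegral.integral_congr
  intro t _
  simp only [deriv_circleMap, smul_eq_mul, circleMap, e]
  ring

lemma CI_zpow (k : ℤ) (z : ℂ) (r : ℝ) (hr : 0 < r) (hrz : r < ‖z‖) :
    CI (fun ζ => ζ ^ k) z r = 0 := by
  have hne : ∀ ζ ∈ closedBall z r, ζ ≠ 0 := by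
    rintro ζ hζ rfl
    rw [mem_closedBall, dist_zero_left] at hζ
    linarith
  have h1 : (∮ ζ in C(z, r), ζ ^ k) = 0 := by
    apply Complex.circleIntegral_eq_zero_of_differentiable_on_off_countable hr.le countable_empty
    · intro ζ hζ
      exact (continuousAt_zpow₀ ζ k (Or.inl (hne ζ hζ))).continuousWithinAt
    · intro ζ hζ
      exact (differentiableAt_zpow.mpr (Or.inl (hne ζ (ball_subset_closedBall hζ.1))))
  rw [circleIntegral_eq_CI] at h1
  have h2 : (I * r : ℂ) ≠ 0 := by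
    have : (r : ℂ) ≠ 0 := by exact_mod_cast hr.ne'
    simp [this]
  exact (mul_eq_zero.mp h1).resolve_left h2

lemma Q_eq_CI (f : ℂ → ℂ) (l0 l1 y θ r : ℝ) (hr : (l0 + l1 * y) * θ = r) :
    Q f l0 l1 e y θ = CI f ((1 - y : ℝ) : ℂ) r := by
  unfold Q CI
  apply intervalIntegral.integral_congr
  intro t _
  simp only
  rw [Z_eq, hr]

/-- the circle integrals of the approximants are controlled by the energy -/
lemma CI_bound (hα : 0 < α) (hc0 : 0 < c) (hc1 : c < 1) (m : ℝ) {f G : ℂ → ℂ}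
    (hf : ContDiff ℝ 1 f) (hG : ContDiff ℝ 1 G)
    (hfG : ∀ ζ, fderiv ℝ f ζ 1 + I * fderiv ℝ f ζ I = 2 * G ζ)
    (hE : ∀ ζ, fderiv ℝ G ζ (I * ζ) = I * m * G ζ) (μ : ℝ)
    (hμ : ∀ b ∈ Icc 0 (c / (1 + α)), En G 0 α b ≤ μ) (y r lam : ℝ) (hy : 0 < y) (hr : 0 < r)
    (hα1 : α ≤ 1) (hrα : r ≤ α * y) (hrc : r ≤ c - y) (hlam : 0 < lam) :
    r * ‖CI f ((1 - y : ℝ) : ℂ) r‖ ≤
      lam / 2 + 2 * (Real.exp (2 * (|m| + 1) / (1 - c)) * μ) / lam := by
  have hyc0 : 0 ≤ c / (1 + α) := by positivity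
  have hμ0 : 0 ≤ μ := (En_nonneg 0).trans (hμ 0 ⟨le_rfl, hyc0⟩)
  have hexp : 1 ≤ Real.exp (2 * (|m| + 1) / (1 - c)) := by
    apply Real.one_le_exp
    have : 0 < 1 - c := by linarith
    positivity
  have hmain : ∀ l0 l1 : ℝ, 0 < l0 + l1 * y → r ≤ l0 + l1 * y → l0 + l1 * y ≤ 1 →
      En G l0 l1 y ≤ Real.exp (2 * (|m| + 1) / (1 - c)) * μ →
      r * ‖CI f ((1 - y : ℝ) : ℂ) r‖ ≤
      lam / 2 + 2 * (Real.exp (2 * (|m| + 1) / (1 - c)) * μ) / lam := by
    intro l0 l1 hL hrL hL1 hEn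
    have h1 : (l0 + l1 * y) * (r / (l0 + l1 * y)) = r := by field_simp
    have h := f_bound hf hG hfG y (r / (l0 + l1 * y)) lam hL (by positivity)
      ((div_le_one hL).mpr hrL) hlam
    rw [Q_eq_CI f l0 l1 y _ r h1, h1] at h
    refine h.trans ?_
    have h2 : lam * (l0 + l1 * y) ^ 2 / 2 ≤ lam / 2 := by
      have : (l0 + l1 * y) ^ 2 ≤ 1 := by nlinarith
      nlinarith
    gcongr
  rcases le_total y (c / (1 + α)) with h | h
  · apply hmain 0 α
    · rw [zero_add]; positivity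
    · rw [zero_add]; exact hrα
    · rw [zero_add]
      nlinarith
    · have h1 := hμ y ⟨hy.le, h⟩
      nlinarith
  · apply hmain c (-1)
    · linarith
    · linarith
    · linarith
    · have h1 := En_back hG hE c (c / (1 + α)) y hc1 hyc0 h (by linarith)
      have h2 : En G c (-1) (c / (1 + α)) = En G 0 α (c / (1 + α)) := by
        apply En_congr
        field_simp
        ring
      rw [h2] at h1
      refine h1.trans ?_
      apply mul_le_mul_of_nonneg_left _ (Real.exp_pos _).le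
      exact hμ _ ⟨hyc0, le_rfl⟩

/-- vanishing of the circle integrals for equivariant functions, in terms of the profile -/
lemma kill (hα : 0 < α) (hα1 : α ≤ 1) (hc0 : 0 < c) (hc1 : c < 1) (k : ℤ) {W : ℝ → ℂ}
    (hW : Continuous W) (hW0 : W 0 = 0)
    (hzero : ∀ x, 0 < x → x ≤ c / (1 + α) → Ps (kap k α) (gam α) W x x = 0)
    (f0 : ℂ → ℂ) (hf0 : Continuous f0) (a : ℂ)
    (hf0W : ∀ ζ : ℂ, 1 - c ≤ ‖ζ‖ → ‖ζ‖ ≤ 1 → f0 ζ = ζ ^ k * (W (1 - ‖ζ‖) + a))
    (y r : ℝ) (hy : 0 < y) (hr : 0 < r) (hrα : r ≤ α * y) (hrc : r ≤ c - y) :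
    CI f0 ((1 - y : ℝ) : ℂ) r = 0 := by
  have he := continuous_e
  have h1y : 0 ≤ 1 - y := by linarith
  set K := Real.exp (2 * (|((k + 1 : ℤ) : ℝ)| + 1) / (1 - c)) with hK
  have hKp : 0 < K := Real.exp_pos _
  have hlow : ∀ t : ℝ, 1 - c ≤ ‖((1 - y : ℝ) : ℂ) + (r : ℂ) * e t‖ := by
    intro t
    refine le_trans ?_ (le_norm_circle h1y hr.le t)
    linarith
  have hup : ∀ t : ℝ, ‖((1 - y : ℝ) : ℂ) + (r : ℂ) * e t‖ ≤ 1 := by
    intro t
    refine (norm_circle_le h1y hr.le t).trans ?_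
    nlinarith
  have hz : CI (fun ζ => ζ ^ k) ((1 - y : ℝ) : ℂ) r = 0 := by
    apply CI_zpow k _ r hr
    rw [Complex.norm_real, Real.norm_eq_abs, abs_of_nonneg h1y]
    linarith
  have hzc : Continuous fun t : ℝ => (((1 - y : ℝ) : ℂ) + (r : ℂ) * e t) ^ k := by
    apply Continuous.zpow₀ (by fun_prop)
    intro t
    left
    rw [← norm_pos_iff]
    linarith [hlow t]
  have key : ∀ ν : ℝ, 0 < ν → ν ≤ 1 →
      r * ‖CI f0 ((1 - y : ℝ) : ℂ) r‖ ≤ ν * (1 / 2 + 2 * K + 2 * π) := by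
    intro ν hν hν1
    obtain ⟨f, G, hf, hG, hfG, hE, hfW, hEn⟩ := approx hα hα1 hc0 hc1 k hW hW0 hzero (ν ^ 2)
      (by positivity)
    have h1 := CI_bound hα hc0 hc1 _ hf hG hfG hE (ν ^ 2) hEn y r ν hy hr hα1 hrα hrc hν
    rw [← hK] at h1
    have hfc := hf.continuous
    have h2 : CI f0 ((1 - y : ℝ) : ℂ) r = CI f ((1 - y : ℝ) : ℂ) r +
        ∫ t in (0 : ℝ)..2 * π, (f0 (((1 - y : ℝ) : ℂ) + (r : ℂ) * e t) -
          a * (((1 - y : ℝ) : ℂ) + (r : ℂ) * e t) ^ k -
          f (((1 - y : ℝ) : ℂ) + (r : ℂ) * e t)) * e t := by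
      have h3 : (∫ t in (0 : ℝ)..2 * π, (f0 (((1 - y : ℝ) : ℂ) + (r : ℂ) * e t) -
          a * (((1 - y : ℝ) : ℂ) + (r : ℂ) * e t) ^ k -
          f (((1 - y : ℝ) : ℂ) + (r : ℂ) * e t)) * e t) = CI f0 ((1 - y : ℝ) : ℂ) r -
          a * CI (fun ζ => ζ ^ k) ((1 - y : ℝ) : ℂ) r - CI f ((1 - y : ℝ) : ℂ) r := by
        unfold CI
        rw [← intervalIntegral.integral_const_mul,
          ← intervalIntegral.integral_sub (by apply Continuous.intervalIntegrable; fun_prop)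
            (by apply Continuous.intervalIntegrable; fun_prop),
          ← intervalIntegral.integral_sub (by apply Continuous.intervalIntegrable; fun_prop)
            (by apply Continuous.intervalIntegrable; fun_prop)]
        apply intervalIntegral.integral_congr
        intro t _
        simp only
        ring
      rw [h3, hz]
      ring
    have h4 : ‖∫ t in (0 : ℝ)..2 * π, (f0 (((1 - y : ℝ) : ℂ) + (r : ℂ) * e t) -
          a * (((1 - y : ℝ) : ℂ) + (r : ℂ) * e t) ^ k -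
          f (((1 - y : ℝ) : ℂ) + (r : ℂ) * e t)) * e t‖ ≤ ν ^ 2 * |2 * π - 0| := by
      apply intervalIntegral.norm_integral_le_of_norm_le_const
      intro t _
      rw [norm_mul, norm_e, mul_one, hf0W _ (hlow t) (hup t)]
      have h5 := hfW _ (hlow t) (hup t)
      rw [norm_sub_rev] at h5
      convert! h5 using 2
      ring
    rw [sub_zero, abs_of_pos (by positivity)] at h4
    have hr1 : r ≤ 1 := by linarith
    have h6 : 2 * (K * ν ^ 2) / ν = 2 * K * ν := by field_simp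
    rw [h6] at h1
    calc r * ‖CI f0 ((1 - y : ℝ) : ℂ) r‖ ≤ r * (‖CI f ((1 - y : ℝ) : ℂ) r‖ + ν ^ 2 * (2 * π)) := by
          rw [h2]
          gcongr
          exact (norm_add_le _ _).trans (by linarith)
      _ = r * ‖CI f ((1 - y : ℝ) : ℂ) r‖ + r * (ν ^ 2 * (2 * π)) := by ring
      _ ≤ (ν / 2 + 2 * K * ν) + 1 * (ν * (2 * π)) := by
          gcongr
          nlinarith
      _ = _ := by ring
  by_contra hne
  have hA : 0 < r * ‖CI f0 ((1 - y : ℝ) : ℂ) r‖ := mul_pos hr (norm_pos_iff.mpr hne)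
  set A := r * ‖CI f0 ((1 - y : ℝ) : ℂ) r‖ with hAdef
  set B := 1 / 2 + 2 * K + 2 * π with hB
  have hBp : 0 < B := by rw [hB]; positivity
  have h1 := key (min 1 (A / (2 * B))) (by positivity) (min_le_left _ _)
  have h2 : min 1 (A / (2 * B)) * B ≤ A / (2 * B) * B := by
    gcongr
    exact min_le_right _ _
  have h3 : A / (2 * B) * B = A / 2 := by field_simp
  linarith

/-- equivariant functions -/
lemma equi_small (hα : 0 < α) (hα1 : α ≤ 1) (k : ℤ) (f0 : ℂ → ℂ) (hf0 : Continuous f0)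
    (hrot : ∀ (ψ : ℝ) (ζ : ℂ), f0 (e ψ * ζ) = e ψ ^ k * f0 ζ)
    (hstar : ∀ y ∈ Ioo (0 : ℝ) 1, CI f0 ((1 - y : ℝ) : ℂ) (α * y) = 0)
    (y r : ℝ) (hy : 0 < y) (hr : 0 < r) (hrα : r ≤ α * y) (hry : r < 1 - y) :
    CI f0 ((1 - y : ℝ) : ℂ) r = 0 := by
  set c := y + r with hc
  have hc0 : 0 < c := by linarith
  have hc1 : c < 1 := by linarith
  have he := continuous_e
  -- the profile
  set w : ℝ → ℂ := fun x => f0 ((1 - x : ℝ) : ℂ) / ((1 - x : ℝ) : ℂ) ^ k - f0 1 with hw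
  set W : ℝ → ℂ := fun x => w (cl c x) with hWdef
  have hcl : ∀ x, 0 < 1 - cl c x := fun x => by linarith [(cl_mem hc0.le x).2]
  have hW : Continuous W := by
    simp only [hWdef, hw]
    have h1 := continuous_cl c
    apply Continuous.sub _ continuous_const
    apply Continuous.div
    · fun_prop
    · apply Continuous.zpow₀ (by fun_prop)
      intro x
      left
      exact_mod_cast (hcl x).ne'
    · intro x
      apply zpow_ne_zero
      exact_mod_cast (hcl x).ne'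
  have hW0 : W 0 = 0 := by
    simp only [hWdef, hw]
    rw [cl_eq ⟨le_rfl, hc0.le⟩]
    simp
  have hf0W : ∀ ζ : ℂ, 1 - c ≤ ‖ζ‖ → ‖ζ‖ ≤ 1 → f0 ζ = ζ ^ k * (W (1 - ‖ζ‖) + f0 1) := by
    intro ζ h1 h2
    have hn : 0 < ‖ζ‖ := by linarith
    have hζ : ζ = e (arg ζ) * (‖ζ‖ : ℂ) := by
      unfold e
      rw [mul_comm]
      exact (Complex.norm_mul_exp_arg_mul_I ζ).symm
    have h3 : W (1 - ‖ζ‖) + f0 1 = f0 (‖ζ‖ : ℂ) / (‖ζ‖ : ℂ) ^ k := by
      simp only [hWdef, hw]
      rw [cl_eq ⟨by linarith, by linarith⟩]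
      simp
    rw [h3]
    have h4 : ((‖ζ‖ : ℝ) : ℂ) ^ k ≠ 0 := by
      apply zpow_ne_zero
      exact_mod_cast hn.ne'
    have h5 : f0 ζ = e (arg ζ) ^ k * f0 (‖ζ‖ : ℂ) := by
      conv_lhs => rw [hζ]
      exact hrot _ _
    have h6 : ζ ^ k = e (arg ζ) ^ k * (‖ζ‖ : ℂ) ^ k := by
      conv_lhs => rw [hζ]
      exact mul_zpow _ _ _
    rw [h5, h6]
    field_simp
  have hzero : ∀ x, 0 < x → x ≤ c / (1 + α) → Ps (kap k α) (gam α) W x x = 0 := by
    intro x hx0 hx1
    have hxI : x ∈ Icc 0 (c / (1 + α)) := ⟨hx0.le, hx1⟩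
    have hxc := mem_yc hα hxI
    have hαx : 0 < α * x := mul_pos hα hx0
    have h1x : 0 ≤ 1 - x := by linarith
    rw [← Q_eq_Ps hα hα1 hc1 k (fun ζ => ζ ^ k * W (1 - ‖ζ‖)) W (fun ζ _ _ => rfl) hW x hxI,
      Q_eq_CI _ 0 α x 1 (α * x) (by ring)]
    have hlow : ∀ t : ℝ, 1 - c ≤ ‖((1 - x : ℝ) : ℂ) + ((α * x : ℝ) : ℂ) * e t‖ := by
      intro t
      refine le_trans ?_ (le_norm_circle h1x hαx.le t)
      linarith
    have hup : ∀ t : ℝ, ‖((1 - x : ℝ) : ℂ) + ((α * x : ℝ) : ℂ) * e t‖ ≤ 1 := by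
      intro t
      refine (norm_circle_le h1x hαx.le t).trans ?_
      nlinarith
    have hzc : Continuous fun t : ℝ => (((1 - x : ℝ) : ℂ) + ((α * x : ℝ) : ℂ) * e t) ^ k := by
      apply Continuous.zpow₀ (by fun_prop)
      intro t
      left
      rw [← norm_pos_iff]
      linarith [hlow t]
    have h2 : CI (fun ζ => ζ ^ k * W (1 - ‖ζ‖)) ((1 - x : ℝ) : ℂ) (α * x) =
        CI f0 ((1 - x : ℝ) : ℂ) (α * x) -
          f0 1 * CI (fun ζ => ζ ^ k) ((1 - x : ℝ) : ℂ) (α * x) := by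
      unfold CI
      rw [← intervalIntegral.integral_const_mul,
        ← intervalIntegral.integral_sub (by apply Continuous.intervalIntegrable; fun_prop)
          (by apply Continuous.intervalIntegrable; fun_prop)]
      apply intervalIntegral.integral_congr
      intro t _
      simp only
      rw [hf0W _ (hlow t) (hup t)]
      ring
    rw [h2, hstar x ⟨hx0, by nlinarith⟩, CI_zpow k _ _ hαx]
    · ring
    · rw [Complex.norm_real, Real.norm_eq_abs, abs_of_nonneg h1x]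
      linarith
  exact kill hα hα1 hc0 hc1 k hW hW0 hzero f0 hf0 (f0 1) hf0W y r hy hr hrα (by linarith)

end


/-- uniqueness for Fourier coefficients -/
lemma fourier_unique (Φ : ℝ → ℂ) (hΦ : Continuous Φ) (hper : Function.Periodic Φ (2 * π))
    (h : ∀ n : ℤ, ∫ ψ in (0 : ℝ)..2 * π, Φ ψ * e ψ ^ n = 0) (ψ : ℝ) : Φ ψ = 0 := by
  have : Fact (0 < 2 * π) := ⟨by positivity⟩
  let g : AddCircle (2 * π) → ℂ := hper.lift
  have hg : Continuous g := continuous_coinduced_dom.mpr hΦ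
  let G : C(AddCircle (2 * π), ℂ) := ⟨g, hg⟩
  have hcoef : ∀ n : ℤ, fourierCoeff G n = 0 := by
    intro n
    rw [fourierCoeff_eq_intervalIntegral G n 0, zero_add]
    have h1 : (∫ x in (0 : ℝ)..2 * π, @fourier (2 * π) (-n) x • G x) =
        ∫ ψ in (0 : ℝ)..2 * π, Φ ψ * e ψ ^ (-n) := by
      apply intervalIntegral.integral_congr
      intro x _
      simp only [smul_eq_mul]
      rw [fourier_coe_apply]
      have h2 : G (x : AddCircle (2 * π)) = Φ x := rfl
      have h3 : Complex.exp (2 * π * I * ((-n : ℤ) : ℂ) * x / ((2 * π : ℝ) : ℂ)) = e x ^ (-n) := by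
        unfold e
        rw [← Complex.exp_int_mul]
        congr 1
        have : (π : ℂ) ≠ 0 := by exact_mod_cast Real.pi_ne_zero
        push_cast
        field_simp
      rw [h2, h3, mul_comm]
    rw [h1, h, smul_zero]
  have hsum : Summable (fourierCoeff G) := by
    have : fourierCoeff G = fun _ => 0 := funext hcoef
    rw [this]
    exact summable_zero
  have h4 := hasSum_fourier_series_of_summable hsum
  simp_rw [hcoef, zero_smul] at h4
  have h5 : G = 0 := h4.unique hasSum_zero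
  have h6 : G (ψ : AddCircle (2 * π)) = Φ ψ := rfl
  rw [← h6, h5]
  rfl

lemma e_add (s t : ℝ) : e (s + t) = e s * e t := by
  unfold e
  rw [← Complex.exp_add]
  push_cast
  ring_nf

lemma continuous_e_zpow (k : ℤ) : Continuous fun ψ : ℝ => e ψ ^ k :=
  continuous_e.zpow₀ k fun ψ => Or.inl (e_ne_zero ψ)

/-- rotation of a circle -/
lemma CI_rot (F : ℂ → ℂ) (ψ : ℝ) (z : ℂ) (r : ℝ) :
    ∫ t in (0 : ℝ)..2 * π, F (e ψ * (z + r * e t)) * e t = (e ψ)⁻¹ * CI F (e ψ * z) r := by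
  have hper : Function.Periodic (fun t : ℝ => F (e ψ * z + r * e t) * e t) (2 * π) := by
    intro t
    show F (e ψ * z + r * e (t + 2 * π)) * e (t + 2 * π) = F (e ψ * z + r * e t) * e t
    rw [e_periodic t]
  have h1 : ∀ t : ℝ, F (e ψ * (z + r * e t)) * e t =
      (e ψ)⁻¹ * (F (e ψ * z + r * e (ψ + t)) * e (ψ + t)) := by
    intro t
    rw [e_add]
    have := e_ne_zero ψ
    rw [show e ψ * z + r * (e ψ * e t) = e ψ * (z + r * e t) by ring]
    field_simp
  simp_rw [h1]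
  rw [intervalIntegral.integral_const_mul]
  congr 1
  unfold CI
  have h2 := intervalIntegral.integral_comp_add_left (a := 0) (b := 2 * π)
    (fun t : ℝ => F (e ψ * z + r * e t) * e t) ψ
  rw [h2, add_zero]
  have h3 := hper.intervalIntegral_add_eq ψ 0
  rw [zero_add] at h3
  exact h3

/-- Fourier components -/
noncomputable def fk (F : ℂ → ℂ) (k : ℤ) (z : ℂ) : ℂ :=
  ∫ ψ in (0 : ℝ)..2 * π, F (e ψ * z) * e ψ ^ (-k)

lemma continuous_fk (F : ℂ → ℂ) (hF : Continuous F) (k : ℤ) : Continuous (fk F k) := by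
  unfold fk
  apply intervalIntegral.continuous_parametric_intervalIntegral_of_continuous'
  have h1 := continuous_e
  have h2 := continuous_e_zpow (-k)
  have h3 : Continuous fun p : ℂ × ℝ => e p.2 ^ (-k) := h2.comp continuous_snd
  exact (hF.comp (by fun_prop)).mul h3

lemma fk_rot (F : ℂ → ℂ) (k : ℤ) (φ : ℝ) (z : ℂ) : fk F k (e φ * z) = e φ ^ k * fk F k z := by
  have hper : Function.Periodic (fun t : ℝ => F (e t * z) * e t ^ (-k)) (2 * π) := by
    intro t
    show F (e (t + 2 * π) * z) * e (t + 2 * π) ^ (-k) = F (e t * z) * e t ^ (-k)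
    rw [e_periodic t]
  have h1 : ∀ t : ℝ, F (e t * (e φ * z)) * e t ^ (-k) =
      e φ ^ k * (F (e (φ + t) * z) * e (φ + t) ^ (-k)) := by
    intro t
    rw [e_add, mul_zpow]
    have h2 : e φ ^ k * e φ ^ (-k) = 1 := by
      rw [← zpow_add₀ (e_ne_zero φ)]
      simp
    rw [show e t * (e φ * z) = e φ * e t * z by ring]
    linear_combination (-(F (e φ * e t * z) * e t ^ (-k))) * h2
  unfold fk
  simp_rw [h1]
  rw [intervalIntegral.integral_const_mul]
  congr 1
  have h2 := intervalIntegral.integral_comp_add_left (a := 0) (b := 2 * π)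
    (fun t : ℝ => F (e t * z) * e t ^ (-k)) φ
  rw [h2, add_zero]
  have h3 := hper.intervalIntegral_add_eq φ 0
  rw [zero_add] at h3
  exact h3

lemma CI_fk (F : ℂ → ℂ) (hF : Continuous F) (k : ℤ) (z : ℂ) (r : ℝ) :
    CI (fk F k) z r = ∫ ψ in (0 : ℝ)..2 * π, CI F (e ψ * z) r * e ψ ^ (-(k + 1)) := by
  have h1 := continuous_e
  have h2 := continuous_e_zpow (-k)
  have h3 : Continuous fun p : ℝ × ℝ => e p.2 ^ (-k) := h2.comp continuous_snd
  unfold CI fk
  have e1 : ∀ t : ℝ, (∫ ψ in (0 : ℝ)..2 * π, F (e ψ * (z + r * e t)) * e ψ ^ (-k)) * e t =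
      ∫ ψ in (0 : ℝ)..2 * π, F (e ψ * (z + r * e t)) * e ψ ^ (-k) * e t := by
    intro t
    rw [intervalIntegral.integral_mul_const]
  simp_rw [e1]
  rw [swap_integrals]
  · apply intervalIntegral.integral_congr
    intro ψ _
    simp only
    have e2 : ∀ t : ℝ, F (e ψ * (z + r * e t)) * e ψ ^ (-k) * e t =
        e ψ ^ (-k) * (F (e ψ * (z + r * e t)) * e t) := by
      intro t; ring
    simp_rw [e2]
    rw [intervalIntegral.integral_const_mul, CI_rot]
    unfold CI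
    rw [neg_add, zpow_add₀ (e_ne_zero ψ), zpow_neg_one]
    ring
  · simp only [Function.uncurry_def]
    exact ((hF.comp (by fun_prop)).mul h3).mul (by fun_prop)

lemma continuous_CI (F : ℂ → ℂ) (hF : Continuous F) (z : ℂ) (r : ℝ) :
    Continuous fun ψ : ℝ => CI F (e ψ * z) r := by
  have h1 := continuous_e
  unfold CI
  apply intervalIntegral.continuous_parametric_intervalIntegral_of_continuous'
  fun_prop

lemma exists_rot (z : ℂ) : ∃ ψ : ℝ, z = e ψ * (‖z‖ : ℂ) := by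
  refine ⟨arg z, ?_⟩
  unfold e
  rw [mul_comm]
  exact (Complex.norm_mul_exp_arg_mul_I z).symm

/-- main part, for globally continuous functions -/
lemma main_global (α : ℝ) (hα : 0 < α) (hα1 : α ≤ 1) (F : ℂ → ℂ) (hF : Continuous F)
    (h : ∀ z ∈ ball (0 : ℂ) 1, CI F z (α * (1 - ‖z‖)) = 0) : DifferentiableOn ℂ F (ball 0 1) := by
  -- the components are holomorphic
  have hk : ∀ k : ℤ, DifferentiableOn ℂ (fk F k) (ball 0 1) := by
    intro k
    have hc := continuous_fk F hF k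
    have hstar : ∀ y ∈ Ioo (0 : ℝ) 1, CI (fk F k) ((1 - y : ℝ) : ℂ) (α * y) = 0 := by
      intro y hy
      rw [CI_fk F hF]
      have h1 : ∀ ψ : ℝ, CI F (e ψ * ((1 - y : ℝ) : ℂ)) (α * y) = 0 := by
        intro ψ
        have h2 : ‖e ψ * ((1 - y : ℝ) : ℂ)‖ = 1 - y := by
          rw [e_mul_norm, Complex.norm_real, Real.norm_eq_abs, abs_of_pos (by linarith [hy.2])]
        have h3 := h (e ψ * ((1 - y : ℝ) : ℂ)) (by
          rw [mem_ball, dist_zero_right, h2]; linarith [hy.1])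
        rw [h2] at h3
        convert! h3 using 2
        ring
      simp only [h1, zero_mul, intervalIntegral.integral_zero]
    have hsmall : ∀ z ∈ ball (0 : ℂ) 1 \ {0}, ∀ r : ℝ, 0 < r → r ≤ α * (1 - ‖z‖) → r < ‖z‖ →
        CI (fk F k) z r = 0 := by
      intro z hz r hr h1 h2
      have hz1 : ‖z‖ < 1 := by simpa using hz.1
      obtain ⟨ψ, hψ⟩ := exists_rot z
      have h3 := equi_small hα hα1 k (fk F k) hc (fun ψ ζ => fk_rot F k ψ ζ) hstar (1 - ‖z‖) r
        (by linarith) hr h1 (by linarith)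
      rw [sub_sub_cancel] at h3
      have h4 := CI_rot (fk F k) ψ (‖z‖ : ℂ) r
      rw [← hψ] at h4
      have h5 : (∫ t in (0 : ℝ)..2 * π, fk F k (e ψ * ((‖z‖ : ℂ) + r * e t)) * e t) =
          e ψ ^ k * CI (fk F k) (‖z‖ : ℂ) r := by
        unfold CI
        rw [← intervalIntegral.integral_const_mul]
        apply intervalIntegral.integral_congr
        intro t _
        simp only
        rw [fk_rot]
        ring
      rw [h5, h3, mul_zero] at h4
      exact (mul_eq_zero.mp h4.symm).resolve_left (inv_ne_zero (e_ne_zero ψ))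
    have hopen : IsOpen (ball (0 : ℂ) 1 \ {0}) := isOpen_ball.sdiff isClosed_singleton
    have h1 : DifferentiableOn ℂ (fk F k) (ball (0 : ℂ) 1 \ {0}) := by
      apply Pool.Agent.Results.MP_be4214_an.ArealCircleDerivative.result _ hopen _
        hc.continuousOn
      intro z hz
      have hz1 : ‖z‖ < 1 := by simpa using hz.1
      have hz0 : 0 < ‖z‖ := norm_pos_iff.mpr (by simpa using hz.2)
      have hev : ∀ᶠ r : ℝ in 𝓝[>] 0, (0 : ℂ) = (∮ ζ in C(z, r), fk F k ζ) / (r : ℂ) ^ 2 := by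
        have hpos : 0 < min (α * (1 - ‖z‖)) ‖z‖ := by
          apply lt_min _ hz0
          apply mul_pos hα
          linarith
        filter_upwards [Ioo_mem_nhdsGT hpos] with r hr
        rw [circleIntegral_eq_CI, hsmall z hz r hr.1 (hr.2.le.trans (min_le_left _ _))
          (hr.2.trans_le (min_le_right _ _))]
        simp
      exact tendsto_const_nhds.congr' hev
    exact (Complex.differentiableOn_compl_singleton_and_continuousAt_iff
      (isOpen_ball.mem_nhds (mem_ball_self one_pos))).mp ⟨h1, hc.continuousAt⟩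
  -- all circle integrals of `F` vanish
  have hall : ∀ z : ℂ, ∀ r : ℝ, 0 < r → ‖z‖ + r < 1 → CI F z r = 0 := by
    intro z r hr hzr
    have hsub : closedBall z r ⊆ ball (0 : ℂ) 1 := by
      apply closedBall_subset_ball'
      rw [dist_zero_right]
      linarith
    have h1 := fourier_unique (fun ψ => CI F (e ψ * z) r) (continuous_CI F hF z r)
      (fun ψ => by
        show CI F (e (ψ + 2 * π) * z) r = CI F (e ψ * z) r
        rw [e_periodic ψ]) ?_ 0
    · simp only [e_zero, one_mul] at h1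
      exact h1
    · intro n
      have h2 : (∮ ζ in C(z, r), fk F (-n - 1) ζ) = 0 := by
        apply Complex.circleIntegral_eq_zero_of_differentiable_on_off_countable hr.le
          countable_empty
        · exact (continuous_fk F hF _).continuousOn
        · intro ζ hζ
          exact (hk (-n - 1)).differentiableAt
            (isOpen_ball.mem_nhds (hsub (ball_subset_closedBall hζ.1)))
      rw [circleIntegral_eq_CI] at h2
      have h3 : (I * r : ℂ) ≠ 0 := by
        have : (r : ℂ) ≠ 0 := by exact_mod_cast hr.ne'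
        simp [this]
      have h4 := (mul_eq_zero.mp h2).resolve_left h3
      rw [CI_fk F hF] at h4
      convert! h4 using 5
      ring
  apply Pool.Agent.Results.MP_be4214_an.ArealCircleDerivative.result _ isOpen_ball _
    hF.continuousOn
  intro z hz
  have hz1 : ‖z‖ < 1 := by simpa using hz
  have hev : ∀ᶠ r : ℝ in 𝓝[>] 0, (0 : ℂ) = (∮ ζ in C(z, r), F ζ) / (r : ℂ) ^ 2 := by
    filter_upwards [Ioo_mem_nhdsGT (by linarith : 0 < 1 - ‖z‖)] with r hr
    rw [circleIntegral_eq_CI, hall z r hr.1 (by linarith [hr.2])]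
    simp
  exact tendsto_const_nhds.congr' hev

/-- **Main theorem.**  Let `0 < α ≤ 1` and let `f` be continuous on the closed unit disc.  If for
every `z` in the open unit disc the contour integral of `f` over the circle of centre `z` and radius
`α (1 - |z|)` vanishes, then `f` is holomorphic in the open unit disc. -/
theorem result (α : ℝ) (hα0 : 0 < α) (hα1 : α ≤ 1) (f : ℂ → ℂ)
    (hf : ContinuousOn f (closedBall 0 1))
    (h : ∀ z ∈ ball (0 : ℂ) 1, (∮ ζ in C(z, α * (1 - ‖z‖)), f ζ) = 0) :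
    DifferentiableOn ℂ f (ball 0 1) := by
  set pr : ℂ → ℂ := fun z => z / ((max 1 ‖z‖ : ℝ) : ℂ) with hpr
  have hmax : ∀ z : ℂ, 0 < max 1 ‖z‖ := fun z => lt_max_of_lt_left one_pos
  have hprc : Continuous pr := by
    simp only [hpr]
    apply Continuous.div continuous_id (by fun_prop)
    intro z
    exact_mod_cast (hmax z).ne'
  have hprm : ∀ z, pr z ∈ closedBall (0 : ℂ) 1 := by
    intro z
    rw [mem_closedBall, dist_zero_right]
    simp only [hpr]
    rw [norm_div, Complex.norm_real, Real.norm_eq_abs, abs_of_pos (hmax z), div_le_one (hmax z)]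
    exact le_max_right _ _
  have hpreq : ∀ z ∈ closedBall (0 : ℂ) 1, pr z = z := by
    intro z hz
    rw [mem_closedBall, dist_zero_right] at hz
    simp only [hpr]
    rw [max_eq_left hz]
    simp
  have hF : Continuous (fun z => f (pr z)) := hf.comp_continuous hprc hprm
  have hFf : ∀ z ∈ closedBall (0 : ℂ) 1, f (pr z) = f z := fun z hz => by rw [hpreq z hz]
  have hmain := main_global α hα0 hα1 (fun z => f (pr z)) hF (by
    intro z hz
    have hz1 : ‖z‖ < 1 := by simpa using hz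
    have hr : 0 < α * (1 - ‖z‖) := mul_pos hα0 (by linarith)
    have h1 := h z hz
    have h2 : (∮ ζ in C(z, α * (1 - ‖z‖)), f (pr ζ)) = ∮ ζ in C(z, α * (1 - ‖z‖)), f ζ := by
      apply circleIntegral.integral_congr hr.le
      intro w hw
      apply hFf
      have h3 : closedBall z (α * (1 - ‖z‖)) ⊆ closedBall (0 : ℂ) 1 := by
        apply closedBall_subset_closedBall'
        rw [dist_zero_right]
        nlinarith
      exact h3 (sphere_subset_closedBall hw)
    rw [← h2, circleIntegral_eq_CI] at h1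
    have h3 : (I * ((α * (1 - ‖z‖) : ℝ) : ℂ) : ℂ) ≠ 0 := by
      have : ((α * (1 - ‖z‖) : ℝ) : ℂ) ≠ 0 := by exact_mod_cast hr.ne'
      exact mul_ne_zero I_ne_zero this
    exact (mul_eq_zero.mp h1).resolve_left h3)
  exact hmain.congr fun z hz => (hFf z (ball_subset_closedBall hz)).symm

end Pool.Agent.Results.MP_9de1de_an.OneRadius
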